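import Pool.Agent.Helper83.OP.Defs

/-!
# LN: lanes and arches. Definitions.

The surgery layer for MP_0dbcb7_co. `J` nodes, `I` arcs (`src`, `tgt`) of a plane multigraph given by a grid
layout (`OP.Layout`). Every thread of the graph is drawn along a route (a simple path `Rt` of the
multigraph): in lanes inside the corridors, and by arches inside the node blocks.
-/

namespace Pool.Agent.Helper83.LN

open Set Pool.Agent.Helper83.OP

/-- the end `e` of the arc `i` (`false` is the source, `true` the target) -/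
def nend {J I : Type} (src tgt : I → J) (i : I) (e : Bool) : J := bif e then tgt i else src i

/-- A simple path in the multigraph: nodes `nd 0, ..., nd len`, arcs `ar 0, ..., ar (len - 1)`;
`dir t` is the end of the arc `ar t` at the node `nd t`. -/
structure Rt (J I : Type) (src tgt : I → J) where
  len : ℕ
  nd : ℕ → J
  ar : ℕ → I
  dir : ℕ → Bool
  fst : ∀ t < len, nend src tgt (ar t) (dir t) = nd t
  snd : ∀ t < len, nend src tgt (ar t) (!dir t) = nd (t + 1)
  inj : ∀ s t, s ≤ len → t ≤ len → nd s = nd t → s = t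

/-- The ports of the blocks: the start (`false`) and the end (`true`) of the curve `τ`, and the lane `l` of
the arc `i` at its end `e`. -/
abbrev Port (T I : Type) : Type := (T × Bool) ⊕ (I × Bool × ℕ)

section

variable {J I T : Type} {src tgt : I → J}

/-- the port through which the curve `τ` with route `R` and lanes `l` enters the block of `R.nd t` -/
def Rt.ent (R : Rt J I src tgt) (τ : T) (l : I → ℕ) : ℕ → Port T I
  | 0 => Sum.inl (τ, false)
  | t + 1 => Sum.inr (R.ar t, !R.dir t, l (R.ar t))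

/-- the port through which the curve `τ` leaves the block of `R.nd t` -/
def Rt.ext (R : Rt J I src tgt) (τ : T) (l : I → ℕ) (t : ℕ) : Port T I :=
  if t = R.len then Sum.inl (τ, true) else Sum.inr (R.ar t, R.dir t, l (R.ar t))

/-- the node of a port; `pa τ` and `pb τ` are the nodes where the curve `τ` starts and ends -/
def pnode (src tgt : I → J) (pa pb : T → J) : Port T I → J
  | Sum.inl (τ, false) => pa τ
  | Sum.inl (τ, true) => pb τ
  | Sum.inr (i, e, _) => nend src tgt i e

/-- ports with lane number less than `n` -/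
def okP (n : ℕ) : Port T I → Prop
  | Sum.inl _ => True
  | Sum.inr (_, _, l) => l < n

/-- the numbering `ν` of the ports is injective at every node -/
def GoodNu (src tgt : I → J) (pa pb : T → J) (n : ℕ) (ν : Port T I → ℕ) : Prop :=
  ∀ p p', okP n p → okP n p' → pnode src tgt pa pb p = pnode src tgt pa pb p' → ν p = ν p' → p = p'

/-- an assignment of lanes: `lam τ i` is the lane of `τ` in the corridor of `i` -/
structure Lanes (R : T → Rt J I src tgt) (n : ℕ) (lam : T → I → ℕ) : Prop where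
  lt : ∀ τ t, t < (R τ).len → lam τ ((R τ).ar t) < n
  ne : ∀ τ τ', τ ≠ τ' → ∀ s < (R τ).len, ∀ t < (R τ').len, (R τ).ar s = (R τ').ar t →
    lam τ ((R τ).ar s) ≠ lam τ' ((R τ').ar t)

/-- the pairs `{a, b}` and `{c, d}` interleave -/
def Il (a b c d : ℕ) : Prop :=
  (min a b < c ∧ c < max a b ∧ (d < min a b ∨ max a b < d)) ∨
    (min a b < d ∧ d < max a b ∧ (c < min a b ∨ max a b < c))

/-- the curves `τ` and `τ'` interleave in the block of `j` -/
def XJ (R : T → Rt J I src tgt) (ν : Port T I → ℕ) (lam : T → I → ℕ) (τ τ' : T) (j : J) : Prop :=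
  ∃ s ≤ (R τ).len, ∃ t ≤ (R τ').len, (R τ).nd s = j ∧ (R τ').nd t = j ∧
    Il (ν ((R τ).ent τ (lam τ) s)) (ν ((R τ).ext τ (lam τ) s))
      (ν ((R τ').ent τ' (lam τ') t)) (ν ((R τ').ext τ' (lam τ') t))

/-- the common nodes of two routes -/
def common (R R' : Rt J I src tgt) : Set J :=
  {j | (∃ s ≤ R.len, R.nd s = j) ∧ ∃ t ≤ R'.len, R'.nd t = j}

/-- the cost of a route -/
def Rt.cost (R : Rt J I src tgt) (c : I → ℕ) : ℕ := ∑ t ∈ Finset.range R.len, c (R.ar t)

/-- `R` is a route from `j` to `j'` -/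
def Rt.From (R : Rt J I src tgt) (j j' : J) : Prop := R.nd 0 = j ∧ R.nd R.len = j'

/-! ## Walks -/

/-- `l` is a walk from `j` to `j'`, as a list of darts `(i, e)`: the arc `i` from its end `e` to the other -/
def Wk (src tgt : I → J) : J → J → List (I × Bool) → Prop
  | j, j', [] => j = j'
  | j, j', d :: l => nend src tgt d.1 d.2 = j ∧ Wk src tgt (nend src tgt d.1 (!d.2)) j' l

/-- the cost of a walk -/
def wcost (c : I → ℕ) (l : List (I × Bool)) : ℕ := (l.map fun d => c d.1).sum

/-- the distance -/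
noncomputable def nD (src tgt : I → J) (c : I → ℕ) (j j' : J) : ℕ :=
  sInf {x | ∃ l, Wk src tgt j j' l ∧ wcost c l = x}

/-- a route of minimal cost -/
def IsGeo (c : I → ℕ) (R : Rt J I src tgt) : Prop :=
  ∀ l, Wk src tgt (R.nd 0) (R.nd R.len) l → R.cost c ≤ wcost c l

/-- The two routes agree between any two common nodes: if `R` is at the nodes `u`, `v` at the times
`s ≤ t` and `R'` at the times `s'` and `t'`, then `R'` follows `R` (in the same or in the opposite
direction) between them. -/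
structure Conn (R R' : Rt J I src tgt) : Prop where
  same : ∀ s t s' t', s ≤ t → t ≤ R.len → s' ≤ t' → t' ≤ R'.len → R.nd s = R'.nd s' →
    R.nd t = R'.nd t' → t - s = t' - s' ∧ (∀ k ≤ t - s, R.nd (s + k) = R'.nd (s' + k)) ∧
      ∀ k < t - s, R.ar (s + k) = R'.ar (s' + k) ∧ R.dir (s + k) = R'.dir (s' + k)
  opp : ∀ s t s' t', s ≤ t → t ≤ R.len → t' ≤ s' → s' ≤ R'.len → R.nd s = R'.nd s' →
    R.nd t = R'.nd t' → t - s = s' - t' ∧ (∀ k ≤ t - s, R.nd (s + k) = R'.nd (s' - k)) ∧
      ∀ k < t - s, R.ar (s + k) = R'.ar (s' - (k + 1)) ∧ R.dir (s + k) = !R'.dir (s' - (k + 1))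

open Classical in
/-- the bound for the number of crossings of the curves `τ` and `τ'` -/
noncomputable def mult (R : T → Rt J I src tgt) (Q : Set T) (τ τ' : T) : ℕ :=
  if τ ∈ Q ∧ τ' ∈ Q then min 1 (common (R τ) (R τ')).ncard else (common (R τ) (R τ')).ncard

end

/-! ## Drawings -/

/-- A drawing of the curves `E τ` from `P (a τ)` to `P (b τ)`: simple arcs which avoid the other terminals,
and no three of them have a common point other than a terminal. -/
structure Drw {U T : Type} (a b : T → U) (P : U → ℝ × ℝ) (E : T → Set (ℝ × ℝ)) : Prop where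
  inj : Function.Injective P
  isArc : ∀ τ, IsArc (E τ) (P (a τ)) (P (b τ))
  avoid : ∀ τ u, P u ∈ E τ → u = a τ ∨ u = b τ
  triple : ∀ τ τ' τ'', τ ≠ τ' → τ ≠ τ'' → τ' ≠ τ'' → ∀ p ∈ E τ, p ∈ E τ' → p ∈ E τ'' → ∃ u, p = P u

/-- the crossings of two curves -/
def Xs {U T : Type} (P : U → ℝ × ℝ) (E : T → Set (ℝ × ℝ)) (τ τ' : T) : Set (ℝ × ℝ) :=
  {p | p ∈ E τ ∧ p ∈ E τ' ∧ ∀ u, p ≠ P u}

/-- The decomposition of a graph into threads: `x τ 0, ..., x τ (len τ)` are the vertices of the thread `τ`;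
every edge is in exactly one thread, the inner vertices of a thread are on no other thread. -/
structure Threads {V : Type} (G : SimpleGraph V) (T : Type) where
  len : T → ℕ
  x : T → ℕ → V
  pos : ∀ τ, 1 ≤ len τ
  inj : ∀ τ s t, s ≤ len τ → t ≤ len τ → x τ s = x τ t → s = t
  adj : ∀ τ t, t < len τ → G.Adj (x τ t) (x τ (t + 1))
  cover : ∀ u v, G.Adj u v → ∃ τ t, t < len τ ∧ s(u, v) = s(x τ t, x τ (t + 1))
  uniq : ∀ τ τ' t t', t < len τ → t' < len τ' →
    s(x τ t, x τ (t + 1)) = s(x τ' t', x τ' (t' + 1)) → τ = τ' ∧ t = t'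
  inner : ∀ τ t, 0 < t → t < len τ → ∀ τ' t', t' ≤ len τ' → x τ' t' = x τ t → τ' = τ

/-! ## The polar plane -/

/-- polar coordinates `(angle, radius)` about `o` -/
noncomputable def pol (o : ℝ × ℝ) (z : ℝ × ℝ) : ℝ × ℝ :=
  (o.1 + z.2 * Real.cos z.1, o.2 + z.2 * Real.sin z.1)

/-- the domain of polar coordinates -/
def PD : Set (ℝ × ℝ) := {z | -Real.pi < z.1 ∧ z.1 ≤ Real.pi ∧ 0 < z.2}

/-- Positions of the ports of a block in the polar plane. Doors `D` with angle `θ` and radius `rad`;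
strand ends `W` at terminals (`u w` is the terminal), in the sector of angles less than those of the doors,
grouped by terminal. -/
structure Pose (D W U : Type) (u : W → U) where
  th : D ⊕ W → ℝ
  rad : D → ℝ
  om : U → ℝ
  th_inj : Function.Injective th
  om_inj : Function.Injective om
  th_gt : ∀ p, -Real.pi < th p
  th_le : ∀ p, th p ≤ Real.pi
  om_gt : ∀ v, -Real.pi < om v
  om_le : ∀ v, om v ≤ Real.pi
  rad_gt : ∀ d, 1 / 4 < rad d
  om_lt : ∀ w, om (u w) < th (Sum.inr w)
  win : ∀ w v, v ≠ u w → om v < om (u w) ∨ th (Sum.inr w) < om v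
  wd : ∀ w w', u w ≠ u w' → th (Sum.inr w) < om (u w') ∨ th (Sum.inr w') < om (u w)
  door : ∀ d v, om v < th (Sum.inl d)
  door' : ∀ d w, th (Sum.inr w) < th (Sum.inl d)

/-- the end point of a port in the polar plane: the door, or the terminal -/
noncomputable def Pose.top {D W U : Type} {u : W → U} (Θ : Pose D W U u) : D ⊕ W → ℝ × ℝ
  | Sum.inl d => (Θ.th (Sum.inl d), Θ.rad d)
  | Sum.inr w => (Θ.om (u w), 1 / 4)

/-- the terminal of a port -/
def trm {D W U : Type} (u : W → U) : D ⊕ W → Option U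
  | Sum.inl _ => none
  | Sum.inr w => some (u w)

/-! ## The picture in a block -/

/-- the end point of a port of a block -/
def ppt {D W U : Type} (A : D → ℝ × ℝ) (P : U → ℝ × ℝ) (u : W → U) : D ⊕ W → ℝ × ℝ
  | Sum.inl d => A d
  | Sum.inr w => P (u w)

/-- The picture in the block with corners `x0 < x1`, `y0 < y1`: doors `A d`, terminals `P v`, numbers `ν` of the
ports, and for any two ports a curve `Ch p q`. -/
structure Pic {D W U : Type} (x0 x1 y0 y1 : ℤ) (A : D → ℝ × ℝ) (u : W → U) where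
  ν : D ⊕ W → ℕ
  P : U → ℝ × ℝ
  Ch : D ⊕ W → D ⊕ W → Set (ℝ × ℝ)
  ν_inj : Function.Injective ν
  P_inj : Function.Injective P
  P_mem : ∀ v, P v ∈ orect x0 x1 y0 y1
  isArc : ∀ p q, p ≠ q → (trm u p ≠ trm u q ∨ trm u p = none) →
    IsArc (Ch p q) (ppt A P u p) (ppt A P u q)
  sub : ∀ p q, ∀ z ∈ Ch p q, z ∈ orect x0 x1 y0 y1 ∨ ∃ d, (p = Sum.inl d ∨ q = Sum.inl d) ∧ z = A d
  term : ∀ p q v, P v ∈ Ch p q → trm u p = some v ∨ trm u q = some v
  cross : ∀ p q p' q', [p, q, p', q'].Nodup → ∃ X : Set (ℝ × ℝ), X.Subsingleton ∧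
    (X.Nonempty → Il (ν p) (ν q) (ν p') (ν q')) ∧
    ∀ z ∈ Ch p q, z ∈ Ch p' q' → z ∈ X ∨ ∃ v, z = P v
  triple : ∀ p q p' q' p'' q'', [p, q, p', q', p'', q''].Nodup →
    ∀ z ∈ Ch p q, z ∈ Ch p' q' → z ∈ Ch p'' q'' → ∃ v, z = P v

/-- Lanes in the corridors: the strand `St i l` is lane `l` of the arc `i`, from the door `A i l` in the block of
the source to the door `B i l` in the block of the target. -/
structure Lns {J I : Type} {src tgt : I → J} (L : Layout J I src tgt) where
  St : I → ℕ → Set (ℝ × ℝ)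
  A : I → ℕ → ℝ × ℝ
  B : I → ℕ → ℝ × ℝ
  isArc : ∀ i l, IsArc (St i l) (A i l) (B i l)
  only : ∀ i l, ∀ p ∈ St i l, ∀ c, p ∈ cell c →
    c ∈ L.cells i ∨ (c = L.cs i ∧ p = A i l) ∨ (c = L.ce i ∧ p = B i l)
  some : ∀ i l, ∀ p ∈ St i l, ∃ c ∈ L.cells i, p ∈ cell c
  disj : ∀ i l l', l ≠ l' → Disjoint (St i l) (St i l')
  A_mem : ∀ i l, A i l ∈ cell (L.cs i)
  B_mem : ∀ i l, B i l ∈ cell (L.ce i)

/-- the door of the lane `l` of the arc `i` at its end `e` -/
def Lns.dr {J I : Type} {src tgt : I → J} {L : Layout J I src tgt} (S : Lns L) (i : I) (e : Bool) (l : ℕ) :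
    ℝ × ℝ := bif e then S.B i l else S.A i l

end Pool.Agent.Helper83.LN
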