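import Pool.Agent.Helper83.LN.Balance
import Pool.Agent.Helper83.OP.Arcs

/-!
# LN-13: from curves of threads to a drawing of the graph

Proof. Let `g τ : ℝ → ℝ × ℝ` be a parametrisation of `E τ` (`Drw.isArc`), and
`F τ = {t ∈ Ioo 0 1 | ∃ τ' ≠ τ, g τ t ∈ E τ'}`. For `t ∈ F τ` the point `g τ t` is not a terminal (it is not an end of
`E τ` by injectivity, `avoid`), so it is in `Xs P E τ τ'`; the map `t ↦ (τ', g τ t)` is injective into the set of
`hK`, so `F τ` is finite with at most `K * len τ` elements. `balance` gives break points `br τ s`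
(`0 ≤ s ≤ len τ`). Position of a vertex `v`: if `v = x τ s` with `0 < s < len τ` (`τ`, `s` are unique by `Threads.inner`
and `Threads.inj`), then `g τ (br τ s)`, otherwise `P v` (also for isolated vertices). These are different:
`g τ (br τ s)` is on no other `E τ'` and is no terminal. The curve of the edge `s(x τ s, x τ (s + 1))` is
`g τ` on `[br τ s, br τ (s + 1)]`, reparametrised by an affine map (`Threads.cover`, `Threads.uniq`; define the curve of
`e ∈ G.edgeSet` by choice of `(τ, s)`). Its ends have the positions of `x τ s`, `x τ (s + 1)`. Avoid: inner points of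
the piece are no terminals and no break points.
Crossings of the edge `e = (τ, s)`: pairs `(e', p)`, `e' = (τ', s')`, `p` an inner point of both pieces. `τ' ≠ τ` by
injectivity of `g τ`. `p = g τ t` with `t ∈ F τ ∩ Ioo (br τ s) (br τ (s + 1))`. The map `(e', p) ↦ t` is injective:
`p` is on only one other curve `E τ'` by `triple`, and an inner point of only one piece of it.
-/

namespace Pool.Agent.Helper83.LN

open Set Pool.Agent.Helper83.OP

private theorem as_mono (r : ℕ) (t : ℕ → ℝ) (h : ∀ i < r, t i < t (i + 1)) :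
    ∀ i j, i < j → j ≤ r → t i < t j := by
  intro i j hij
  induction j with
  | zero => omega
  | succ j ih =>
    intro hj
    rcases Nat.lt_succ_iff_lt_or_eq.mp hij with h1 | h1
    · exact (ih h1 (by omega)).trans (h j (by omega))
    · subst h1
      exact h i (by omega)

theorem assemble {V T : Type} [Finite V] [Finite T] (G : SimpleGraph V) (Th : Threads G T) (K : ℕ)
    (P : V → ℝ × ℝ) (E : T → Set (ℝ × ℝ))
    (hD : Drw (fun τ => Th.x τ 0) (fun τ => Th.x τ (Th.len τ)) P E)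
    (hK : ∀ τ, {p : T × (ℝ × ℝ) | p.1 ≠ τ ∧ p.2 ∈ Xs P E τ p.1}.encard ≤ ((K * Th.len τ : ℕ) : ℕ∞)) :
    KPl K G := by
  classical
  have hpar := hD.isArc
  simp only [IsArc] at hpar
  choose g hgc hgi hg0 hg1 hgE using hpar
  have hmem : ∀ τ, ∀ t ∈ Icc (0 : ℝ) 1, g τ t ∈ E τ := fun τ t ht => by
    rw [← hgE τ]; exact ⟨t, ht, rfl⟩
  -- inner times are not terminals
  have hterm : ∀ τ, ∀ t ∈ Ioo (0 : ℝ) 1, ∀ u, g τ t ≠ P u := by
    intro τ t ht u h
    have h1 : P u ∈ E τ := by rw [← h]; exact hmem τ t ⟨ht.1.le, ht.2.le⟩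
    rcases hD.avoid τ u h1 with h2 | h2
    · rw [h2, ← hg0 τ] at h
      have := hgi τ ⟨ht.1.le, ht.2.le⟩ ⟨le_rfl, zero_le_one⟩ h
      linarith [ht.1]
    · rw [h2, ← hg1 τ] at h
      have := hgi τ ⟨ht.1.le, ht.2.le⟩ ⟨zero_le_one, le_rfl⟩ h
      linarith [ht.2]
  set F : T → Set ℝ := fun τ => {t | t ∈ Ioo (0 : ℝ) 1 ∧ ∃ τ', τ' ≠ τ ∧ g τ t ∈ E τ'} with hF
  have hFc : ∀ τ, (F τ).Finite ∧ (F τ).ncard ≤ K * Th.len τ := by
    intro τ
    rw [← Set.encard_le_coe_iff_finite_ncard_le]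
    refine le_trans ?_ (hK τ)
    have hex : ∀ t, ∃ τ', t ∈ F τ → τ' ≠ τ ∧ g τ t ∈ E τ' := by
      intro t
      by_cases h : t ∈ F τ
      · obtain ⟨-, τ', h1, h2⟩ := h
        exact ⟨τ', fun _ => ⟨h1, h2⟩⟩
      · exact ⟨τ, fun h' => absurd h' h⟩
    choose c hc using hex
    refine Set.encard_le_encard_of_injOn (f := fun t => (c t, g τ t)) ?_ ?_
    · intro t ht
      refine ⟨(hc t ht).1, hmem τ t ⟨ht.1.1.le, ht.1.2.le⟩, (hc t ht).2, ?_⟩
      exact fun u => hterm τ t ht.1 u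
    · intro t ht t' ht' h
      exact hgi τ ⟨ht.1.1.le, ht.1.2.le⟩ ⟨ht'.1.1.le, ht'.1.2.le⟩ (Prod.ext_iff.1 h).2
  have hbal := fun τ => balance K (Th.len τ) (Th.pos τ) (F τ) (hFc τ).1 (fun t ht => ht.1) (hFc τ).2
  choose br hb0 hb1 hbm hbF hbK using hbal
  have hbmono := fun τ => as_mono (Th.len τ) (br τ) (hbm τ)
  have hbIcc : ∀ τ, ∀ i ≤ Th.len τ, br τ i ∈ Icc (0 : ℝ) 1 := by
    intro τ i hi
    constructor
    · rcases Nat.eq_zero_or_pos i with rfl | h
      · exact (hb0 τ).ge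
      · rw [← hb0 τ]
        exact (hbmono τ 0 i h hi).le
    · rcases Nat.lt_or_ge i (Th.len τ) with h | h
      · rw [← hb1 τ]
        exact (hbmono τ i _ h le_rfl).le
      · have : i = Th.len τ := by omega
        subst this
        exact (hb1 τ).le
  have hbIoo : ∀ τ i, 0 < i → i < Th.len τ → br τ i ∈ Ioo (0 : ℝ) 1 := by
    intro τ i h0 h1
    constructor
    · rw [← hb0 τ]
      exact hbmono τ 0 i h0 h1.le
    · rw [← hb1 τ]
      exact hbmono τ i _ h1 le_rfl
  have hbinj : ∀ τ i j, i ≤ Th.len τ → j ≤ Th.len τ → br τ i = br τ j → i = j := by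
    intro τ i j hi hj h
    rcases lt_trichotomy i j with h1 | h1 | h1
    · exact absurd h (hbmono τ i j h1 hj).ne
    · exact h1
    · exact absurd h.symm (hbmono τ j i h1 hi).ne
  -- inner vertices
  set Inn : V → Prop := fun v => ∃ p : T × ℕ, (0 < p.2 ∧ p.2 < Th.len p.1) ∧ Th.x p.1 p.2 = v
    with hInn
  have hnot : ∀ τ s, s ≤ Th.len τ → (s = 0 ∨ s = Th.len τ) → ¬ Inn (Th.x τ s) := by
    rintro τ s hs h0 ⟨⟨τ', s'⟩, ⟨h1, h2⟩, h3⟩
    simp only at h1 h2 h3
    have h4 : τ = τ' := Th.inner τ' s' h1 h2 τ s hs h3.symm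
    subst h4
    have h5 := Th.inj τ s' s h2.le hs h3
    rcases h0 with h0 | h0 <;> omega
  obtain ⟨pos, hp1, hp2⟩ : ∃ pos : V → ℝ × ℝ,
      (∀ τ s, s ≤ Th.len τ → pos (Th.x τ s) = g τ (br τ s)) ∧ ∀ v, ¬ Inn v → pos v = P v := by
    refine ⟨fun v => if h : Inn v then g h.choose.1 (br h.choose.1 h.choose.2) else P v, ?_, ?_⟩
    · intro τ s hs
      by_cases h0 : 0 < s ∧ s < Th.len τ
      · have h : Inn (Th.x τ s) := ⟨(τ, s), h0, rfl⟩
        simp only [dif_pos h]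
        have h1 := h.choose_spec.1
        have h2 := h.choose_spec.2
        have h3 : h.choose.1 = τ := Th.inner τ s h0.1 h0.2 _ _ h1.2.le h2
        have h4 : h.choose.2 = s := by
          have h5 := h1.2.le
          have h6 := h2
          rw [h3] at h5 h6
          exact Th.inj τ _ _ h5 hs h6
        rw [h3, h4]
      · have h1 : s = 0 ∨ s = Th.len τ := by omega
        simp only [dif_neg (hnot τ s hs h1)]
        rcases h1 with h1 | h1
        · subst h1
          rw [hb0, hg0]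
        · subst h1
          rw [hb1, hg1]
    · intro v hv
      simp only [dif_neg hv]
  -- the curves
  obtain ⟨γ, hγ⟩ : ∃ γ : Sym2 V → ℝ → ℝ × ℝ, ∀ e ∈ G.edgeSet, ∃ τ s, s < Th.len τ ∧
      e = s(Th.x τ s, Th.x τ (s + 1)) ∧
      γ e = fun u => g τ (br τ s + u * (br τ (s + 1) - br τ s)) := by
    refine ⟨fun e => if h : ∃ p : T × ℕ, p.2 < Th.len p.1 ∧
      e = s(Th.x p.1 p.2, Th.x p.1 (p.2 + 1)) then
      (fun u => g h.choose.1 (br h.choose.1 h.choose.2 +
        u * (br h.choose.1 (h.choose.2 + 1) - br h.choose.1 h.choose.2))) else fun _ => (0, 0), ?_⟩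
    intro e he
    have h : ∃ p : T × ℕ, p.2 < Th.len p.1 ∧ e = s(Th.x p.1 p.2, Th.x p.1 (p.2 + 1)) := by
      induction e using Sym2.ind with
      | _ a b =>
        obtain ⟨τ, t, h1, h2⟩ := Th.cover a b he
        exact ⟨(τ, t), h1, h2⟩
    refine ⟨h.choose.1, h.choose.2, h.choose_spec.1, h.choose_spec.2, ?_⟩
    simp only [dif_pos h]
  -- interpolation
  have hint : ∀ τ, ∀ i < Th.len τ, ∀ u ∈ Ioo (0 : ℝ) 1,
      br τ i < br τ i + u * (br τ (i + 1) - br τ i) ∧
        br τ i + u * (br τ (i + 1) - br τ i) < br τ (i + 1) := by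
    intro τ i hi u hu
    have h := hbm τ i hi
    constructor
    · have := mul_pos hu.1 (sub_pos.mpr h); linarith
    · have := mul_pos (sub_pos.mpr hu.2) (sub_pos.mpr h); nlinarith
  have hintI : ∀ τ, ∀ i < Th.len τ, ∀ u ∈ Icc (0 : ℝ) 1,
      br τ i + u * (br τ (i + 1) - br τ i) ∈ Icc (0 : ℝ) 1 := by
    intro τ i hi u hu
    have h := hbm τ i hi
    have h1 := (hbIcc τ i hi.le).1
    have h2 := (hbIcc τ (i + 1) hi).2
    constructor
    · have := mul_nonneg hu.1 (sub_pos.mpr h).le; linarith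
    · have := mul_nonneg (sub_nonneg.mpr hu.2) (sub_pos.mpr h).le; nlinarith
  -- points of the curves
  have hpt : ∀ e ∈ G.edgeSet, ∀ u ∈ Ioo (0 : ℝ) 1, ∃ τ s, s < Th.len τ ∧
      e = s(Th.x τ s, Th.x τ (s + 1)) ∧ ∃ t, br τ s < t ∧ t < br τ (s + 1) ∧ γ e u = g τ t := by
    intro e he u hu
    obtain ⟨τ, s, h1, h2, h3⟩ := hγ e he
    refine ⟨τ, s, h1, h2, br τ s + u * (br τ (s + 1) - br τ s), (hint τ s h1 u hu).1,
      (hint τ s h1 u hu).2, ?_⟩
    rw [h3]
  have htI : ∀ τ, ∀ s < Th.len τ, ∀ t, br τ s < t → t < br τ (s + 1) → t ∈ Ioo (0 : ℝ) 1 := by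
    intro τ s hs t h1 h2
    exact ⟨lt_of_le_of_lt (hbIcc τ s hs.le).1 h1, lt_of_lt_of_le h2 (hbIcc τ (s + 1) hs).2⟩
  have hsame : ∀ τ, ∀ i < Th.len τ, ∀ j < Th.len τ, ∀ t, br τ i < t → t < br τ (i + 1) →
      br τ j < t → t < br τ (j + 1) → i = j := by
    have key : ∀ τ, ∀ i < Th.len τ, ∀ j < Th.len τ, i < j → ∀ t, t < br τ (i + 1) →
        br τ j < t → False := by
      intro τ i hi j hj hij t h1 h2
      have : br τ (i + 1) ≤ br τ j := by
        rcases Nat.lt_or_ge (i + 1) j with h' | h'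
        · exact (hbmono τ (i + 1) j h' (by omega)).le
        · have : i + 1 = j := by omega
          rw [this]
      linarith
    intro τ i hi j hj t h1 h2 h3 h4
    rcases lt_trichotomy i j with h | h | h
    · exact (key τ i hi j hj h t h2 h3).elim
    · exact h
    · exact (key τ j hj i hi h t h4 h1).elim
  have hnode : ∀ τ, ∀ i < Th.len τ, ∀ j ≤ Th.len τ, ∀ t, br τ i < t → t < br τ (i + 1) →
      t ≠ br τ j := by
    intro τ i hi j hj t h1 h2 h
    rw [h] at h1 h2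
    rcases Nat.lt_or_ge i j with h' | h'
    · have : br τ (i + 1) ≤ br τ j := by
        rcases Nat.lt_or_ge (i + 1) j with h'' | h''
        · exact (hbmono τ (i + 1) j h'' hj).le
        · have : i + 1 = j := by omega
          rw [this]
      linarith
    · have : br τ j ≤ br τ i := by
        rcases Nat.lt_or_ge j i with h'' | h''
        · exact (hbmono τ j i h'' hi.le).le
        · have : i = j := by omega
          rw [this]
      linarith
  -- break points are on no other curve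
  have hbr : ∀ τ s, 0 < s → s < Th.len τ → ∀ τ', τ' ≠ τ → g τ (br τ s) ∉ E τ' := by
    intro τ s h0 h1 τ' hne h
    exact hbF τ s h0 h1 ⟨hbIoo τ s h0 h1, τ', hne, h⟩
  have hdraw : IsDrawing G pos γ := by
    refine ⟨?_, ?_, ?_, ?_, ?_⟩
    · intro a b hab
      by_cases ha : Inn a
      · obtain ⟨⟨τ, s⟩, ⟨h0, h1⟩, rfl⟩ := ha
        simp only at h0 h1 hab ⊢
        rw [hp1 τ s h1.le] at hab
        by_cases hb : Inn b
        · obtain ⟨⟨τ', s'⟩, ⟨h0', h1'⟩, rfl⟩ := hb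
          simp only at h0' h1' hab ⊢
          rw [hp1 τ' s' h1'.le] at hab
          by_cases hτ : τ' = τ
          · subst hτ
            have := hgi τ' (hbIcc τ' s h1.le) (hbIcc τ' s' h1'.le) hab
            rw [hbinj τ' s s' h1.le h1'.le this]
          · exfalso
            apply hbr τ s h0 h1 τ' hτ
            rw [hab]
            exact hmem τ' _ (hbIcc τ' s' h1'.le)
        · rw [hp2 b hb] at hab
          exact absurd hab (hterm τ _ (hbIoo τ s h0 h1) b)
      · rw [hp2 a ha] at hab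
        by_cases hb : Inn b
        · obtain ⟨⟨τ', s'⟩, ⟨h0', h1'⟩, rfl⟩ := hb
          simp only at h0' h1' hab ⊢
          rw [hp1 τ' s' h1'.le] at hab
          exact absurd hab.symm (hterm τ' _ (hbIoo τ' s' h0' h1') a)
        · rw [hp2 b hb] at hab
          exact hD.inj hab
    · intro a b hab
      obtain ⟨τ, s, h1, h2, h3⟩ := hγ s(a, b) hab
      have e0 : γ s(a, b) 0 = pos (Th.x τ s) := by
        rw [h3, hp1 τ s h1.le]; simp
      have e1 : γ s(a, b) 1 = pos (Th.x τ (s + 1)) := by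
        rw [h3, hp1 τ (s + 1) h1]; simp
      rw [e0, e1]
      rcases Sym2.eq_iff.mp h2 with ⟨h4, h5⟩ | ⟨h4, h5⟩
      · left; exact ⟨by rw [h4], by rw [h5]⟩
      · right; exact ⟨by rw [h5], by rw [h4]⟩
    · intro e he
      obtain ⟨τ, s, h1, h2, h3⟩ := hγ e he
      rw [h3]
      apply (hgc τ).comp (by fun_prop)
      intro u hu
      exact hintI τ s h1 u hu
    · intro e he
      obtain ⟨τ, s, h1, h2, h3⟩ := hγ e he
      rw [h3]
      intro u hu u' hu' h
      have h4 := hgi τ (hintI τ s h1 u hu) (hintI τ s h1 u' hu') h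
      have h5 := sub_pos.mpr (hbm τ s h1)
      have h6 : u * (br τ (s + 1) - br τ s) = u' * (br τ (s + 1) - br τ s) := by linarith
      exact mul_right_cancel₀ h5.ne' h6
    · intro e he u hu w
      obtain ⟨τ, s, h1, h2, t, h3, h4, h5⟩ := hpt e he u hu
      have ht := htI τ s h1 t h3 h4
      rw [h5]
      by_cases hw : Inn w
      · obtain ⟨⟨τ', s'⟩, ⟨h0', h1'⟩, rfl⟩ := hw
        simp only at h0' h1' ⊢
        rw [hp1 τ' s' h1'.le]
        intro h
        by_cases hτ : τ = τ'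
        · subst hτ
          exact hnode τ s h1 s' h1'.le t h3 h4 (hgi τ ⟨ht.1.le, ht.2.le⟩ (hbIcc τ s' h1'.le) h)
        · apply hbr τ' s' h0' h1' τ hτ
          rw [← h]
          exact hmem τ t ⟨ht.1.le, ht.2.le⟩
      · rw [hp2 w hw]
        exact hterm τ t ht w
  refine ⟨pos, γ, hdraw, ?_⟩
  intro e he
  obtain ⟨τ, s, hs, hes, -⟩ := hγ e he
  -- the crossings of `e`
  have hcross : ∀ q ∈ crossSet G γ e, (∃ t ∈ F τ ∩ Ioo (br τ s) (br τ (s + 1)), g τ t = q.2) ∧
      ∃ τ' s', τ' ≠ τ ∧ s' < Th.len τ' ∧ q.1 = s(Th.x τ' s', Th.x τ' (s' + 1)) ∧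
        ∃ t', br τ' s' < t' ∧ t' < br τ' (s' + 1) ∧ q.2 = g τ' t' := by
    rintro ⟨f, p⟩ ⟨hf, hfe, ⟨u, hu, hup⟩, ⟨u', hu', hup'⟩⟩
    simp only at hf hfe hup hup' ⊢
    obtain ⟨τ1, s1, h1, h2, t, h3, h4, h5⟩ := hpt e he u hu
    obtain ⟨h6, h7⟩ := Th.uniq τ1 τ s1 s h1 hs (h2.symm.trans hes)
    subst h6
    subst h7
    obtain ⟨τ', s', h1', h2', t', h3', h4', h5'⟩ := hpt f hf u' hu'
    have ht := htI τ1 s1 h1 t h3 h4
    have ht' := htI τ' s' h1' t' h3' h4'
    have htt : g τ1 t = g τ' t' := by rw [← h5, ← h5', hup, hup']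
    have hne : τ' ≠ τ1 := by
      intro h
      subst h
      have h8 := hgi τ' ⟨ht.1.le, ht.2.le⟩ ⟨ht'.1.le, ht'.2.le⟩ htt
      subst h8
      have h9 := hsame τ' s1 h1 s' h1' t h3 h4 h3' h4'
      subst h9
      exact hfe (h2'.trans hes.symm)
    refine ⟨⟨t, ⟨⟨ht, τ', hne, ?_⟩, h3, h4⟩, by rw [← h5, hup]⟩, τ', s', hne, h1', h2', t', h3', h4',
      by rw [← h5', hup']⟩
    rw [htt]
    exact hmem τ' t' ⟨ht'.1.le, ht'.2.le⟩
  have hinj : InjOn Prod.snd (crossSet G γ e) := by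
    intro q hq q' hq' hqq
    obtain ⟨⟨t, ht, htq⟩, τ1, s1, hne1, h1, h2, t1, h3, h4, h5⟩ := hcross q hq
    obtain ⟨-, τ2, s2, hne2, h1', h2', t2, h3', h4', h5'⟩ := hcross q' hq'
    have ht1 := htI τ1 s1 h1 t1 h3 h4
    have ht2 := htI τ2 s2 h1' t2 h3' h4'
    have h12 : τ1 = τ2 := by
      by_contra hne
      obtain ⟨u, hu⟩ := hD.triple τ τ1 τ2 (Ne.symm hne1) (Ne.symm hne2) hne q.2
        (by rw [← htq]; exact hmem τ t ⟨ht.1.1.1.le, ht.1.1.2.le⟩)
        (by rw [h5]; exact hmem τ1 t1 ⟨ht1.1.le, ht1.2.le⟩)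
        (by rw [hqq, h5']; exact hmem τ2 t2 ⟨ht2.1.le, ht2.2.le⟩)
      exact hterm τ t ht.1.1 u (htq.trans hu)
    subst h12
    have h6 : t1 = t2 := hgi τ1 ⟨ht1.1.le, ht1.2.le⟩ ⟨ht2.1.le, ht2.2.le⟩
      (by rw [← h5, ← h5', hqq])
    subst h6
    have h7 := hsame τ1 s1 h1 s2 h1' t1 h3 h4 h3' h4'
    subst h7
    exact Prod.ext (h2.trans h2'.symm) hqq
  have hfin : (F τ ∩ Ioo (br τ s) (br τ (s + 1))).Finite := (hFc τ).1.subset inter_subset_left
  rw [← hinj.encard_image]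
  have hsub : Prod.snd '' crossSet G γ e ⊆ g τ '' (F τ ∩ Ioo (br τ s) (br τ (s + 1))) := by
    rintro _ ⟨q, hq, rfl⟩
    obtain ⟨⟨t, ht, htq⟩, -⟩ := hcross q hq
    exact ⟨t, ht, htq⟩
  refine (Set.encard_le_encard hsub).trans ((Set.encard_image_le _ _).trans ?_)
  rw [Set.encard_le_coe_iff_finite_ncard_le]
  exact ⟨hfin, hbK τ s hs⟩

end Pool.Agent.Helper83.LN
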