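import Pool.Agent.Helper83.LN.Walk

/-!
# LN-10: a consistent system of geodesics

Proof. Let `e : I → ℕ` be injective with `e i < M`, and `c' i = 2 ^ M * c i + 2 ^ e i`. For `j, j'` with a walk, a walk
of minimal `c'`-cost and `exists_rt` give a route `ρ j j'` with `IsGeo c' (ρ j j')`.
* `IsGeo c (ρ j j')`: for a walk `l` let `R''` be the route of `exists_rt c` in `l`; its arcs are different, so
  `∑ 2 ^ e < 2 ^ M`, `2 ^ M * c(ρ) ≤ c'(ρ) ≤ c'(R'') < 2 ^ M * (c(R'') + 1)`, so `c(ρ) ≤ c(R'') ≤ c(l)`.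
* `Conn`: let `R`, `R'` be `c'`-geodesic routes, `R.nd s = R'.nd s'`, `R.nd t = R'.nd t'`, `s ≤ t`. By `geo_sub` (or
  `nD_geo`, `nD_symm`) the two parts have the same `c'`-cost; the arcs of each part are different; comparing modulo
  `2 ^ M` the sums of `2 ^ e i` over the two sets of arcs are equal, so the SETS OF ARCS are equal
  (`Finset.geomSum_injective` or `Nat.bitIndices`). Now induction on `k` (same direction): if
  `R.nd (s + k) = R'.nd (s' + k)` and `s + k < t`, apply this to the parts from `s + k` to `t` and from `s' + k` to `t'`: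
  `R.ar (s + k) = R'.ar (s' + m)` with `m ≥ k`; the arc `R'.ar (s' + m)` has the ends `R'.nd (s' + m)`,
  `R'.nd (s' + m + 1)`, one of them is `R.nd (s + k) = R'.nd (s' + k)`, so `m = k`. The directions agree, since
  otherwise `R.nd (s + k + 1) = R.nd (s + k)`. The opposite direction is the same with `R'` read backwards.
-/

namespace Pool.Agent.Helper83.LN

open Set

section

variable {J I : Type} {src tgt : I → J}

/-- the perturbed costs -/
private def pc (c : I → ℕ) (M : ℕ) (e : I → ℕ) (i : I) : ℕ := 2 ^ M * c i + 2 ^ e i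

private theorem pow_sum_lt {M : ℕ} {e : I → ℕ} (he : Function.Injective e) (hM : ∀ i, e i < M)
    (A : Finset I) : ∑ i ∈ A, 2 ^ e i < 2 ^ M := by
  classical
  have h1 : ∑ i ∈ A, 2 ^ e i = ∑ k ∈ A.image e, 2 ^ k := by
    rw [Finset.sum_image]
    intro x _ y _ h
    exact he h
  rw [h1]
  refine Nat.geomSum_lt (by norm_num) ?_
  intro k hk
  obtain ⟨i, _, rfl⟩ := Finset.mem_image.1 hk
  exact hM i

private theorem pc_inj {c : I → ℕ} {M : ℕ} {e : I → ℕ} (he : Function.Injective e)
    (hM : ∀ i, e i < M) {A B : Finset I} (h : ∑ i ∈ A, pc c M e i = ∑ i ∈ B, pc c M e i) :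
    A = B := by
  classical
  have h1 : ∀ C : Finset I, ∑ i ∈ C, pc c M e i = 2 ^ M * ∑ i ∈ C, c i + ∑ i ∈ C, 2 ^ e i := by
    intro C
    simp only [pc]
    rw [Finset.sum_add_distrib, Finset.mul_sum]
  rw [h1, h1] at h
  have hA := pow_sum_lt he hM A
  have hB := pow_sum_lt he hM B
  have h2 : ∑ i ∈ A, 2 ^ e i = ∑ i ∈ B, 2 ^ e i := by
    have := congrArg (· % 2 ^ M) h
    simp only [Nat.mul_add_mod] at this
    rwa [Nat.mod_eq_of_lt hA, Nat.mod_eq_of_lt hB] at this
  have h3 : ∀ C : Finset I, ∑ i ∈ C, 2 ^ e i = ∑ k ∈ C.image e, 2 ^ k := by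
    intro C
    rw [Finset.sum_image]
    intro x _ y _ h
    exact he h
  rw [h3, h3] at h2
  exact Finset.image_injective he (Finset.geomSum_injective (le_refl 2) h2)

private theorem ar_inj (R : Rt J I src tgt) {s t : ℕ} (hs : s < R.len) (ht : t < R.len)
    (h : R.ar s = R.ar t) : s = t := by
  have h1 := R.fst s hs
  have h2 := R.snd s hs
  have h3 := R.fst t ht
  have h4 := R.snd t ht
  rw [h] at h1 h2
  by_cases hd : R.dir s = R.dir t
  · rw [hd, h3] at h1
    exact (R.inj t s ht.le hs.le h1).symm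
  · have hd' : R.dir s = !R.dir t := by
      revert hd
      cases R.dir s <;> cases R.dir t <;> simp
    rw [hd', h4] at h1
    rw [hd', Bool.not_not, h3] at h2
    have e1 := R.inj (t + 1) s ht hs.le h1
    have e2 := R.inj t (s + 1) ht.le hs h2
    omega

open Classical in
/-- the arcs of a part of a route -/
private noncomputable def arcs (R : Rt J I src tgt) (s t : ℕ) : Finset I :=
  (Finset.Ico s t).image R.ar

private theorem sum_arcs (R : Rt J I src tgt) (f : I → ℕ) {s t : ℕ} (ht : t ≤ R.len) :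
    ∑ k ∈ Finset.Ico s t, f (R.ar k) = ∑ i ∈ arcs R s t, f i := by
  classical
  rw [arcs, Finset.sum_image]
  intro x hx y hy h
  have hx' := Finset.mem_Ico.1 (Finset.mem_coe.1 hx)
  have hy' := Finset.mem_Ico.1 (Finset.mem_coe.1 hy)
  exact ar_inj R (hx'.2.trans_le ht) (hy'.2.trans_le ht) h

private theorem card_arcs (R : Rt J I src tgt) {s t : ℕ} (ht : t ≤ R.len) :
    (arcs R s t).card = t - s := by
  classical
  rw [arcs, Finset.card_image_of_injOn, Nat.card_Ico]
  intro x hx y hy h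
  have hx' := Finset.mem_Ico.1 (Finset.mem_coe.1 hx)
  have hy' := Finset.mem_Ico.1 (Finset.mem_coe.1 hy)
  exact ar_inj R (hx'.2.trans_le ht) (hy'.2.trans_le ht) h

private theorem key {c : I → ℕ} {M : ℕ} {e : I → ℕ} (he : Function.Injective e)
    (hM : ∀ i, e i < M) {R R' : Rt J I src tgt} (h : IsGeo (pc c M e) R)
    (h' : IsGeo (pc c M e) R') {s t p q : ℕ} (hst : s ≤ t) (ht : t ≤ R.len) (hpq : p ≤ q)
    (hq : q ≤ R'.len) (hh : (R.nd s = R'.nd p ∧ R.nd t = R'.nd q) ∨
      (R.nd s = R'.nd q ∧ R.nd t = R'.nd p)) : arcs R s t = arcs R' p q := by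
  refine pc_inj (c := c) he hM ?_
  rw [← sum_arcs R _ ht, ← sum_arcs R' _ hq, ← nD_geo h hst ht, ← nD_geo h' hpq hq]
  rcases hh with ⟨h1, h2⟩ | ⟨h1, h2⟩
  · rw [h1, h2]
  · rw [h1, h2, nD_symm]

/-- the first arc of a part of `R` in a part of `R'` -/
private theorem step {R R' : Rt J I src tgt} {a t p q : ℕ} (hat : a < t) (ht : t ≤ R.len)
    (hq : q ≤ R'.len) (h : arcs R a t = arcs R' p q) :
    ∃ m, p ≤ m ∧ m < q ∧ R.ar a = R'.ar m ∧
      ((R.dir a = R'.dir m ∧ R.nd a = R'.nd m ∧ R.nd (a + 1) = R'.nd (m + 1)) ∨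
        (R.dir a = !R'.dir m ∧ R.nd a = R'.nd (m + 1) ∧ R.nd (a + 1) = R'.nd m)) := by
  classical
  have h1 : R.ar a ∈ arcs R a t := by
    rw [arcs, Finset.mem_image]
    exact ⟨a, Finset.mem_Ico.2 ⟨le_rfl, hat⟩, rfl⟩
  rw [h, arcs, Finset.mem_image] at h1
  obtain ⟨m, hm, hmm⟩ := h1
  obtain ⟨hm1, hm2⟩ := Finset.mem_Ico.1 hm
  refine ⟨m, hm1, hm2, hmm.symm, ?_⟩
  have f1 := R.fst a (hat.trans_le ht)
  have f2 := R.snd a (hat.trans_le ht)
  have f3 := R'.fst m (hm2.trans_le hq)
  have f4 := R'.snd m (hm2.trans_le hq)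
  rw [hmm] at f3 f4
  by_cases hd : R.dir a = R'.dir m
  · left
    rw [← hd] at f3 f4
    exact ⟨hd, by rw [← f1, ← f3], by rw [← f2, ← f4]⟩
  · right
    have hd' : R.dir a = !R'.dir m := by
      revert hd
      cases R.dir a <;> cases R'.dir m <;> simp
    refine ⟨hd', ?_, ?_⟩
    · rw [← f1, ← f4, hd']
    · rw [← f2, ← f3, hd', Bool.not_not]

private theorem conn_of_geo {c : I → ℕ} {M : ℕ} {e : I → ℕ} (he : Function.Injective e)
    (hM : ∀ i, e i < M) {R R' : Rt J I src tgt} (h : IsGeo (pc c M e) R)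
    (h' : IsGeo (pc c M e) R') : Conn R R' := by
  constructor
  · intro s t s' t' hst ht hst' ht' h1 h2
    have hA := key he hM h h' hst ht hst' ht' (Or.inl ⟨h1, h2⟩)
    have hl : t - s = t' - s' := by
      have := congrArg Finset.card hA
      rwa [card_arcs R ht, card_arcs R' ht'] at this
    have main : ∀ k, k ≤ t - s → R.nd (s + k) = R'.nd (s' + k) ∧
        (k < t - s → R.ar (s + k) = R'.ar (s' + k) ∧ R.dir (s + k) = R'.dir (s' + k) ∧
          R.nd (s + k + 1) = R'.nd (s' + k + 1)) := by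
      intro k
      have aux : k ≤ t - s → R.nd (s + k) = R'.nd (s' + k) → k < t - s →
          R.ar (s + k) = R'.ar (s' + k) ∧ R.dir (s + k) = R'.dir (s' + k) ∧
          R.nd (s + k + 1) = R'.nd (s' + k + 1) := by
        intro _ hn hk
        have hB := key he hM h h' (s := s + k) (t := t) (p := s' + k) (q := t') (by omega) ht
          (by omega) ht' (Or.inl ⟨hn, h2⟩)
        obtain ⟨m, hm1, hm2, hm3, hm4⟩ := step (by omega) ht ht' hB
        rcases hm4 with ⟨d1, d2, d3⟩ | ⟨d1, d2, d3⟩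
        · rw [hn] at d2
          have := R'.inj _ _ (by omega) (by omega) d2
          subst this
          exact ⟨hm3, d1, d3⟩
        · rw [hn] at d2
          have := R'.inj _ _ (by omega) (by omega) d2
          omega
      induction k with
      | zero =>
        intro _
        exact ⟨by simpa using h1, aux (Nat.zero_le _) (by simpa using h1)⟩
      | succ k ih =>
        intro hk
        have hn : R.nd (s + (k + 1)) = R'.nd (s' + (k + 1)) := by
          have := ((ih (by
            intro _ hn hk'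
            have hB := key he hM h h' (s := s + k) (t := t) (p := s' + k) (q := t') (by omega) ht
              (by omega) ht' (Or.inl ⟨hn, h2⟩)
            obtain ⟨m, hm1, hm2, hm3, hm4⟩ := step (by omega) ht ht' hB
            rcases hm4 with ⟨d1, d2, d3⟩ | ⟨d1, d2, d3⟩
            · rw [hn] at d2
              have := R'.inj _ _ (by omega) (by omega) d2
              subst this
              exact ⟨hm3, d1, d3⟩
            · rw [hn] at d2
              have := R'.inj _ _ (by omega) (by omega) d2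
              omega) (by omega)).2 (by omega)).2.2
          rw [← add_assoc, ← add_assoc]
          exact this
        exact ⟨hn, aux hk hn⟩
    exact ⟨hl, fun k hk => (main k hk).1,
      fun k hk => ⟨((main k hk.le).2 hk).1, ((main k hk.le).2 hk).2.1⟩⟩
  · intro s t s' t' hst ht hst' ht' h1 h2
    have hA := key he hM h h' hst ht hst' ht' (Or.inr ⟨h1, h2⟩)
    have hl : t - s = s' - t' := by
      have := congrArg Finset.card hA
      rwa [card_arcs R ht, card_arcs R' ht'] at this
    have aux : ∀ k, R.nd (s + k) = R'.nd (s' - k) → k < t - s →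
          R.ar (s + k) = R'.ar (s' - (k + 1)) ∧ R.dir (s + k) = !R'.dir (s' - (k + 1)) ∧
          R.nd (s + k + 1) = R'.nd (s' - (k + 1)) := by
      intro k hn hk
      have hB := key he hM h h' (s := s + k) (t := t) (p := t') (q := s' - k) (by omega) ht
        (by omega) (by omega) (Or.inr ⟨hn, h2⟩)
      obtain ⟨m, hm1, hm2, hm3, hm4⟩ := step (by omega) ht (by omega) hB
      rcases hm4 with ⟨d1, d2, d3⟩ | ⟨d1, d2, d3⟩
      · rw [hn] at d2
        have := R'.inj _ _ (by omega) (by omega) d2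
        omega
      · rw [hn] at d2
        have := R'.inj _ _ (by omega) (by omega) d2
        have e1 : m = s' - (k + 1) := by omega
        subst e1
        exact ⟨hm3, d1, d3⟩
    have main : ∀ k, k ≤ t - s → R.nd (s + k) = R'.nd (s' - k) := by
      intro k
      induction k with
      | zero =>
        intro _
        simpa using h1
      | succ k ih =>
        intro hk
        exact (aux k (ih (by omega)) (by omega)).2.2
    exact ⟨hl, main, fun k hk => ⟨(aux k (main k hk.le) hk).1, (aux k (main k hk.le) hk).2.1⟩⟩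

private theorem isGeo_of_pc {c : I → ℕ} {M : ℕ} {e : I → ℕ} [Nonempty I]
    (he : Function.Injective e) (hM : ∀ i, e i < M) {R : Rt J I src tgt}
    (h : IsGeo (pc c M e) R) : IsGeo c R := by
  intro l hl
  obtain ⟨R'', ⟨h0, h1⟩, _, h3⟩ := exists_rt c hl
  refine le_trans ?_ h3
  obtain ⟨l', hl', hc', _⟩ := rt_wk R'' (pc c M e) (Nat.zero_le R''.len) le_rfl
  rw [h0, h1] at hl'
  have h4 := h l' hl'
  rw [hc', sum_arcs R'' _ le_rfl, Rt.cost, Finset.range_eq_Ico, sum_arcs R _ le_rfl] at h4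
  rw [Rt.cost, Rt.cost, Finset.range_eq_Ico, Finset.range_eq_Ico, sum_arcs R _ le_rfl,
    sum_arcs R'' _ le_rfl]
  have h5 := pow_sum_lt he hM (arcs R'' 0 R''.len)
  have h6 : ∀ C : Finset I, ∑ i ∈ C, pc c M e i = 2 ^ M * ∑ i ∈ C, c i + ∑ i ∈ C, 2 ^ e i := by
    intro C
    simp only [pc]
    rw [Finset.sum_add_distrib, Finset.mul_sum]
  rw [h6, h6] at h4
  have h7 : 2 ^ M * ∑ i ∈ arcs R 0 R.len, c i < 2 ^ M * (∑ i ∈ arcs R'' 0 R''.len, c i + 1) := by
    rw [mul_add, mul_one]
    omega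
  exact Nat.lt_succ_iff.1 (lt_of_mul_lt_mul_left h7 (Nat.zero_le _))

end

theorem exists_geodesics {J I : Type} [Finite I] [Nonempty I] {src tgt : I → J} (c : I → ℕ) :
    ∃ ρ : J → J → Rt J I src tgt,
      (∀ j j', (∃ l, Wk src tgt j j' l) → (ρ j j').From j j' ∧ IsGeo c (ρ j j')) ∧
      ∀ j₁ j₂ j₃ j₄, (∃ l, Wk src tgt j₁ j₂ l) → (∃ l, Wk src tgt j₃ j₄ l) →
        Conn (ρ j₁ j₂) (ρ j₃ j₄) := by
  classical
  let M := Nat.card I
  let e : I → ℕ := fun i => (Finite.equivFin I i : ℕ)
  have he : Function.Injective e := fun i j h => (Finite.equivFin I).injective (Fin.ext h)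
  have hM : ∀ i, e i < M := fun i => (Finite.equivFin I i).2
  have hex : ∀ j j' : J, ∃ R : Rt J I src tgt, (∃ l, Wk src tgt j j' l) →
      R.From j j' ∧ IsGeo (pc c M e) R := by
    intro j j'
    by_cases hw : ∃ l, Wk src tgt j j' l
    · obtain ⟨l, hl, hc⟩ := nD_attain (pc c M e) hw
      obtain ⟨R, hR, _, hR2⟩ := exists_rt (pc c M e) hl
      refine ⟨R, fun _ => ⟨hR, ?_⟩⟩
      intro l' hl'
      rw [hR.1, hR.2] at hl'
      exact (hR2.trans hc.le).trans (nD_le _ hl')
    · refine ⟨⟨0, fun _ => j, fun _ => Classical.arbitrary I, fun _ => false, ?_, ?_, ?_⟩,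
        fun h => absurd h hw⟩
      · intro t ht
        exact absurd ht (Nat.not_lt_zero t)
      · intro t ht
        exact absurd ht (Nat.not_lt_zero t)
      · intro s t hs ht _
        omega
  choose ρ hρ using hex
  refine ⟨ρ, fun j j' hw => ⟨(hρ j j' hw).1, isGeo_of_pc he hM (hρ j j' hw).2⟩, ?_⟩
  intro j₁ j₂ j₃ j₄ h h'
  exact conn_of_geo he hM (hρ j₁ j₂ h).2 (hρ j₃ j₄ h').2

end Pool.Agent.Helper83.LN
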