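import Pool.Agent.Helper83.LN.Swap

/-!
# LN-8: an assignment of lanes with at most one crossing for every pair of curves in `Q`

Proof. Lanes exist: `lam τ i = e τ` with `e : T → ℕ` injective, `e τ < n`. For lanes `lam` and a node `j` let
`fj lam j τ = some (ν (ent τ (lam τ) s), ν (ext τ (lam τ) s))` if `τ ∈ Q` and `(R τ).nd s = j`, `s ≤ len` (`s` is
unique), `none` otherwise, and `Φ lam = ∑ j, cr (fj lam j)`. Take `lam` with `Lanes R n lam` and `Φ lam` minimal.
Suppose `q ≠ q'` in `Q` interleave in the blocks of `u ≠ v`; `u = (R q).nd s = (R q').nd s'`,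
`v = (R q).nd t = (R q').nd t'`, `s < t` (else exchange the names of `u`, `v`). By `Conn` the routes agree between
`u` and `v`, with the same (`s' < t'`) or the opposite (`t' < s'`) direction; let `A` be the set of the arcs
`(R q).ar k`, `s ≤ k < t`. Exchange `lam q i` and `lam q' i` for `i ∈ A`. The result is again an assignment of lanes.
At a node inside the common part the pairs of `q` and `q'` are exchanged (possibly reversed): `cr_perm` with
`σ = Equiv.swap q q'`. At `u`: `q` had the pair `{a, x}` and `q'` the pair `{a', x'}`, where `x`, `x'` are the ports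
on the common arc; now they have `{a, x'}` and `{a', x}`: `cr_exchange`; the same at `v`. At all other nodes nothing
changes (the arcs of a simple path are different, so the other arcs of `R q` and of `R q'` are not in `A`). So `Φ`
decreases, a contradiction.
-/

namespace Pool.Agent.Helper83.LN

open Set

section

variable {J I T : Type} {src tgt : I → J}

private theorem ar_inj (R : Rt J I src tgt) {k m : ℕ} (hk : k < R.len) (hm : m < R.len)
    (h : R.ar k = R.ar m) : k = m := by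
  have a1 := R.fst k hk
  have a2 := R.snd k hk
  have b1 := R.fst m hm
  have b2 := R.snd m hm
  rw [h] at a1 a2
  by_cases hd : R.dir k = R.dir m
  · rw [hd] at a1
    exact R.inj k m hk.le hm.le (a1.symm.trans b1)
  · have hd' : R.dir k = !R.dir m := by
      cases h1 : R.dir k <;> cases h2 : R.dir m <;> simp_all
    rw [hd'] at a1 a2
    rw [Bool.not_not] at a2
    have e1 := R.inj k (m + 1) hk.le hm (a1.symm.trans b2)
    have e2 := R.inj (k + 1) m hk hm.le (a2.symm.trans b1)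
    omega

/-- outside of the arcs of `A` the entry does not depend on the lanes in `A` -/
private theorem ent_off (R : Rt J I src tgt) (τ : T) {A : Set I} {lo hi : ℕ}
    (hA : ∀ k < R.len, R.ar k ∈ A → lo ≤ k ∧ k < hi) {l l' : I → ℕ} (hl : ∀ i, i ∉ A → l i = l' i)
    {m : ℕ} (hm : m ≤ R.len) (h : ¬ (lo < m ∧ m ≤ hi)) : R.ent τ l m = R.ent τ l' m := by
  cases m with
  | zero => rfl
  | succ k =>
    have h1 : R.ar k ∉ A := fun hk => by
      have := hA k hm hk
      omega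
    simp only [Rt.ent, hl _ h1]

private theorem ext_off (R : Rt J I src tgt) (τ : T) {A : Set I} {lo hi : ℕ}
    (hA : ∀ k < R.len, R.ar k ∈ A → lo ≤ k ∧ k < hi) {l l' : I → ℕ} (hl : ∀ i, i ∉ A → l i = l' i)
    {m : ℕ} (hm : m ≤ R.len) (h : ¬ (lo ≤ m ∧ m < hi)) : R.ext τ l m = R.ext τ l' m := by
  unfold Rt.ext
  split_ifs with h0
  · rfl
  · have h1 : R.ar m ∉ A := fun hk => h (hA m (by omega) hk)
    rw [hl _ h1]

private theorem ent_on (R : Rt J I src tgt) (τ : T) {A : Set I} {s t : ℕ}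
    (hA : ∀ k, s ≤ k → k < t → R.ar k ∈ A) {l l' : I → ℕ} (hl : ∀ i ∈ A, l i = l' i)
    {m : ℕ} (h1 : s < m) (h2 : m ≤ t) : R.ent τ l m = R.ent τ l' m := by
  cases m with
  | zero => omega
  | succ k => simp only [Rt.ent, hl _ (hA k (by omega) (by omega))]

private theorem ext_on (R : Rt J I src tgt) (τ : T) {A : Set I} {s t : ℕ}
    (hA : ∀ k, s ≤ k → k < t → R.ar k ∈ A) {l l' : I → ℕ} (hl : ∀ i ∈ A, l i = l' i)
    {m : ℕ} (h1 : s ≤ m) (h2 : m < t) : R.ext τ l m = R.ext τ l' m := by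
  unfold Rt.ext
  rw [hl _ (hA m h1 h2)]

/-- entry and exit, possibly exchanged -/
private def pE (b : Bool) (R : Rt J I src tgt) (τ : T) (l : I → ℕ) (m : ℕ) : Port T I :=
  bif b then R.ext τ l m else R.ent τ l m

private def pX (b : Bool) (R : Rt J I src tgt) (τ : T) (l : I → ℕ) (m : ℕ) : Port T I :=
  bif b then R.ent τ l m else R.ext τ l m

/-- the route `R'` follows `R` between the times `s` and `t` -/
private structure Mt (T : Type) (R R' : Rt J I src tgt) (s t : ℕ) (A : Set I) (b : Bool) (μ : ℕ → ℕ)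
    (lo hi : ℕ) : Prop where
  hi_le : hi ≤ R'.len
  lo_le : lo ≤ hi
  μle : ∀ m, s ≤ m → m ≤ t → μ m ≤ R'.len
  nd : ∀ m, s ≤ m → m ≤ t → R'.nd (μ m) = R.nd m
  ent : ∀ (τ τ' : T) (l : I → ℕ) (m : ℕ), s < m → m ≤ t → R.ent τ l m = pE b R' τ' l (μ m)
  ext : ∀ (τ τ' : T) (l : I → ℕ) (m : ℕ), s ≤ m → m < t → R.ext τ l m = pX b R' τ' l (μ m)
  arc : ∀ k < R'.len, R'.ar k ∈ A → lo ≤ k ∧ k < hi
  mem : ∀ i ∈ A, ∃ k < R'.len, R'.ar k = i
  mid : ∀ m', lo ≤ m' → m' ≤ hi → ∃ m, s ≤ m ∧ m ≤ t ∧ R.nd m = R'.nd m'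
  start : (b = false ∧ μ s = lo ∧ μ t = hi) ∨ (b = true ∧ μ s = hi ∧ μ t = lo)

private theorem mt_same {R R' : Rt J I src tgt} (hc : Conn R R') {s t s' t' : ℕ} (hst : s < t)
    (ht : t ≤ R.len) (hst' : s' ≤ t') (ht' : t' ≤ R'.len) (hu : R.nd s = R'.nd s')
    (hv : R.nd t = R'.nd t') :
    Mt T R R' s t {i | ∃ k, s ≤ k ∧ k < t ∧ R.ar k = i} false (fun m => s' + (m - s)) s' t' := by
  obtain ⟨h0, h1, h2⟩ := hc.same s t s' t' hst.le ht hst' ht' hu hv
  refine ⟨ht', hst', ?_, ?_, ?_, ?_, ?_, ?_, ?_, ?_⟩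
  · intro m _ hm
    show s' + (m - s) ≤ _
    omega
  · intro m hm hm'
    have := h1 (m - s) (by omega)
    rw [show s + (m - s) = m by omega] at this
    exact this.symm
  · intro τ τ' l m hm hm'
    obtain ⟨k, rfl⟩ : ∃ k, m = k + 1 := ⟨m - 1, by omega⟩
    have h3 := h2 (k - s) (by omega)
    rw [show s + (k - s) = k by omega] at h3
    show R.ent τ l (k + 1) = R'.ent τ' l (s' + (k + 1 - s))
    rw [show s' + (k + 1 - s) = (s' + (k - s)) + 1 by omega]
    simp only [Rt.ent]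
    rw [h3.1, h3.2]
  · intro τ τ' l m hm hm'
    have h3 := h2 (m - s) (by omega)
    rw [show s + (m - s) = m by omega] at h3
    show R.ext τ l m = R'.ext τ' l (s' + (m - s))
    unfold Rt.ext
    rw [if_neg (by omega), if_neg (by omega), h3.1, h3.2]
  · rintro k hk ⟨k0, hk0, hk0', he⟩
    have h3 := h2 (k0 - s) (by omega)
    rw [show s + (k0 - s) = k0 by omega] at h3
    have h4 := ar_inj R' hk (by omega) (he.symm.trans h3.1)
    omega
  · rintro i ⟨k0, hk0, hk0', rfl⟩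
    have h3 := h2 (k0 - s) (by omega)
    rw [show s + (k0 - s) = k0 by omega] at h3
    exact ⟨s' + (k0 - s), by omega, h3.1.symm⟩
  · intro m' hm hm'
    refine ⟨s + (m' - s'), by omega, by omega, ?_⟩
    rw [h1 (m' - s') (by omega), show s' + (m' - s') = m' by omega]
  · left
    refine ⟨rfl, ?_, ?_⟩
    · show s' + (s - s) = s'
      omega
    · show s' + (t - s) = t'
      omega

private theorem mt_opp {R R' : Rt J I src tgt} (hc : Conn R R') {s t s' t' : ℕ} (hst : s < t)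
    (ht : t ≤ R.len) (hst' : t' ≤ s') (hs' : s' ≤ R'.len) (hu : R.nd s = R'.nd s')
    (hv : R.nd t = R'.nd t') :
    Mt T R R' s t {i | ∃ k, s ≤ k ∧ k < t ∧ R.ar k = i} true (fun m => s' - (m - s)) t' s' := by
  obtain ⟨h0, h1, h2⟩ := hc.opp s t s' t' hst.le ht hst' hs' hu hv
  refine ⟨hs', hst', ?_, ?_, ?_, ?_, ?_, ?_, ?_, ?_⟩
  · intro m _ hm
    show s' - (m - s) ≤ _
    omega
  · intro m hm hm'
    have := h1 (m - s) (by omega)
    rw [show s + (m - s) = m by omega] at this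
    exact this.symm
  · intro τ τ' l m hm hm'
    obtain ⟨k, rfl⟩ : ∃ k, m = k + 1 := ⟨m - 1, by omega⟩
    have h3 := h2 (k - s) (by omega)
    rw [show s + (k - s) = k by omega] at h3
    show R.ent τ l (k + 1) = R'.ext τ' l (s' - (k + 1 - s))
    rw [show s' - (k + 1 - s) = s' - (k - s + 1) by omega]
    unfold Rt.ext
    rw [if_neg (by omega)]
    simp only [Rt.ent]
    rw [h3.1, h3.2, Bool.not_not]
  · intro τ τ' l m hm hm'
    have h3 := h2 (m - s) (by omega)
    rw [show s + (m - s) = m by omega] at h3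
    show R.ext τ l m = R'.ent τ' l (s' - (m - s))
    rw [show s' - (m - s) = (s' - (m - s + 1)) + 1 by omega]
    unfold Rt.ext
    rw [if_neg (by omega)]
    simp only [Rt.ent]
    rw [h3.1, h3.2]
  · rintro k hk ⟨k0, hk0, hk0', he⟩
    have h3 := h2 (k0 - s) (by omega)
    rw [show s + (k0 - s) = k0 by omega] at h3
    have h4 := ar_inj R' hk (by omega) (he.symm.trans h3.1)
    omega
  · rintro i ⟨k0, hk0, hk0', rfl⟩
    have h3 := h2 (k0 - s) (by omega)
    rw [show s + (k0 - s) = k0 by omega] at h3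
    exact ⟨s' - (k0 - s + 1), by omega, h3.1.symm⟩
  · intro m' hm hm'
    refine ⟨s + (s' - m'), by omega, by omega, ?_⟩
    rw [h1 (s' - m') (by omega), show s' - (s' - m') = m' by omega]
  · right
    refine ⟨rfl, ?_, ?_⟩
    · show s' - (s - s) = s'
      omega
    · show s' - (t - s) = t'
      omega

open Classical in
/-- the pair of ports of the curve `τ` in the block of `j` -/
private noncomputable def fj (R : T → Rt J I src tgt) (ν : Port T I → ℕ) (Q : Set T)
    (lam : T → I → ℕ) (j : J) (τ : T) : Option (ℕ × ℕ) :=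
  if h : τ ∈ Q ∧ ∃ s ≤ (R τ).len, (R τ).nd s = j then
    some (ν ((R τ).ent τ (lam τ) h.2.choose), ν ((R τ).ext τ (lam τ) h.2.choose))
  else none

private theorem fj_some (R : T → Rt J I src tgt) (ν : Port T I → ℕ) {Q : Set T}
    (lam : T → I → ℕ) {j : J} {τ : T} (hτ : τ ∈ Q) {s : ℕ} (hs : s ≤ (R τ).len)
    (hj : (R τ).nd s = j) :
    fj R ν Q lam j τ = some (ν ((R τ).ent τ (lam τ) s), ν ((R τ).ext τ (lam τ) s)) := by
  have h : τ ∈ Q ∧ ∃ s ≤ (R τ).len, (R τ).nd s = j := ⟨hτ, s, hs, hj⟩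
  have e : h.2.choose = s :=
    (R τ).inj _ _ h.2.choose_spec.1 hs (h.2.choose_spec.2.trans hj.symm)
  rw [fj, dif_pos h, e]

private theorem fj_none (R : T → Rt J I src tgt) (ν : Port T I → ℕ) {Q : Set T}
    (lam : T → I → ℕ) {j : J} {τ : T} (h : ¬ (τ ∈ Q ∧ ∃ s ≤ (R τ).len, (R τ).nd s = j)) :
    fj R ν Q lam j τ = none := by
  rw [fj, dif_neg h]

private theorem fj_congr (R : T → Rt J I src tgt) (ν : Port T I → ℕ) {Q : Set T}
    (lam lam' : T → I → ℕ) {j : J} {τ : T} (h : lam τ = lam' τ) :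
    fj R ν Q lam j τ = fj R ν Q lam' j τ := by
  unfold fj
  rw [h]

private theorem fj_is (R : T → Rt J I src tgt) (ν : Port T I → ℕ) {Q : Set T}
    (lam : T → I → ℕ) {j : J} {τ : T} (hτ : τ ∈ Q) {s : ℕ} (hs : s ≤ (R τ).len)
    (hj : (R τ).nd s = j) (b : Bool) :
    Is (fj R ν Q lam j) τ (ν (pE b (R τ) τ (lam τ) s)) (ν (pX b (R τ) τ (lam τ) s)) := by
  unfold Is
  rw [fj_some R ν lam hτ hs hj]
  cases b
  · left
    rfl
  · right
    rfl

private theorem is_perm {f f' : T → Option (ℕ × ℕ)} {q q' : T} {a x : ℕ} (h : Is f' q a x)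
    (h' : Is f q' a x) : f' q = f q' ∨ f' q = (f q').map Prod.swap := by
  rcases h with h | h <;> rcases h' with h' | h' <;> rw [h, h']
  · left
    rfl
  · right
    rfl
  · right
    rfl
  · left
    rfl

private theorem is_symm {f : T → Option (ℕ × ℕ)} {q : T} {a x : ℕ} (h : Is f q a x) :
    Is f q x a := h.symm

open Classical in
private theorem step [Fintype J] [Finite T] (R : T → Rt J I src tgt) (n : ℕ)
    (ν : Port T I → ℕ) (Q : Set T) (lam : T → I → ℕ) (hlam : Lanes R n lam) (q q' : T)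
    (hq : q ∈ Q) (hq' : q' ∈ Q) (hne : q ≠ q') (A : Set I) (s t : ℕ) (hst : s < t)
    (ht : t ≤ (R q).len) (hA : A = {i | ∃ k, s ≤ k ∧ k < t ∧ (R q).ar k = i})
    (b : Bool) (μ : ℕ → ℕ) (lo hi : ℕ) (M : Mt T (R q) (R q') s t A b μ lo hi)
    (hu : Il (ν ((R q).ent q (lam q) s)) (ν ((R q).ext q (lam q) s))
      (ν ((R q').ent q' (lam q') (μ s))) (ν ((R q').ext q' (lam q') (μ s))))
    (hv : Il (ν ((R q).ent q (lam q) t)) (ν ((R q).ext q (lam q) t))
      (ν ((R q').ent q' (lam q') (μ t))) (ν ((R q').ext q' (lam q') (μ t)))) :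
    ∃ lam', Lanes R n lam' ∧ ∑ j, cr (fj R ν Q lam' j) < ∑ j, cr (fj R ν Q lam j) := by
  have A1 : ∀ k, s ≤ k → k < t → (R q).ar k ∈ A := fun k h1 h2 => by
    rw [hA]
    exact ⟨k, h1, h2, rfl⟩
  have A2 : ∀ k < (R q).len, (R q).ar k ∈ A → s ≤ k ∧ k < t := by
    intro k hk h
    rw [hA] at h
    obtain ⟨k0, h1, h2, h3⟩ := h
    have := ar_inj (R q) (by omega) hk h3
    omega
  have A3 : ∀ i ∈ A, ∃ k < (R q).len, (R q).ar k = i := by
    intro i h
    rw [hA] at h
    obtain ⟨k0, h1, h2, h3⟩ := h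
    exact ⟨k0, by omega, h3⟩
  let σ : Equiv.Perm T := Equiv.swap q q'
  have σq : σ q = q' := Equiv.swap_apply_left _ _
  have σq' : σ q' = q := Equiv.swap_apply_right _ _
  have σo : ∀ τ, τ ≠ q → τ ≠ q' → σ τ = τ := fun τ h1 h2 => Equiv.swap_apply_of_ne_of_ne h1 h2
  let lam' : T → I → ℕ := fun τ i => if i ∈ A then lam (σ τ) i else lam τ i
  have L0 : ∀ τ i, i ∉ A → lam' τ i = lam τ i := fun τ i h => if_neg h
  have L1 : ∀ τ i, i ∈ A → lam' τ i = lam (σ τ) i := fun τ i h => if_pos h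
  have L2 : ∀ τ, τ ≠ q → τ ≠ q' → lam' τ = lam τ := by
    intro τ h1 h2
    funext i
    show (if i ∈ A then lam (σ τ) i else lam τ i) = lam τ i
    rw [σo τ h1 h2, ite_self]
  have Lq : ∀ i ∈ A, lam' q i = lam q' i := fun i h => by rw [L1 q i h, σq]
  have Lq' : ∀ i ∈ A, lam' q' i = lam q i := fun i h => by rw [L1 q' i h, σq']
  -- a route through an arc of `A`
  have Mm : ∀ i ∈ A, ∀ τ, (∃ k < (R τ).len, (R τ).ar k = i) → ∃ k < (R (σ τ)).len,
      (R (σ τ)).ar k = i := by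
    intro i hi τ h
    by_cases h1 : τ = q
    · subst h1
      rw [σq]
      exact M.mem i hi
    · by_cases h2 : τ = q'
      · subst h2
        rw [σq']
        exact A3 i hi
      · rw [σo τ h1 h2]
        exact h
  have hL : Lanes R n lam' := by
    refine ⟨?_, ?_⟩
    · intro τ k hk
      by_cases h : (R τ).ar k ∈ A
      · rw [L1 _ _ h]
        obtain ⟨k', hk', he⟩ := Mm _ h τ ⟨k, hk, rfl⟩
        rw [← he]
        exact hlam.lt _ _ hk'
      · rw [L0 _ _ h]
        exact hlam.lt _ _ hk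
    · intro τ τ' hττ k hk m hm he
      by_cases h : (R τ).ar k ∈ A
      · have h' : (R τ').ar m ∈ A := he ▸ h
        rw [L1 _ _ h, L1 _ _ h']
        obtain ⟨k1, hk1, he1⟩ := Mm _ h τ ⟨k, hk, rfl⟩
        obtain ⟨k2, hk2, he2⟩ := Mm _ h' τ' ⟨m, hm, rfl⟩
        rw [← he1, ← he2]
        exact hlam.ne _ _ (fun h => hττ (σ.injective h)) k1 hk1 k2 hk2
          (he1.trans (he.trans he2.symm))
      · have h' : (R τ').ar m ∉ A := he ▸ h
        rw [L0 _ _ h, L0 _ _ h']
        exact hlam.ne _ _ hττ k hk m hm he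
  -- the ports
  have hrest : ∀ j τ, τ ≠ q → τ ≠ q' → fj R ν Q lam' j τ = fj R ν Q lam j τ :=
    fun j τ h1 h2 => fj_congr R ν lam' lam (L2 τ h1 h2)
  -- entries and exits of `q`
  have E1 : ∀ m, s < m → m ≤ t →
      (R q).ent q (lam' q) m = pE b (R q') q' (lam q') (μ m) := fun m h1 h2 => by
    rw [ent_on (R q) q A1 Lq h1 h2, M.ent q q' (lam q') m h1 h2]
  have X1 : ∀ m, s ≤ m → m < t →
      (R q).ext q (lam' q) m = pX b (R q') q' (lam q') (μ m) := fun m h1 h2 => by
    rw [ext_on (R q) q A1 Lq h1 h2, M.ext q q' (lam q') m h1 h2]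
  have E2 : ∀ m, s < m → m ≤ t →
      pE b (R q') q' (lam' q') (μ m) = (R q).ent q (lam q) m := fun m h1 h2 => by
    rw [← M.ent q q' (lam' q') m h1 h2, ent_on (R q) q A1 Lq' h1 h2]
  have X2 : ∀ m, s ≤ m → m < t →
      pX b (R q') q' (lam' q') (μ m) = (R q).ext q (lam q) m := fun m h1 h2 => by
    rw [← M.ext q q' (lam' q') m h1 h2, ext_on (R q) q A1 Lq' h1 h2]
  have E3 : (R q).ent q (lam' q) s = (R q).ent q (lam q) s :=
    ent_off (R q) q A2 (L0 q) (by omega) (by omega)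
  have X3 : (R q).ext q (lam' q) t = (R q).ext q (lam q) t :=
    ext_off (R q) q A2 (L0 q) (by omega) (by omega)
  have E4 : pE b (R q') q' (lam' q') (μ s) = pE b (R q') q' (lam q') (μ s) := by
    rcases M.start with ⟨hb, h1, h2⟩ | ⟨hb, h1, h2⟩
    · subst hb
      rw [h1]
      exact ent_off (R q') q' M.arc (L0 q') (M.lo_le.trans M.hi_le) (by omega)
    · subst hb
      rw [h1]
      exact ext_off (R q') q' M.arc (L0 q') M.hi_le (by omega)
  have X4 : pX b (R q') q' (lam' q') (μ t) = pX b (R q') q' (lam q') (μ t) := by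
    rcases M.start with ⟨hb, h1, h2⟩ | ⟨hb, h1, h2⟩
    · subst hb
      rw [h2]
      exact ext_off (R q') q' M.arc (L0 q') M.hi_le (by omega)
    · subst hb
      rw [h2]
      exact ent_off (R q') q' M.arc (L0 q') (M.lo_le.trans M.hi_le) (by omega)
  -- the pairs
  have P1 : ∀ m, s ≤ m → m ≤ t → Is (fj R ν Q lam ((R q).nd m)) q
      (ν ((R q).ent q (lam q) m)) (ν ((R q).ext q (lam q) m)) := fun m _ h2 =>
    fj_is R ν lam hq (by omega) rfl false
  have P1' : ∀ m, s ≤ m → m ≤ t → Is (fj R ν Q lam' ((R q).nd m)) q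
      (ν ((R q).ent q (lam' q) m)) (ν ((R q).ext q (lam' q) m)) := fun m _ h2 =>
    fj_is R ν lam' hq (by omega) rfl false
  have P2 : ∀ m, s ≤ m → m ≤ t → Is (fj R ν Q lam ((R q).nd m)) q'
      (ν (pE b (R q') q' (lam q') (μ m))) (ν (pX b (R q') q' (lam q') (μ m))) := fun m h1 h2 =>
    fj_is R ν lam hq' (M.μle m h1 h2) (M.nd m h1 h2) b
  have P2' : ∀ m, s ≤ m → m ≤ t → Is (fj R ν Q lam' ((R q).nd m)) q'
      (ν (pE b (R q') q' (lam' q') (μ m))) (ν (pX b (R q') q' (lam' q') (μ m))) := fun m h1 h2 =>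
    fj_is R ν lam' hq' (M.μle m h1 h2) (M.nd m h1 h2) b
  have hu' : Il (ν ((R q).ent q (lam q) s)) (ν ((R q).ext q (lam q) s))
      (ν (pE b (R q') q' (lam q') (μ s))) (ν (pX b (R q') q' (lam q') (μ s))) := by
    cases b
    · exact hu
    · exact (il_right _ _ _ _).1 hu
  have hv' : Il (ν ((R q).ext q (lam q) t)) (ν ((R q).ent q (lam q) t))
      (ν (pX b (R q') q' (lam q') (μ t))) (ν (pE b (R q') q' (lam q') (μ t))) := by
    rw [il_left]
    cases b
    · exact (il_right _ _ _ _).1 hv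
    · exact hv
  have hs : cr (fj R ν Q lam' ((R q).nd s)) < cr (fj R ν Q lam ((R q).nd s)) := by
    refine cr_exchange _ _ q q' hne _ _ _ _ (P1 s le_rfl hst.le) (P2 s le_rfl hst.le) hu' ?_ ?_
      (fun τ h1 h2 => hrest _ τ h1 h2)
    · have := P1' s le_rfl hst.le
      rwa [E3, X1 s le_rfl hst] at this
    · have := P2' s le_rfl hst.le
      rwa [E4, X2 s le_rfl hst] at this
  have htt : cr (fj R ν Q lam' ((R q).nd t)) < cr (fj R ν Q lam ((R q).nd t)) := by
    refine cr_exchange _ _ q q' hne _ _ _ _ (is_symm (P1 t hst.le le_rfl))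
      (is_symm (P2 t hst.le le_rfl)) hv' ?_ ?_ (fun τ h1 h2 => hrest _ τ h1 h2)
    · have := P1' t hst.le le_rfl
      rw [X3, E1 t hst le_rfl] at this
      exact is_symm this
    · have := P2' t hst.le le_rfl
      rw [X4, E2 t hst le_rfl] at this
      exact is_symm this
  have hmid : ∀ m, s < m → m < t →
      cr (fj R ν Q lam' ((R q).nd m)) = cr (fj R ν Q lam ((R q).nd m)) := by
    intro m h1 h2
    refine cr_perm _ _ σ fun τ => ?_
    by_cases hτ : τ = q
    · subst hτ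
      rw [σq]
      have := P1' m h1.le h2.le
      rw [E1 m h1 h2.le, X1 m h1.le h2] at this
      exact is_perm this (P2 m h1.le h2.le)
    · by_cases hτ' : τ = q'
      · subst hτ'
        rw [σq']
        have := P2' m h1.le h2.le
        rw [E2 m h1 h2.le, X2 m h1.le h2] at this
        exact is_perm this (P1 m h1.le h2.le)
      · rw [σo τ hτ hτ']
        left
        exact hrest _ τ hτ hτ'
  have hout : ∀ j, (¬ ∃ m, s ≤ m ∧ m ≤ t ∧ (R q).nd m = j) →
      fj R ν Q lam' j = fj R ν Q lam j := by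
    intro j hj
    funext τ
    by_cases hτ : τ = q
    · subst hτ
      by_cases h : τ ∈ Q ∧ ∃ s ≤ (R τ).len, (R τ).nd s = j
      · obtain ⟨m, hm, hmj⟩ := h.2
        have h1 : ¬ (s ≤ m ∧ m ≤ t) := fun h => hj ⟨m, h.1, h.2, hmj⟩
        rw [fj_some R ν lam' h.1 hm hmj, fj_some R ν lam h.1 hm hmj,
          ent_off (R τ) τ A2 (L0 τ) hm (by omega), ext_off (R τ) τ A2 (L0 τ) hm (by omega)]
      · rw [fj_none R ν lam' h, fj_none R ν lam h]
    · by_cases hτ' : τ = q'
      · subst hτ'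
        by_cases h : τ ∈ Q ∧ ∃ s ≤ (R τ).len, (R τ).nd s = j
        · obtain ⟨m, hm, hmj⟩ := h.2
          have h1 : ¬ (lo ≤ m ∧ m ≤ hi) := fun h => by
            obtain ⟨m0, h2, h3, h4⟩ := M.mid m h.1 h.2
            exact hj ⟨m0, h2, h3, h4.trans hmj⟩
          rw [fj_some R ν lam' h.1 hm hmj, fj_some R ν lam h.1 hm hmj,
            ent_off (R τ) τ M.arc (L0 τ) hm (by omega), ext_off (R τ) τ M.arc (L0 τ) hm (by omega)]
        · rw [fj_none R ν lam' h, fj_none R ν lam h]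
      · exact hrest j τ hτ hτ'
  refine ⟨lam', hL, Finset.sum_lt_sum (fun j _ => ?_) ⟨(R q).nd s, Finset.mem_univ _, hs⟩⟩
  by_cases hj : ∃ m, s ≤ m ∧ m ≤ t ∧ (R q).nd m = j
  · obtain ⟨m, h1, h2, rfl⟩ := hj
    by_cases h3 : m = s
    · rw [h3]
      exact hs.le
    · by_cases h4 : m = t
      · rw [h4]
        exact htt.le
      · exact (hmid m (by omega) (by omega)).le
  · rw [hout j hj]

/-- the step, for two common nodes `u ≠ v` -/
private theorem step2 [Fintype J] [Finite T] (R : T → Rt J I src tgt) (n : ℕ)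
    (ν : Port T I → ℕ) (Q : Set T) (lam : T → I → ℕ) (hlam : Lanes R n lam) (q q' : T)
    (hq : q ∈ Q) (hq' : q' ∈ Q) (hne : q ≠ q') (hc : Conn (R q) (R q')) (s t s' t' : ℕ)
    (hst : s < t) (ht : t ≤ (R q).len) (hs' : s' ≤ (R q').len) (ht' : t' ≤ (R q').len)
    (h1 : (R q).nd s = (R q').nd s') (h2 : (R q).nd t = (R q').nd t')
    (hu : Il (ν ((R q).ent q (lam q) s)) (ν ((R q).ext q (lam q) s))
      (ν ((R q').ent q' (lam q') s')) (ν ((R q').ext q' (lam q') s')))
    (hv : Il (ν ((R q).ent q (lam q) t)) (ν ((R q).ext q (lam q) t))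
      (ν ((R q').ent q' (lam q') t')) (ν ((R q').ext q' (lam q') t'))) :
    ∃ lam', Lanes R n lam' ∧ ∑ j, cr (fj R ν Q lam' j) < ∑ j, cr (fj R ν Q lam j) := by
  rcases le_total s' t' with h | h
  · have M := mt_same (T := T) hc hst ht h ht' h1 h2
    obtain ⟨h0, -, -⟩ := hc.same s t s' t' hst.le ht h ht' h1 h2
    refine step R n ν Q lam hlam q q' hq hq' hne _ s t hst ht rfl _ _ _ _ M ?_ ?_
    · show Il _ _ (ν ((R q').ent q' (lam q') (s' + (s - s)))) (ν ((R q').ext q' (lam q') (s' + (s - s))))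
      rw [show s' + (s - s) = s' by omega]
      exact hu
    · show Il _ _ (ν ((R q').ent q' (lam q') (s' + (t - s)))) (ν ((R q').ext q' (lam q') (s' + (t - s))))
      rw [show s' + (t - s) = t' by omega]
      exact hv
  · have M := mt_opp (T := T) hc hst ht h hs' h1 h2
    obtain ⟨h0, -, -⟩ := hc.opp s t s' t' hst.le ht h hs' h1 h2
    refine step R n ν Q lam hlam q q' hq hq' hne _ s t hst ht rfl _ _ _ _ M ?_ ?_
    · show Il _ _ (ν ((R q').ent q' (lam q') (s' - (s - s)))) (ν ((R q').ext q' (lam q') (s' - (s - s))))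
      rw [show s' - (s - s) = s' by omega]
      exact hu
    · show Il _ _ (ν ((R q').ent q' (lam q') (s' - (t - s)))) (ν ((R q').ext q' (lam q') (s' - (t - s))))
      rw [show s' - (t - s) = t' by omega]
      exact hv

end

theorem min_lanes {J I T : Type} [Finite J] [Finite I] [Finite T] {src tgt : I → J}
    (R : T → Rt J I src tgt) (n : ℕ) (hn : Nat.card T ≤ n) (ν : Port T I → ℕ) (Q : Set T)
    (hQ : ∀ τ ∈ Q, ∀ τ' ∈ Q, τ ≠ τ' → Conn (R τ) (R τ')) :
    ∃ lam : T → I → ℕ, Lanes R n lam ∧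
      ∀ τ ∈ Q, ∀ τ' ∈ Q, τ ≠ τ' → {j | XJ R ν lam τ τ' j}.Subsingleton := by
  have := Fintype.ofFinite J
  obtain ⟨e0⟩ : Nonempty (T ≃ Fin (Nat.card T)) := ⟨Finite.equivFin T⟩
  have h0 : ∃ lam : T → I → ℕ, Lanes R n lam := by
    refine ⟨fun τ _ => (e0 τ : ℕ), ⟨fun τ t _ => ?_, fun τ τ' hne s _ t _ _ h => hne ?_⟩⟩
    · exact lt_of_lt_of_le (e0 τ).2 hn
    · exact e0.injective (Fin.ext h)
  let S : Set ℕ := {x | ∃ lam : T → I → ℕ, Lanes R n lam ∧ ∑ j, cr (fj R ν Q lam j) = x}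
  have hS : S.Nonempty := by
    obtain ⟨lam, hl⟩ := h0
    exact ⟨_, lam, hl, rfl⟩
  obtain ⟨lam, hl, hx⟩ := Nat.sInf_mem hS
  have hmin : ∀ lam', Lanes R n lam' → ∑ j, cr (fj R ν Q lam j) ≤ ∑ j, cr (fj R ν Q lam' j) := by
    intro lam' hl'
    rw [hx]
    exact Nat.sInf_le ⟨lam', hl', rfl⟩
  refine ⟨lam, hl, ?_⟩
  intro q hq q' hq' hne u hu v hv
  by_contra huv
  obtain ⟨s, hs, s', hs', e1, e2, hI⟩ := hu
  obtain ⟨t, ht, t', ht', e3, e4, hI'⟩ := hv
  have hst : s ≠ t := fun h => huv (by rw [← e1, ← e3, h])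
  have hc := hQ q hq q' hq' hne
  rcases lt_or_gt_of_ne hst with h | h
  · obtain ⟨lam', h1, h2⟩ := step2 R n ν Q lam hl q q' hq hq' hne hc s t s' t' h ht hs' ht'
      (e1.trans e2.symm) (e3.trans e4.symm) hI hI'
    exact absurd (hmin lam' h1) (not_le.2 h2)
  · obtain ⟨lam', h1, h2⟩ := step2 R n ν Q lam hl q q' hq hq' hne hc t s t' s' h hs ht' hs'
      (e3.trans e4.symm) (e1.trans e2.symm) hI' hI
    exact absurd (hmin lam' h1) (not_le.2 h2)

end Pool.Agent.Helper83.LN
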