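import Pool.Agent.Helper83.LN.Walk

/-!
# LN-14: walks of the graph as walks of half edges

The edge `f = s(a f, b f)` of `H` has the half edges `(f, false)` from `vn (a f)` to `bn f` and `(f, true)` from `bn f`
to `vn (b f)`. From `a f` to `b f`: darts `((f, false), false)`, `((f, true), false)`; from `b f` to `a f`:
`((f, true), true)`, `((f, false), true)`.
-/

namespace Pool.Agent.Helper83.LN

open Set Pool.Agent.Helper83.OP

theorem plz_ne {V : Type} {H : SimpleGraph V} (Z : Plz H) (i : H.edgeSet × Bool) :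
    Z.src i ≠ Z.tgt i := by
  obtain ⟨f, e⟩ := i
  cases e
  · exact Z.vn_ne _ _
  · exact (Z.vn_ne _ _).symm

private theorem LN14_edge {V : Type} {H : SimpleGraph V} (Z : Plz H) {u v : V} (h : H.Adj u v) :
    ∃ l, Wk Z.src Z.tgt (Z.vn u) (Z.vn v) l ∧ l.length = 2 ∧
      ∀ d ∈ l, (d.1.1 : Sym2 V) = s(u, v) := by
  obtain ⟨f, hf⟩ : ∃ f : H.edgeSet, (f : Sym2 V) = s(u, v) := ⟨⟨s(u, v), h⟩, rfl⟩
  have h1 := Z.ends f
  rw [hf] at h1
  rcases Sym2.eq_iff.1 h1 with ⟨hu, hv⟩ | ⟨hu, hv⟩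
  · refine ⟨[((f, false), false), ((f, true), false)], ⟨?_, rfl, ?_⟩, rfl, ?_⟩
    · rw [hu]
      rfl
    · rw [hv]
      rfl
    · intro d hd
      simp only [List.mem_cons, List.not_mem_nil, or_false] at hd
      rcases hd with rfl | rfl <;> exact hf
  · refine ⟨[((f, true), true), ((f, false), true)], ⟨?_, rfl, ?_⟩, rfl, ?_⟩
    · rw [hu]
      rfl
    · rw [hv]
      rfl
    · intro d hd
      simp only [List.mem_cons, List.not_mem_nil, or_false] at hd
      rcases hd with rfl | rfl <;> exact hf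

/-- the two half edges of an edge -/
theorem wk_edge {V : Type} {H : SimpleGraph V} (Z : Plz H) {u v : V} (h : H.Adj u v) :
    ∃ l, Wk Z.src Z.tgt (Z.vn u) (Z.vn v) l ∧ ∀ d ∈ l, (d.1.1 : Sym2 V) = s(u, v) := by
  obtain ⟨l, h1, _, h2⟩ := LN14_edge Z h
  exact ⟨l, h1, h2⟩

/-- walks along the vertices `x 0, ..., x n` -/
theorem wk_seq {V : Type} {H : SimpleGraph V} (Z : Plz H) (x : ℕ → V) (n : ℕ)
    (h : ∀ t < n, H.Adj (x t) (x (t + 1))) :
    ∃ l, Wk Z.src Z.tgt (Z.vn (x 0)) (Z.vn (x n)) l ∧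
      ∀ d ∈ l, ∃ s < n, (d.1.1 : Sym2 V) = s(x s, x (s + 1)) := by
  induction n with
  | zero => exact ⟨[], rfl, fun d hd => absurd hd List.not_mem_nil⟩
  | succ n ih =>
    obtain ⟨l, h1, h2⟩ := ih (fun t ht => h t (by omega))
    obtain ⟨l', h3, h4⟩ := wk_edge Z (h n (by omega))
    refine ⟨l ++ l', wk_append h1 h3, ?_⟩
    intro d hd
    rcases List.mem_append.1 hd with hd | hd
    · obtain ⟨s, hs, he⟩ := h2 d hd
      exact ⟨s, by omega, he⟩
    · exact ⟨n, by omega, h4 d hd⟩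

/-- a walk of `H` of length `n` gives a walk of `2 n` half edges; the cost of a half edge is at most `m` -/
private theorem LN14_walk {V : Type} {H : SimpleGraph V} (Z : Plz H) {u v : V} (w : H.Walk u v) :
    ∃ l, Wk Z.src Z.tgt (Z.vn u) (Z.vn v) l ∧ l.length = 2 * w.length ∧
      ∀ d ∈ l, (d.1.1 : Sym2 V) ∈ w.edges := by
  induction w with
  | nil => exact ⟨[], rfl, rfl, fun d hd => absurd hd List.not_mem_nil⟩
  | @cons u v' v h p ih =>
    obtain ⟨l, h1, h2, h3⟩ := ih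
    obtain ⟨l', h4, h5, h6⟩ := LN14_edge Z h
    refine ⟨l' ++ l, wk_append h4 h1, ?_, ?_⟩
    · rw [List.length_append, h5, h2, SimpleGraph.Walk.length_cons]
      ring
    · intro d hd
      rw [SimpleGraph.Walk.edges_cons, List.mem_cons]
      rcases List.mem_append.1 hd with hd | hd
      · exact Or.inl (h6 d hd)
      · exact Or.inr (h3 d hd)

theorem wk_reach {V : Type} {H : SimpleGraph V} (Z : Plz H) {u v : V} (h : H.Reachable u v) :
    ∃ l, Wk Z.src Z.tgt (Z.vn u) (Z.vn v) l := by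
  obtain ⟨w⟩ := h
  obtain ⟨l, h1, _⟩ := LN14_walk Z w
  exact ⟨l, h1⟩

/-- a walk of `H` of length `n` gives a walk of `2 n` half edges; the cost of a half edge is at most `m` -/
theorem wk_walk {V : Type} {H : SimpleGraph V} (Z : Plz H) {u v : V} (w : H.Walk u v) :
    ∃ l, Wk Z.src Z.tgt (Z.vn u) (Z.vn v) l ∧ l.length = 2 * w.length ∧
      ∀ d ∈ l, (d.1.1 : Sym2 V) ∈ w.edges := LN14_walk Z w

theorem old_route {V : Type} {H : SimpleGraph V} (Z : Plz H) (x : ℕ → V) (n : ℕ) (hn : 1 ≤ n)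
    (h : ∀ t < n, H.Adj (x t) (x (t + 1))) :
    ∃ R : Rt Z.J (H.edgeSet × Bool) Z.src Z.tgt, R.From (Z.vn (x 0)) (Z.vn (x n)) ∧
      ∀ t ≤ R.len, (∃ s ≤ n, R.nd t = Z.vn (x s)) ∨
        ∃ f : H.edgeSet, (∃ s < n, (f : Sym2 V) = s(x s, x (s + 1))) ∧ R.nd t = Z.bn f := by
  obtain ⟨l, h1, h2⟩ := wk_seq Z x n h
  have : Nonempty (H.edgeSet × Bool) := ⟨(⟨s(x 0, x 1), h 0 (by omega)⟩, false)⟩
  obtain ⟨R, hR, hm, _⟩ := exists_rt (fun _ => 0) h1
  refine ⟨R, hR, ?_⟩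
  intro t ht
  rcases t with _ | t
  · exact Or.inl ⟨0, by omega, hR.1⟩
  · have ht' : t < R.len := by omega
    obtain ⟨s, hs, he⟩ := h2 _ (hm t ht')
    have h3 := R.snd t ht'
    rw [← h3]
    generalize R.ar t = i at he ⊢
    generalize R.dir t = e
    obtain ⟨f, b⟩ := i
    have h4 := Z.ends f
    have he' : (f : Sym2 V) = s(x s, x (s + 1)) := he
    rw [he'] at h4
    have hb : nend Z.src Z.tgt (f, b) (!e) = Z.bn f ∨ nend Z.src Z.tgt (f, b) (!e) = Z.vn (Z.a f) ∨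
        nend Z.src Z.tgt (f, b) (!e) = Z.vn (Z.b f) := by
      cases b <;> cases e
      · exact Or.inl rfl
      · exact Or.inr (Or.inl rfl)
      · exact Or.inr (Or.inr rfl)
      · exact Or.inl rfl
    rcases hb with hb | hb | hb
    · exact Or.inr ⟨f, ⟨s, hs, he'⟩, hb⟩
    · left
      rcases Sym2.eq_iff.1 h4 with ⟨hu, hv⟩ | ⟨hu, hv⟩
      · exact ⟨s, by omega, by rw [hb, hu]⟩
      · exact ⟨s + 1, by omega, by rw [hb, hv]⟩
    · left
      rcases Sym2.eq_iff.1 h4 with ⟨hu, hv⟩ | ⟨hu, hv⟩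
      · exact ⟨s + 1, by omega, by rw [hb, hv]⟩
      · exact ⟨s, by omega, by rw [hb, hu]⟩

end Pool.Agent.Helper83.LN
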