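import Pool.Agent.Helper83.LN.Defs

/-!
# LN-12: balanced break points

Proof. Show for all `α < β`, `ℓ ≥ 1` and finite `F ⊆ Ioo α β` with `F.ncard ≤ K * ℓ` that there is `τ` with `τ 0 = α`,
`τ ℓ = β` and the other properties, by induction on `ℓ`. `ℓ = 1`: clear. Step: `S = {x ∈ F | (F ∩ Iio x).ncard < K}`.
All elements of `S` are less than all elements of `F \ S`; `S.ncard ≤ K` (its largest element `m` has
`S ⊆ (F ∩ Iio m) ∪ {m}`); `(F \ S).ncard ≤ K * ℓ` (if `F \ S` is not empty and `y` is its least element, then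
`K ≤ (F ∩ Iio y).ncard` and `F ∩ Iio y ⊆ S`). Take `γ ∈ (α, β)` greater than all elements of `S` and less than all of
`F \ S`, `γ ∉ F`, and apply the induction hypothesis to `γ, β, F \ S`.
-/

namespace Pool.Agent.Helper83.LN

open Set

private theorem balance_sep {A B : Set ℝ} (hA : A.Finite) (hB : B.Finite) (hA0 : A.Nonempty)
    (hB0 : B.Nonempty) (h : ∀ x ∈ A, ∀ y ∈ B, x < y) :
    ∃ c : ℝ, (∀ x ∈ A, x < c) ∧ ∀ y ∈ B, c < y := by
  obtain ⟨a, ha, ha'⟩ := Set.exists_max_image A id hA hA0
  obtain ⟨b, hb, hb'⟩ := Set.exists_min_image B id hB hB0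
  have hab : a < b := h a ha b hb
  refine ⟨(a + b) / 2, ?_, ?_⟩
  · intro x hx
    have h1 : x ≤ a := ha' x hx
    linarith
  · intro y hy
    have h1 : b ≤ y := hb' y hy
    linarith

private theorem balance_aux (K : ℕ) (n : ℕ) : ∀ (α β : ℝ) (F : Set ℝ), α < β → F.Finite →
    F ⊆ Ioo α β → F.ncard ≤ K * (n + 1) →
    ∃ τ : ℕ → ℝ, τ 0 = α ∧ τ (n + 1) = β ∧ (∀ s < n + 1, τ s < τ (s + 1)) ∧
      (∀ s, 0 < s → s < n + 1 → τ s ∉ F) ∧
        ∀ s < n + 1, (F ∩ Ioo (τ s) (τ (s + 1))).ncard ≤ K := by
  induction n with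
  | zero =>
    intro α β F hαβ hF hsub hc
    refine ⟨fun s => if s = 0 then α else β, by simp, by simp, ?_, ?_, ?_⟩
    · intro s hs
      have h0 : s = 0 := by omega
      subst h0
      simpa using hαβ
    · intro s h1 h2
      omega
    · intro s hs
      have h1 : (F ∩ Ioo ((fun s : ℕ => if s = 0 then α else β) s)
          ((fun s : ℕ => if s = 0 then α else β) (s + 1))).ncard ≤ F.ncard :=
        Set.ncard_le_ncard Set.inter_subset_left hF
      have h2 : K * (0 + 1) = K := by ring
      omega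
  | succ n ih =>
    intro α β F hαβ hF hsub hc
    let S : Set ℝ := {x | x ∈ F ∧ (F ∩ Iio x).ncard < K}
    let T : Set ℝ := F \ S
    have hSF : S ⊆ F := fun x hx => hx.1
    have hTF : T ⊆ F := Set.sdiff_subset
    have hS : S.Finite := hF.subset hSF
    have hT : T.Finite := hF.subset hTF
    have hST : ∀ x ∈ S, ∀ y ∈ T, x < y := by
      intro x hx y hy
      by_contra hle
      push Not at hle
      apply hy.2
      refine ⟨hy.1, lt_of_le_of_lt ?_ hx.2⟩
      apply Set.ncard_le_ncard _ (hF.subset Set.inter_subset_left)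
      intro z hz
      exact ⟨hz.1, lt_of_lt_of_le hz.2 hle⟩
    have hSK : S.ncard ≤ K := by
      rcases S.eq_empty_or_nonempty with h0 | h0
      · rw [h0, Set.ncard_empty]
        exact Nat.zero_le _
      · obtain ⟨m, hm, hm'⟩ := Set.exists_max_image S id hS h0
        have h1 : S ⊆ insert m (F ∩ Iio m) := by
          intro x hx
          rcases lt_or_eq_of_le (hm' x hx) with h2 | h2
          · exact Or.inr ⟨hSF hx, h2⟩
          · exact Or.inl h2
        have h2 : S.ncard ≤ (insert m (F ∩ Iio m)).ncard :=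
          Set.ncard_le_ncard h1 ((hF.subset Set.inter_subset_left).insert m)
        have h3 : (insert m (F ∩ Iio m)).ncard ≤ (F ∩ Iio m).ncard + 1 :=
          Set.ncard_insert_le m (F ∩ Iio m)
        have h4 : (F ∩ Iio m).ncard < K := hm.2
        omega
    have hTK : T.ncard ≤ K * (n + 1) := by
      rcases T.eq_empty_or_nonempty with h0 | h0
      · rw [h0, Set.ncard_empty]
        exact Nat.zero_le _
      · obtain ⟨y, hy, hy'⟩ := Set.exists_min_image T id hT h0
        have h1 : F ∩ Iio y ⊆ S := by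
          intro x hx
          by_contra h2
          have h3 : y ≤ x := hy' x ⟨hx.1, h2⟩
          exact absurd hx.2 (not_lt.2 h3)
        have h2 : (F ∩ Iio y).ncard ≤ S.ncard := Set.ncard_le_ncard h1 hS
        have h3 : K ≤ (F ∩ Iio y).ncard := by
          by_contra h4
          exact hy.2 ⟨hy.1, not_le.1 h4⟩
        have h4 : T.ncard + S.ncard = F.ncard := Set.ncard_sdiff_add_ncard_of_subset hSF hF
        have h5 : K * (n + 1 + 1) = K * (n + 1) + K := by ring
        omega
    obtain ⟨c, hc1, hc2⟩ := balance_sep (A := insert α S) (B := insert β T) (hS.insert α)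
      (hT.insert β) (Set.insert_nonempty _ _) (Set.insert_nonempty _ _) (by
        intro x hx y hy
        rcases hx with rfl | hx
        · rcases hy with rfl | hy
          · exact hαβ
          · exact (hsub (hTF hy)).1
        · rcases hy with rfl | hy
          · exact (hsub (hSF hx)).2
          · exact hST x hx y hy)
    have hαc : α < c := hc1 α (Set.mem_insert _ _)
    have hcβ : c < β := hc2 β (Set.mem_insert _ _)
    have hScl : ∀ x ∈ S, x < c := fun x hx => hc1 x (Set.mem_insert_of_mem _ hx)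
    have hTcl : ∀ y ∈ T, c < y := fun y hy => hc2 y (Set.mem_insert_of_mem _ hy)
    have hcF : c ∉ F := by
      intro h1
      by_cases h2 : c ∈ S
      · exact lt_irrefl _ (hScl c h2)
      · exact lt_irrefl _ (hTcl c ⟨h1, h2⟩)
    have hTsub : T ⊆ Ioo c β := fun y hy => ⟨hTcl y hy, (hsub (hTF hy)).2⟩
    obtain ⟨τ, t0, t1, t2, t3, t4⟩ := ih c β T hcβ hT hTsub hTK
    have hmono : ∀ s, s ≤ n + 1 → c ≤ τ s := by
      intro s
      induction s with
      | zero =>
        intro _
        rw [t0]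
      | succ s ihs =>
        intro h
        exact le_trans (ihs (by omega)) (t2 s (by omega)).le
    refine ⟨fun s => if s = 0 then α else τ (s - 1), by simp, ?_, ?_, ?_, ?_⟩
    · show (if n + 1 + 1 = 0 then α else τ (n + 1 + 1 - 1)) = β
      rw [if_neg (by omega)]
      exact t1
    · intro s hs
      show (if s = 0 then α else τ (s - 1)) < (if s + 1 = 0 then α else τ (s + 1 - 1))
      rw [if_neg (Nat.succ_ne_zero s)]
      by_cases h0 : s = 0
      · subst h0
        rw [if_pos rfl]
        show α < τ 0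
        rw [t0]
        exact hαc
      · rw [if_neg h0]
        have h1 := t2 (s - 1) (by omega)
        have h2 : s - 1 + 1 = s + 1 - 1 := by omega
        rw [h2] at h1
        exact h1
    · intro s h1 h2
      show (if s = 0 then α else τ (s - 1)) ∉ F
      rw [if_neg (by omega)]
      by_cases h3 : s = 1
      · subst h3
        show τ 0 ∉ F
        rw [t0]
        exact hcF
      · intro h4
        by_cases h5 : τ (s - 1) ∈ S
        · exact absurd (hScl _ h5) (not_lt.2 (hmono (s - 1) (by omega)))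
        · exact t3 (s - 1) (by omega) (by omega) ⟨h4, h5⟩
    · intro s hs
      show (F ∩ Ioo (if s = 0 then α else τ (s - 1)) (if s + 1 = 0 then α else τ (s + 1 - 1))).ncard
        ≤ K
      rw [if_neg (Nat.succ_ne_zero s)]
      by_cases h0 : s = 0
      · subst h0
        rw [if_pos rfl]
        refine le_trans (Set.ncard_le_ncard ?_ hS) hSK
        intro x hx
        have h1 : x < τ 0 := hx.2.2
        rw [t0] at h1
        by_contra h2
        exact absurd h1 (not_lt.2 (hTcl x ⟨hx.1, h2⟩).le)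
      · rw [if_neg h0]
        have h2 : s - 1 + 1 = s + 1 - 1 := by omega
        have h3 := t4 (s - 1) (by omega)
        rw [h2] at h3
        refine le_trans (Set.ncard_le_ncard ?_ (hT.subset Set.inter_subset_left)) h3
        intro x hx
        refine ⟨⟨hx.1, ?_⟩, hx.2⟩
        intro h4
        have h5 : c ≤ τ (s - 1) := hmono (s - 1) (by omega)
        exact absurd (lt_of_le_of_lt h5 hx.2.1) (not_lt.2 (hScl x h4).le)

theorem balance (K ℓ : ℕ) (hℓ : 1 ≤ ℓ) (F : Set ℝ) (hF : F.Finite) (hsub : F ⊆ Ioo 0 1)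
    (hc : F.ncard ≤ K * ℓ) :
    ∃ τ : ℕ → ℝ, τ 0 = 0 ∧ τ ℓ = 1 ∧ (∀ s < ℓ, τ s < τ (s + 1)) ∧
      (∀ s, 0 < s → s < ℓ → τ s ∉ F) ∧ ∀ s < ℓ, (F ∩ Ioo (τ s) (τ (s + 1))).ncard ≤ K := by
  obtain ⟨n, rfl⟩ : ∃ n, ℓ = n + 1 := ⟨ℓ - 1, by omega⟩
  exact balance_aux K n 0 1 F one_pos hF hsub hc

end Pool.Agent.Helper83.LN
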