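import Pool.Agent.Helper83.LN.Draw
import Pool.Agent.Helper83.LN.Assemble
import Pool.Agent.Helper83.LN.OldRoute

/-!
# LN-15: surgery

`H` has a planarised 1-planar drawing `Z` and a layout `L` of its node graph (`OP.planarize`,
`OP.exists_layout`); `c` is any cost function on the half edges. There is a system `Gam` of geodesics such that: let
`G` be a graph on the same vertices with a partition `Th` into threads. The threads not in `Q` are old: they are in
`H`, and their ends stay (`pl v = v`). The threads in `Q` are redrawn along the geodesics `Gam` between the places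
`pl v` of their ends. Then `G` is `K`-planar as soon as the number of common nodes (with multiplicities `mult`: at
most one for two threads of `Q`) of every thread with all others is at most `K` times its length.
-/

namespace Pool.Agent.Helper83.LN

open Set Pool.Agent.Helper83.OP

open Classical in
theorem surgery {V : Type} [Finite V] (H : SimpleGraph V) (Z : Plz H)
    (L : Layout Z.J (H.edgeSet × Bool) Z.src Z.tgt) (hH : H.edgeSet.Nonempty)
    (c : H.edgeSet × Bool → ℕ) :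
    ∃ Gam : Z.J → Z.J → Rt Z.J (H.edgeSet × Bool) Z.src Z.tgt,
      (∀ j j', (∃ l, Wk Z.src Z.tgt j j' l) → (Gam j j').From j j' ∧ IsGeo c (Gam j j')) ∧
      ∀ (G : SimpleGraph V) (T : Type) [Fintype T] (Th : Threads G T) (Q : Set T) (pl : V → V),
        (∀ τ, τ ∉ Q → (∀ t < Th.len τ, H.Adj (Th.x τ t) (Th.x τ (t + 1))) ∧
          pl (Th.x τ 0) = Th.x τ 0 ∧ pl (Th.x τ (Th.len τ)) = Th.x τ (Th.len τ)) →
        (∀ τ ∈ Q, ∃ l, Wk Z.src Z.tgt (Z.vn (pl (Th.x τ 0)))
          (Z.vn (pl (Th.x τ (Th.len τ)))) l) →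
        ∃ R : T → Rt Z.J (H.edgeSet × Bool) Z.src Z.tgt,
          (∀ τ, (R τ).From (Z.vn (pl (Th.x τ 0))) (Z.vn (pl (Th.x τ (Th.len τ))))) ∧
          (∀ τ ∈ Q, R τ = Gam (Z.vn (pl (Th.x τ 0))) (Z.vn (pl (Th.x τ (Th.len τ))))) ∧
          (∀ τ, τ ∉ Q → ∀ t ≤ (R τ).len, (∃ s ≤ Th.len τ, (R τ).nd t = Z.vn (Th.x τ s)) ∨
            ∃ f : H.edgeSet, (∃ s < Th.len τ, (f : Sym2 V) = s(Th.x τ s, Th.x τ (s + 1))) ∧
              (R τ).nd t = Z.bn f) ∧
          ∀ K : ℕ, (∀ τ, ∑ τ' : T, (if τ' = τ then 0 else mult R Q τ τ') ≤ K * Th.len τ) →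
            KPl K G := by
  have : Nonempty (H.edgeSet × Bool) := by
    obtain ⟨e, he⟩ := hH
    exact ⟨(⟨e, he⟩, true)⟩
  have hJ : Finite Z.J := Z.fin
  have hI : Finite (H.edgeSet × Bool) := inferInstance
  obtain ⟨Gam, hG1, hG2⟩ := exists_geodesics (src := Z.src) (tgt := Z.tgt) c
  refine ⟨Gam, hG1, ?_⟩
  intro G T _ Th Q pl hold hnew
  have hab : ∀ τ, Th.x τ 0 ≠ Th.x τ (Th.len τ) := by
    intro τ h
    have h1 := Th.pos τ
    have := Th.inj τ 0 (Th.len τ) (Nat.zero_le _) le_rfl h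
    omega
  -- the old routes
  have hR0 : ∀ τ, ∃ R : Rt Z.J (H.edgeSet × Bool) Z.src Z.tgt,
      R.From (Z.vn (pl (Th.x τ 0))) (Z.vn (pl (Th.x τ (Th.len τ)))) ∧
      (τ ∉ Q → ∀ t ≤ R.len, (∃ s ≤ Th.len τ, R.nd t = Z.vn (Th.x τ s)) ∨
        ∃ f : H.edgeSet, (∃ s < Th.len τ, (f : Sym2 V) = s(Th.x τ s, Th.x τ (s + 1))) ∧
          R.nd t = Z.bn f) := by
    intro τ
    by_cases h : τ ∈ Q
    · obtain ⟨l, hl⟩ := hnew τ h
      obtain ⟨R, h1, -⟩ := exists_rt c hl
      exact ⟨R, h1, fun h' => absurd h h'⟩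
    · obtain ⟨h1, h2, h3⟩ := hold τ h
      obtain ⟨R, h4, h5⟩ := old_route Z (Th.x τ) (Th.len τ) (Th.pos τ) h1
      rw [h2, h3]
      exact ⟨R, h4, fun _ => h5⟩
  choose R0 h01 h02 using hR0
  obtain ⟨R, hF, hN, hG, P, E, hD, hX⟩ := draw (plz_ne Z) L (fun v => Z.vn (pl v))
    (fun τ => Th.x τ 0) (fun τ => Th.x τ (Th.len τ)) hab Q Gam (fun j j' h => (hG1 j j' h).1)
    hG2 R0 h01
  refine ⟨R, hF, hG, ?_, ?_⟩
  · intro τ h
    rw [hN τ h]
    exact h02 τ h
  · intro K hK
    refine assemble G Th K P E hD ?_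
    intro τ
    refine le_trans ?_ (Nat.cast_le.2 (hK τ))
    have h1 : {p : T × (ℝ × ℝ) | p.1 ≠ τ ∧ p.2 ∈ Xs P E τ p.1} =
        ⋃ τ' ∈ (Finset.univ.filter fun τ' => τ' ≠ τ), (fun z => (τ', z)) '' Xs P E τ τ' := by
      ext ⟨τ', z⟩
      simp only [mem_setOf_eq, Finset.mem_filter, Finset.mem_univ, true_and, mem_iUnion,
        mem_image, Prod.mk.injEq, exists_prop]
      constructor
      · rintro ⟨h1, h2⟩
        exact ⟨τ', h1, z, h2, rfl, rfl⟩
      · rintro ⟨τ'', h1, z', h2, h3, h4⟩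
        subst h3; subst h4
        exact ⟨h1, h2⟩
    rw [h1]
    have h2 : ∀ s : Finset T, τ ∉ s →
        (⋃ τ' ∈ s, (fun z => (τ', z)) '' Xs P E τ τ').encard ≤
          ((∑ τ' ∈ s, (if τ' = τ then 0 else mult R Q τ τ') : ℕ) : ℕ∞) := by
      intro s
      induction s using Finset.induction_on with
      | empty => intro _; simp
      | insert x s hx ih =>
        intro hs
        rw [Finset.mem_insert, not_or] at hs
        rw [Finset.set_biUnion_insert, Finset.sum_insert hx, Nat.cast_add]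
        refine (Set.encard_union_le _ _).trans (add_le_add ?_ (ih hs.2))
        rw [if_neg (Ne.symm hs.1)]
        exact (Set.encard_image_le _ _).trans (hX τ x hs.1)
    refine (h2 _ (by simp)).trans (Nat.cast_le.2 ?_)
    exact Finset.sum_le_sum_of_subset (Finset.filter_subset _ _)

end Pool.Agent.Helper83.LN
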