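import Pool.Agent.Helper83.LN.Defs
import Pool.Agent.Helper83.OP.Arcs
import Pool.Agent.Helper83.OP.RectGeo

/-!
# LN-2: polar coordinates

`pol o (θ, r) = o + r (cos θ, sin θ)`, `PD` = `(-π, π] × (0, ∞)`.
-/

namespace Pool.Agent.Helper83.LN

open Set Pool.Agent.Helper83.OP

private theorem arg_polar {t r : ℝ} (h1 : -Real.pi < t) (h2 : t ≤ Real.pi) (h3 : 0 < r) :
    Complex.arg (⟨r * Real.cos t, r * Real.sin t⟩ : ℂ) = t := by
  have h := Complex.arg_mul_cos_add_sin_mul_I h3 (show t ∈ Ioc (-Real.pi) Real.pi from ⟨h1, h2⟩)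
  rw [← Complex.ofReal_cos, ← Complex.ofReal_sin] at h
  have e : (⟨r * Real.cos t, r * Real.sin t⟩ : ℂ) =
      (r : ℂ) * (((Real.cos t : ℝ) : ℂ) + ((Real.sin t : ℝ) : ℂ) * Complex.I) := by
    apply Complex.ext
    · simp only [Complex.mul_re, Complex.add_re, Complex.add_im, Complex.mul_im, Complex.ofReal_re,
        Complex.ofReal_im, Complex.I_re, Complex.I_im]
      ring
    · simp only [Complex.mul_re, Complex.add_re, Complex.add_im, Complex.mul_im, Complex.ofReal_re,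
        Complex.ofReal_im, Complex.I_re, Complex.I_im]
      ring
  rw [e]
  exact h

private theorem rad_sq (t r : ℝ) : (r * Real.cos t) ^ 2 + (r * Real.sin t) ^ 2 = r ^ 2 := by
  have a := Real.sin_sq_add_cos_sq t
  calc (r * Real.cos t) ^ 2 + (r * Real.sin t) ^ 2
      = r ^ 2 * (Real.sin t ^ 2 + Real.cos t ^ 2) := by ring
    _ = r ^ 2 := by rw [a, mul_one]

/-- Proof: from `r cos θ = r' cos θ'`, `r sin θ = r' sin θ'`: squares give `r = r'`; then
`Complex.arg_cos_add_sin_mul_I` (or `Complex.arg_mul_cos_add_sin_mul_I`) gives `θ = θ'`. -/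
theorem pol_inj (o : ℝ × ℝ) : InjOn (pol o) PD := by
  intro z hz z' hz' h
  have e1 : z.2 * Real.cos z.1 = z'.2 * Real.cos z'.1 := by
    have := congrArg Prod.fst h
    simp only [pol] at this
    linarith
  have e2 : z.2 * Real.sin z.1 = z'.2 * Real.sin z'.1 := by
    have := congrArg Prod.snd h
    simp only [pol] at this
    linarith
  have hr : z.2 = z'.2 := by
    have s : z.2 ^ 2 = z'.2 ^ 2 := by
      rw [← rad_sq z.1 z.2, ← rad_sq z'.1 z'.2, e1, e2]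
    exact (pow_left_inj₀ hz.2.2.le hz'.2.2.le two_ne_zero).1 s
  have ht : z.1 = z'.1 := by
    rw [← arg_polar hz.1 hz.2.1 hz.2.2, ← arg_polar hz'.1 hz'.2.1 hz'.2.2, e1, e2]
  exact Prod.ext ht hr

theorem pol_cont (o : ℝ × ℝ) : Continuous (pol o) := by
  unfold pol
  fun_prop

/-- every point other than `o` has polar coordinates: `θ = Complex.arg (p - o)`, `r = ‖p - o‖` -/
theorem exists_pol (o p : ℝ × ℝ) (h : p ≠ o) : ∃ z ∈ PD, pol o z = p := by
  have hw : (⟨p.1 - o.1, p.2 - o.2⟩ : ℂ) ≠ 0 := by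
    intro h0
    have a := congrArg Complex.re h0
    have b := congrArg Complex.im h0
    simp only [Complex.zero_re, Complex.zero_im] at a b
    exact h (Prod.ext (by linarith) (by linarith))
  refine ⟨(Complex.arg ⟨p.1 - o.1, p.2 - o.2⟩, ‖(⟨p.1 - o.1, p.2 - o.2⟩ : ℂ)‖),
    ⟨Complex.neg_pi_lt_arg _, Complex.arg_le_pi _, norm_pos_iff.2 hw⟩, ?_⟩
  have a := Complex.norm_mul_cos_arg (⟨p.1 - o.1, p.2 - o.2⟩ : ℂ)
  have b := Complex.norm_mul_sin_arg (⟨p.1 - o.1, p.2 - o.2⟩ : ℂ)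
  simp only at a b
  apply Prod.ext
  · simp only [pol]
    rw [a]
    ring
  · simp only [pol]
    rw [b]
    ring

theorem isArc_pol (o : ℝ × ℝ) {α : Set (ℝ × ℝ)} {a b : ℝ × ℝ} (h : IsArc α a b) (hα : α ⊆ PD) :
    IsArc (pol o '' α) (pol o a) (pol o b) := by
  obtain ⟨γ, hc, hi, h0, h1, him⟩ := h
  refine ⟨fun t => pol o (γ t), (pol_cont o).comp_continuousOn hc, ?_,
    congrArg (pol o) h0, congrArg (pol o) h1, ?_⟩
  · intro s hs t ht hst
    have hs' : γ s ∈ PD := hα (him ▸ mem_image_of_mem γ hs)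
    have ht' : γ t ∈ PD := hα (him ▸ mem_image_of_mem γ ht)
    exact hi hs ht (pol_inj o hs' ht' hst)
  · rw [← him, image_image]

/-- the centre of the rectangle -/
noncomputable def ctr (x0 x1 y0 y1 : ℤ) : ℝ × ℝ := (((x0 : ℝ) + x1) / 2, ((y0 : ℝ) + y1) / 2)

theorem ctr_mem {x0 x1 y0 y1 : ℤ} (hx : x0 < x1) (hy : y0 < y1) :
    ctr x0 x1 y0 y1 ∈ orect x0 x1 y0 y1 := by
  have h1 : (x0 : ℝ) < x1 := by exact_mod_cast hx
  have h2 : (y0 : ℝ) < y1 := by exact_mod_cast hy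
  refine ⟨⟨?_, ?_⟩, ⟨?_, ?_⟩⟩ <;> simp only [ctr] <;> linarith

/-- the half sides are at least `1/2` -/
theorem pol_orect {x0 x1 y0 y1 : ℤ} (hx : x0 < x1) (hy : y0 < y1) (z : ℝ × ℝ) (h0 : 0 < z.2)
    (h1 : z.2 ≤ 1 / 4) : pol (ctr x0 x1 y0 y1) z ∈ orect x0 x1 y0 y1 := by
  have g1 : (x0 : ℝ) + 1 ≤ x1 := by exact_mod_cast hx
  have g2 : (y0 : ℝ) + 1 ≤ y1 := by exact_mod_cast hy
  have hb : ∀ c : ℝ, |c| ≤ 1 → -(1 / 4) ≤ z.2 * c ∧ z.2 * c ≤ 1 / 4 := by
    intro c hc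
    have h2 : |z.2 * c| ≤ 1 / 4 := by
      rw [abs_mul, abs_of_pos h0]
      nlinarith [abs_nonneg c]
    exact abs_le.1 h2
  have c1 := hb _ (Real.abs_cos_le_one z.1)
  have c2 := hb _ (Real.abs_sin_le_one z.1)
  refine ⟨⟨?_, ?_⟩, ⟨?_, ?_⟩⟩ <;> simp only [pol, ctr] <;> linarith [c1.1, c1.2, c2.1, c2.2]

/-- a point of the closed rectangle outside the open rectangle has distance at least `1/2` from the centre -/
theorem rad_ge {x0 x1 y0 y1 : ℤ} (hx : x0 < x1) (hy : y0 < y1) (z : ℝ × ℝ) (hz : z ∈ PD)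
    (h : pol (ctr x0 x1 y0 y1) z ∉ orect x0 x1 y0 y1) : 1 / 4 < z.2 := by
  by_contra h1
  exact h (pol_orect hx hy z hz.2.2 (not_lt.1 h1))

theorem pol_segment (o : ℝ × ℝ) (t r R : ℝ) (h0 : 0 < r) (h1 : r ≤ R) :
    pol o (t, r) ∈ segment ℝ o (pol o (t, R)) := by
  have hR : 0 < R := h0.trans_le h1
  rw [segment_eq_image']
  refine ⟨r / R, ⟨div_nonneg h0.le hR.le, (div_le_one hR).2 h1⟩, ?_⟩
  apply Prod.ext
  · simp only [pol, Prod.fst_add, Prod.smul_fst, Prod.fst_sub, smul_eq_mul]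
    field_simp
    ring
  · simp only [pol, Prod.snd_add, Prod.smul_snd, Prod.snd_sub, smul_eq_mul]
    field_simp
    ring

/-- the doors have different angles: otherwise one of them is on the segment from the centre to the other
one, and `seg_orect` (or `star_disj`) gives a contradiction -/
theorem pol_angle {x0 x1 y0 y1 : ℤ} (hx : x0 < x1) (hy : y0 < y1) (z z' : ℝ × ℝ) (hz : z ∈ PD)
    (hz' : z' ∈ PD) (hc : pol (ctr x0 x1 y0 y1) z ∈ crect x0 x1 y0 y1)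
    (hc' : pol (ctr x0 x1 y0 y1) z' ∈ crect x0 x1 y0 y1)
    (ho : pol (ctr x0 x1 y0 y1) z ∉ orect x0 x1 y0 y1)
    (ho' : pol (ctr x0 x1 y0 y1) z' ∉ orect x0 x1 y0 y1) (h : z.1 = z'.1) : z = z' := by
  rcases le_total z.2 z'.2 with hle | hle
  · have hs := pol_segment (ctr x0 x1 y0 y1) z.1 z.2 z'.2 hz.2.2 hle
    rw [show ((z.1, z'.2) : ℝ × ℝ) = z' from Prod.ext h rfl] at hs
    rcases seg_orect _ _ _ (ctr_mem hx hy) hc' hs with h2 | h2
    · exact pol_inj _ hz hz' h2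
    · exact absurd h2 ho
  · have hs := pol_segment (ctr x0 x1 y0 y1) z'.1 z'.2 z.2 hz'.2.2 hle
    rw [show ((z'.1, z.2) : ℝ × ℝ) = z from Prod.ext h.symm rfl] at hs
    rcases seg_orect _ _ _ (ctr_mem hx hy) hc hs with h2 | h2
    · exact (pol_inj _ hz' hz h2).symm
    · exact absurd h2 ho'

end Pool.Agent.Helper83.LN
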