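import Pool.Agent.Helper83.LN.Defs
import Pool.Agent.Helper83.OP.Arcs

/-!
# LN-4: arches in the polar plane

Everything happens in the polar plane (angle, radius) `= ℝ × ℝ`; ordinary coordinates. Let `N` be larger than
all `ν p` (finite type). For two ports with `ν p < ν q` let
`s p q = (ν q - ν p) * N + ν p` (a natural number) and `ρ p q = 1 / (8 * (s p q + 2)) ∈ (0, 1/8)`.
* `s p q = s p' q'` (with `ν p < ν q`, `ν p' < ν q'`) implies `ν p = ν p'` and `ν q = ν q'`;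
* if `ν p' ≤ ν p`, `ν q ≤ ν q'` and `(ν p, ν q) ≠ (ν p', ν q')` then `ρ p' q' < ρ p q` (wider arches are lower).
The leg of a port at depth `ρ < 1/8`: `leg (inl d) ρ = {θ_d} × [ρ, rad d]`,
`leg (inr w) ρ = {θ_w} × [ρ, 1/8] ∪ segment (θ_w, 1/8) (om (u w), 1/4)`; it is an arc from `(θ_p, ρ)` to
`top p` (`isArc_segment`, `IsArc.union`; a vertical segment is `segment ℝ (θ, ρ) (θ, R)`), and `(θ_p, ρ)` is its
only point of radius `≤ ρ`.
`Ch p q = leg p ρ ∪ segment (θ_p, ρ) (θ_q, ρ) ∪ leg q ρ` with `ρ = ρ p q` if `ν p < ν q`, `Ch p q = Ch q p` if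
`ν q < ν p`, and `∅` if `p = q` (note `ν` is injective by `hν` and `th_inj`).
Facts, for four different ports with `ν p < ν q`, `ν p' < ν q'`, `ρ = ρ p q`, `ρ' = ρ p' q'`:
(a) leg `x` ∩ leg `y` for `x ≠ y` (any depths) is empty, or the common apex `(om (u w), 1/4)` of two ports of the
    same terminal: vertical parts have different angles; the slanted part of `w` has angles in
    `[om (u w), θ_w]`, radius in `[1/8, 1/4]`, radius `1/8` only at `θ_w`; so it misses the door legs (`door'`), the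
    vertical parts of the others (radius `≤ 1/8`, angle `θ_w' ≠ θ_w`), the slanted parts of other terminals (`wd`);
    two slanted parts of one terminal: at the radius `1/4 - x/8` (`x ∈ [0, 1]`) the angle is
    `om + x (θ_w - om)`, so they meet only for `x = 0`.
(b) the row `segment (θ_p, ρ) (θ_q, ρ)` has radius `ρ < 1/8`; it meets the leg of `x ∉ {p, q}` at depth `ρ'` only in
    `(θ_x, ρ)`, and only if `ρ' ≤ ρ` and `ν p < ν x < ν q`.
(c) rows have different radii if the ports are different.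
So a common point of `Ch p q` and `Ch p' q'` which is not an apex is `(θ_x, ρ')` with `x ∈ {p, q}` on the row of
`(p', q')`, `ρ ≤ ρ'`, or `(θ_y, ρ)` with `y ∈ {p', q'}` on the row of `(p, q)`, `ρ' ≤ ρ`. In the first case
`ν p' < ν x < ν q'` and, if also the other one of `p, q` was between them, then `ρ' < ρ`. So the pairs interleave,
exactly one of `p, q` is between `p', q'` and exactly one of `p', q'` is between `p, q`; as `ρ ≠ ρ'`, only one of the
two cases occurs. Hence `X` = (this single point) or `∅`.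
Triple: a point of radius `< 1/8` on three chords is on at most one row by (c), and on at most one leg by (a)
(a row and a leg of the same chord count once), contradiction; a point of radius `≥ 1/8` is on no row, so it is on
three legs of different ports, hence an apex by (a).
-/

namespace Pool.Agent.Helper83.LN

open Set Pool.Agent.Helper83.OP

section aux

variable {D W U : Type} {u : W → U}

private theorem seg_mem {a b : ℝ × ℝ} {z : ℝ × ℝ} (h : z ∈ segment ℝ a b) :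
    ∃ x : ℝ, 0 ≤ x ∧ x ≤ 1 ∧ z.1 = a.1 + x * (b.1 - a.1) ∧ z.2 = a.2 + x * (b.2 - a.2) := by
  obtain ⟨s, t, hs, ht, hst, rfl⟩ := h
  refine ⟨t, ht, by linarith, ?_, ?_⟩
  · have : s = 1 - t := by linarith
    simp [this]
    ring
  · have : s = 1 - t := by linarith
    simp [this]
    ring

private theorem ver_mem {θ r R : ℝ} (hr : r ≤ R) {z : ℝ × ℝ} (h : z ∈ segment ℝ (θ, r) (θ, R)) :
    z.1 = θ ∧ r ≤ z.2 ∧ z.2 ≤ R := by
  obtain ⟨x, h0, h1, e1, e2⟩ := seg_mem h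
  simp only [sub_self, mul_zero, add_zero] at e1
  simp only at e2
  refine ⟨e1, ?_, ?_⟩ <;> nlinarith

private theorem hor_mem {θ θ' r : ℝ} (hr : θ ≤ θ') {z : ℝ × ℝ} (h : z ∈ segment ℝ (θ, r) (θ', r)) :
    z.2 = r ∧ θ ≤ z.1 ∧ z.1 ≤ θ' := by
  obtain ⟨x, h0, h1, e1, e2⟩ := seg_mem h
  simp only [sub_self, mul_zero, add_zero] at e2
  simp only at e1
  refine ⟨e2, ?_, ?_⟩ <;> nlinarith

/-- the leg of a port at depth `r` -/
private def leg (Θ : Pose D W U u) : D ⊕ W → ℝ → Set (ℝ × ℝ)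
  | Sum.inl d, r => segment ℝ (Θ.th (Sum.inl d), r) (Θ.th (Sum.inl d), Θ.rad d)
  | Sum.inr w, r => segment ℝ (Θ.th (Sum.inr w), r) (Θ.th (Sum.inr w), 1 / 8) ∪
      segment ℝ (Θ.th (Sum.inr w), 1 / 8) (Θ.om (u w), 1 / 4)

private theorem slant_mem (Θ : Pose D W U u) {w : W} {z : ℝ × ℝ}
    (h : z ∈ segment ℝ (Θ.th (Sum.inr w), 1 / 8) (Θ.om (u w), 1 / 4)) :
    ∃ x : ℝ, 0 ≤ x ∧ x ≤ 1 ∧ z.1 = Θ.om (u w) + x * (Θ.th (Sum.inr w) - Θ.om (u w)) ∧
      z.2 = 1 / 4 - x / 8 ∧ Θ.om (u w) ≤ z.1 ∧ z.1 ≤ Θ.th (Sum.inr w) := by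
  obtain ⟨x, h0, h1, e1, e2⟩ := seg_mem h
  simp only at e1 e2
  have h2 := Θ.om_lt w
  refine ⟨1 - x, by linarith, by linarith, ?_, ?_, ?_, ?_⟩
  · rw [e1]
    ring
  · rw [e2]
    ring
  · rw [e1]
    nlinarith
  · rw [e1]
    nlinarith

private theorem leg_arc (Θ : Pose D W U u) (p : D ⊕ W) {r : ℝ} (hr : r < 1 / 8) :
    IsArc (leg Θ p r) (Θ.th p, r) (Θ.top p) := by
  rcases p with d | w
  · refine isArc_segment ?_
    intro h
    have h1 := congrArg Prod.snd h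
    have h2 := Θ.rad_gt d
    simp only at h1
    linarith
  · refine IsArc.union (b := (Θ.th (Sum.inr w), 1 / 8)) (isArc_segment ?_) (isArc_segment ?_) ?_
    · intro h
      have h1 := congrArg Prod.snd h
      simp only at h1
      linarith
    · intro h
      have h1 := congrArg Prod.snd h
      simp only at h1
      norm_num at h1
    · intro z hz hz'
      obtain ⟨e1, e2, e3⟩ := ver_mem hr.le hz
      obtain ⟨x, h0, h1, e4, e5, -, -⟩ := slant_mem Θ hz'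
      ext
      · exact e1
      · simp only
        linarith

private theorem leg_low (Θ : Pose D W U u) {p : D ⊕ W} {r : ℝ} (hr : r < 1 / 8) {z : ℝ × ℝ}
    (h : z ∈ leg Θ p r) : r ≤ z.2 ∧ (z.2 ≤ 1 / 8 → z.1 = Θ.th p) := by
  rcases p with d | w
  · have h2 := Θ.rad_gt d
    obtain ⟨e1, e2, e3⟩ := ver_mem (by linarith) h
    exact ⟨e2, fun _ => e1⟩
  · rcases h with h | h
    · obtain ⟨e1, e2, e3⟩ := ver_mem hr.le h
      exact ⟨e2, fun _ => e1⟩
    · obtain ⟨x, h0, h1, e4, e5, -, -⟩ := slant_mem Θ h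
      refine ⟨by linarith, fun h3 => ?_⟩
      have : x = 1 := by linarith
      rw [e4, this]
      ring

private theorem leg_leg (Θ : Pose D W U u) {p q : D ⊕ W} (hpq : p ≠ q) {r r' : ℝ} (hr : r < 1 / 8)
    (hr' : r' < 1 / 8) {z : ℝ × ℝ} (h : z ∈ leg Θ p r) (h' : z ∈ leg Θ q r') :
    ∃ v, trm u p = some v ∧ trm u q = some v ∧ z = (Θ.om v, 1 / 4) := by
  rcases p with d | w
  · have h2 := Θ.rad_gt d
    obtain ⟨e1, e2, e3⟩ := ver_mem (by linarith) h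
    rcases q with d' | w'
    · have h2' := Θ.rad_gt d'
      obtain ⟨e1', e2', e3'⟩ := ver_mem (by linarith) h'
      exact absurd (Θ.th_inj (e1.symm.trans e1')) hpq
    · rcases h' with h' | h'
      · obtain ⟨e1', e2', e3'⟩ := ver_mem hr'.le h'
        exact absurd (Θ.th_inj (e1.symm.trans e1')) hpq
      · obtain ⟨x, h0, h1, e4, e5, -, e6⟩ := slant_mem Θ h'
        have := Θ.door' d w'
        linarith
  · rcases q with d' | w'
    · have h2' := Θ.rad_gt d'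
      obtain ⟨e1', e2', e3'⟩ := ver_mem (by linarith) h'
      rcases h with h | h
      · obtain ⟨e1, e2, e3⟩ := ver_mem hr.le h
        exact absurd (Θ.th_inj (e1.symm.trans e1')) hpq
      · obtain ⟨x, h0, h1, e4, e5, -, e6⟩ := slant_mem Θ h
        have := Θ.door' d' w
        linarith
    · rcases h with h | h
      · obtain ⟨e1, e2, e3⟩ := ver_mem hr.le h
        rcases h' with h' | h'
        · obtain ⟨e1', e2', e3'⟩ := ver_mem hr'.le h'
          exact absurd (Θ.th_inj (e1.symm.trans e1')) hpq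
        · obtain ⟨x, h0, h1, e4, e5, -, -⟩ := slant_mem Θ h'
          have hx : x = 1 := by linarith
          rw [hx] at e4
          exact absurd (Θ.th_inj (e1.symm.trans (e4.trans (by ring)))) hpq
      · obtain ⟨x, h0, h1, e4, e5, e6, e7⟩ := slant_mem Θ h
        rcases h' with h' | h'
        · obtain ⟨e1', e2', e3'⟩ := ver_mem hr'.le h'
          have hx : x = 1 := by linarith
          rw [hx] at e4
          exact absurd (Θ.th_inj (e1'.symm.trans (e4.trans (by ring)))) hpq.symm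
        · obtain ⟨x', h0', h1', e4', e5', e6', e7'⟩ := slant_mem Θ h'
          have hx : x' = x := by linarith
          by_cases huw : u w = u w'
          · rw [← huw, hx] at e4'
            have h3 : x * (Θ.th (Sum.inr w) - Θ.th (Sum.inr w')) = 0 := by
              have := e4.symm.trans e4'
              linear_combination this
            rcases mul_eq_zero.mp h3 with h4 | h4
            · refine ⟨u w, rfl, by simp [trm, huw], ?_⟩
              rw [h4] at e4 e5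
              ext
              · simp only
                linarith
              · simp only
                linarith
            · exact absurd (Θ.th_inj (sub_eq_zero.mp h4)) hpq
          · rcases Θ.wd w w' huw with h3 | h3
            · linarith
            · linarith

private theorem leg_term (Θ : Pose D W U u) {p : D ⊕ W} {r : ℝ} (hr : r < 1 / 8) {v : U}
    (h : (Θ.om v, (1 : ℝ) / 4) ∈ leg Θ p r) : trm u p = some v := by
  rcases p with d | w
  · have h2 := Θ.rad_gt d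
    obtain ⟨e1, e2, e3⟩ := ver_mem (by linarith) h
    have := Θ.door d v
    simp only at e1
    linarith
  · rcases h with h | h
    · obtain ⟨e1, e2, e3⟩ := ver_mem hr.le h
      simp only at e3
      norm_num at e3
    · obtain ⟨x, h0, h1, e4, e5, -, -⟩ := slant_mem Θ h
      simp only at e4 e5
      have hx : x = 0 := by linarith
      rw [hx] at e4
      have : v = u w := Θ.om_inj (by linarith)
      simp [trm, this]

private theorem leg_dom (Θ : Pose D W U u) {p : D ⊕ W} {r : ℝ} (h0r : 0 < r) (hr : r < 1 / 8) {z : ℝ × ℝ}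
    (h : z ∈ leg Θ p r) : z ∈ PD ∧ (z.2 ≤ 1 / 4 ∨
      ∃ d, p = Sum.inl d ∧ z.1 = Θ.th (Sum.inl d) ∧ z.2 ≤ Θ.rad d) := by
  rcases p with d | w
  · have h2 := Θ.rad_gt d
    obtain ⟨e1, e2, e3⟩ := ver_mem (by linarith) h
    refine ⟨⟨?_, ?_, by linarith⟩, Or.inr ⟨d, rfl, e1, e3⟩⟩
    · rw [e1]
      exact Θ.th_gt _
    · rw [e1]
      exact Θ.th_le _
  · rcases h with h | h
    · obtain ⟨e1, e2, e3⟩ := ver_mem hr.le h
      refine ⟨⟨?_, ?_, by linarith⟩, Or.inl (by linarith)⟩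
      · rw [e1]
        exact Θ.th_gt _
      · rw [e1]
        exact Θ.th_le _
    · obtain ⟨x, h0, h1, e4, e5, e6, e7⟩ := slant_mem Θ h
      have h3 := Θ.om_gt (u w)
      have h4 := Θ.th_le (Sum.inr w)
      exact ⟨⟨by linarith, by linarith, by linarith⟩, Or.inl (by linarith)⟩

/-- the arch of two ports at depth `r` -/
private def ach (Θ : Pose D W U u) (p q : D ⊕ W) (r : ℝ) : Set (ℝ × ℝ) :=
  (leg Θ p r ∪ segment ℝ (Θ.th p, r) (Θ.th q, r)) ∪ leg Θ q r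

private theorem ach_mem (Θ : Pose D W U u) {p q : D ⊕ W} {r : ℝ} (hpq : Θ.th p < Θ.th q) {z : ℝ × ℝ}
    (h : z ∈ ach Θ p q r) : (z.2 = r ∧ Θ.th p ≤ z.1 ∧ z.1 ≤ Θ.th q) ∨
      ∃ x, (x = p ∨ x = q) ∧ z ∈ leg Θ x r := by
  rcases h with (h | h) | h
  · exact Or.inr ⟨p, Or.inl rfl, h⟩
  · exact Or.inl (hor_mem hpq.le h)
  · exact Or.inr ⟨q, Or.inr rfl, h⟩

private theorem ach_arc (Θ : Pose D W U u) {p q : D ⊕ W} {r : ℝ} (hr : r < 1 / 8)
    (hpq : Θ.th p < Θ.th q) (ht : trm u p ≠ trm u q ∨ trm u p = none) :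
    IsArc (ach Θ p q r) (Θ.top p) (Θ.top q) := by
  have hne : p ≠ q := fun h => by rw [h] at hpq; exact lt_irrefl _ hpq
  refine IsArc.union (b := (Θ.th q, r)) (IsArc.union (b := (Θ.th p, r)) (leg_arc Θ p hr).symm
    (isArc_segment ?_) ?_) (leg_arc Θ q hr) ?_
  · intro h
    have h1 := congrArg Prod.fst h
    simp only at h1
    linarith
  · intro z hz hz'
    obtain ⟨e1, e2⟩ := leg_low Θ hr hz
    obtain ⟨e3, -, -⟩ := hor_mem hpq.le hz'
    ext
    · exact e2 (by linarith)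
    · exact e3
  · intro z hz hz'
    rcases hz with hz | hz
    · obtain ⟨v, h1, h2, -⟩ := leg_leg Θ hne hr hr hz hz'
      rcases ht with ht | ht
      · exact absurd (h1.trans h2.symm) ht
      · rw [h1] at ht
        exact absurd ht (by simp)
    · obtain ⟨e1, e2⟩ := leg_low Θ hr hz'
      obtain ⟨e3, -, -⟩ := hor_mem hpq.le hz
      ext
      · exact e2 (by linarith)
      · exact e3

/-- the depth -/
private noncomputable def dep (ν : D ⊕ W → ℕ) (N : ℕ) (p q : D ⊕ W) : ℝ :=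
  1 / (8 * ((((ν q - ν p) * N + ν p : ℕ) : ℝ) + 2))

private theorem dep_pos (ν : D ⊕ W → ℕ) (N : ℕ) (p q : D ⊕ W) : 0 < dep ν N p q := by
  unfold dep
  positivity

private theorem dep_lt (ν : D ⊕ W → ℕ) (N : ℕ) (p q : D ⊕ W) : dep ν N p q < 1 / 8 := by
  unfold dep
  have h : (0 : ℝ) ≤ (((ν q - ν p) * N + ν p : ℕ) : ℝ) := Nat.cast_nonneg _
  apply one_div_lt_one_div_of_lt
  · norm_num
  · linarith

private theorem dep_ne {ν : D ⊕ W → ℕ} {N : ℕ} (hN : ∀ p, ν p < N) {p q p' q' : D ⊕ W}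
    (hp : ν p ≠ ν p') : dep ν N p q ≠ dep ν N p' q' := by
  intro h
  unfold dep at h
  have h1 : (0 : ℝ) ≤ (((ν q - ν p) * N + ν p : ℕ) : ℝ) := Nat.cast_nonneg _
  have h2 : (0 : ℝ) ≤ (((ν q' - ν p') * N + ν p' : ℕ) : ℝ) := Nat.cast_nonneg _
  have h3 : 8 * ((((ν q - ν p) * N + ν p : ℕ) : ℝ) + 2) =
      8 * ((((ν q' - ν p') * N + ν p' : ℕ) : ℝ) + 2) := by
    rw [one_div, one_div, inv_inj] at h
    exact h
  have h4 : (((ν q - ν p) * N + ν p : ℕ) : ℝ) = (((ν q' - ν p') * N + ν p' : ℕ) : ℝ) := by linarith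
  have h5 : (ν q - ν p) * N + ν p = (ν q' - ν p') * N + ν p' := by exact_mod_cast h4
  have h6 := congrArg (· % N) h5
  simp only [Nat.mul_add_mod_self_right, Nat.mod_eq_of_lt (hN p), Nat.mod_eq_of_lt (hN p')] at h6
  exact hp h6

private theorem dep_mono {ν : D ⊕ W → ℕ} {N : ℕ} (hN : ∀ p, ν p < N) {p q p' q' : D ⊕ W}
    (hpq : ν p < ν q) (hp : ν p' < ν p) (hq : ν q < ν q') : dep ν N p' q' < dep ν N p q := by
  unfold dep
  have h5 : (ν q - ν p) * N + ν p < (ν q' - ν p') * N + ν p' := by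
    have h6 : ν q - ν p + 1 ≤ ν q' - ν p' := by omega
    have h7 := Nat.mul_le_mul_right N h6
    have h8 := hN p
    nlinarith
  have h4 : (((ν q - ν p) * N + ν p : ℕ) : ℝ) < (((ν q' - ν p') * N + ν p' : ℕ) : ℝ) := by
    exact_mod_cast h5
  have h1 : (0 : ℝ) ≤ (((ν q - ν p) * N + ν p : ℕ) : ℝ) := Nat.cast_nonneg _
  apply one_div_lt_one_div_of_lt
  · positivity
  · linarith

/-- two legs of different ports meet only in an apex -/
private theorem two_legs (Θ : Pose D W U u) {p q p' q' : D ⊕ W} (h1 : p ≠ p') (h2 : p ≠ q') (h3 : q ≠ p')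
    (h4 : q ≠ q') {r r' : ℝ} (hr : r < 1 / 8) (hr' : r' < 1 / 8) {z : ℝ × ℝ}
    (h : ∃ x, (x = p ∨ x = q) ∧ z ∈ leg Θ x r) (h' : ∃ x, (x = p' ∨ x = q') ∧ z ∈ leg Θ x r') :
    ∃ v, z = (Θ.om v, 1 / 4) := by
  obtain ⟨x, hx, hz⟩ := h
  obtain ⟨x', hx', hz'⟩ := h'
  have hne : x ≠ x' := by
    rcases hx with rfl | rfl <;> rcases hx' with rfl | rfl <;> assumption
  obtain ⟨v, -, -, h5⟩ := leg_leg Θ hne hr hr' hz hz'
  exact ⟨v, h5⟩

/-- the possible crossing of two arches -/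
private def crs (Θ : Pose D W U u) (ν : D ⊕ W → ℕ) (p q : D ⊕ W) (r : ℝ) (p' q' : D ⊕ W) (r' : ℝ) :
    Set (ℝ × ℝ) :=
  {z | (r < r' ∧ ν p' < ν p ∧ ν p < ν q' ∧ ν q' < ν q ∧ z = (Θ.th p, r')) ∨
    (r < r' ∧ ν p < ν p' ∧ ν p' < ν q ∧ ν q < ν q' ∧ z = (Θ.th q, r')) ∨
    (r' < r ∧ ν p < ν p' ∧ ν p' < ν q ∧ ν q < ν q' ∧ z = (Θ.th p', r)) ∨
    (r' < r ∧ ν p' < ν p ∧ ν p < ν q' ∧ ν q' < ν q ∧ z = (Θ.th q', r))}

private theorem crs_sub (Θ : Pose D W U u) (ν : D ⊕ W → ℕ) (p q : D ⊕ W) (r : ℝ) (p' q' : D ⊕ W) (r' : ℝ) :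
    (crs Θ ν p q r p' q' r').Subsingleton := by
  intro z hz z' hz'
  rcases hz with ⟨h1, h2, h3, h4, h5⟩ | ⟨h1, h2, h3, h4, h5⟩ | ⟨h1, h2, h3, h4, h5⟩ | ⟨h1, h2, h3, h4, h5⟩ <;>
    rcases hz' with ⟨k1, k2, k3, k4, k5⟩ | ⟨k1, k2, k3, k4, k5⟩ | ⟨k1, k2, k3, k4, k5⟩ |
      ⟨k1, k2, k3, k4, k5⟩ <;>
    first
    | exact h5.trans k5.symm
    | exact absurd h1 (lt_asymm k1)
    | (exfalso; omega)

private theorem crs_il (Θ : Pose D W U u) (ν : D ⊕ W → ℕ) (p q : D ⊕ W) (r : ℝ) (p' q' : D ⊕ W) (r' : ℝ)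
    (h : (crs Θ ν p q r p' q' r').Nonempty) :
    (ν p' < ν p ∧ ν p < ν q' ∧ ν q' < ν q) ∨ (ν p < ν p' ∧ ν p' < ν q ∧ ν q < ν q') := by
  obtain ⟨z, hz⟩ := h
  rcases hz with ⟨h1, h2, h3, h4, h5⟩ | ⟨h1, h2, h3, h4, h5⟩ | ⟨h1, h2, h3, h4, h5⟩ | ⟨h1, h2, h3, h4, h5⟩ <;>
    omega

/-- the row of the arch `(p', q')` and a leg of the arch `(p, q)` -/
private theorem row_leg (Θ : Pose D W U u) {ν : D ⊕ W → ℕ} (hν : ∀ p q, Θ.th p < Θ.th q ↔ ν p < ν q)
    {N : ℕ} (hN : ∀ p, ν p < N) {p q p' q' : D ⊕ W} (hpq : ν p < ν q) (hpq' : ν p' < ν q')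
    (h1 : p ≠ p') (h2 : p ≠ q') (h3 : q ≠ p') (h4 : q ≠ q') {z : ℝ × ℝ}
    (h : ∃ x, (x = p ∨ x = q) ∧ z ∈ leg Θ x (dep ν N p q))
    (h' : z.2 = dep ν N p' q' ∧ Θ.th p' ≤ z.1 ∧ z.1 ≤ Θ.th q') :
    (dep ν N p q < dep ν N p' q' ∧ ν p' < ν p ∧ ν p < ν q' ∧ ν q' < ν q ∧
      z = (Θ.th p, dep ν N p' q')) ∨
    (dep ν N p q < dep ν N p' q' ∧ ν p < ν p' ∧ ν p' < ν q ∧ ν q < ν q' ∧
      z = (Θ.th q, dep ν N p' q')) := by
  obtain ⟨x, hx, hz⟩ := h
  obtain ⟨e1, e2, e3⟩ := h'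
  have hinj : ∀ a b, a ≠ b → ν a ≠ ν b := by
    intro a b hab h
    have h5 : ¬ Θ.th a < Θ.th b := fun h6 => by have := (hν a b).mp h6; omega
    have h5' : ¬ Θ.th b < Θ.th a := fun h6 => by have := (hν b a).mp h6; omega
    exact hab (Θ.th_inj (le_antisymm (not_lt.mp h5') (not_lt.mp h5)))
  have i1 := hinj _ _ h1
  have i2 := hinj _ _ h2
  have i3 := hinj _ _ h3
  have i4 := hinj _ _ h4
  obtain ⟨l1, l2⟩ := leg_low Θ (dep_lt ν N p q) hz
  have l3 := dep_lt ν N p' q'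
  have l4 : z.1 = Θ.th x := l2 (by linarith)
  have hz' : z = (Θ.th x, dep ν N p' q') := by
    ext
    · exact l4
    · exact e1
  have hlt : dep ν N p q < dep ν N p' q' := lt_of_le_of_ne (by linarith) (dep_ne hN i1)
  have hx1 : ν p' ≤ ν x := by
    by_contra h5
    have := (hν x p').mpr (by omega)
    linarith
  have hx2 : ν x ≤ ν q' := by
    by_contra h5
    have := (hν q' x).mpr (by omega)
    linarith
  rcases hx with rfl | rfl
  · left
    have j1 : ν p' < ν x := by omega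
    have j2 : ν x < ν q' := by omega
    refine ⟨hlt, j1, j2, ?_, hz'⟩
    by_contra h5
    have h6 : ν q < ν q' := by omega
    exact lt_asymm hlt (dep_mono hN hpq j1 h6)
  · right
    have j1 : ν p' < ν x := by omega
    have j2 : ν x < ν q' := by omega
    refine ⟨hlt, ?_, j1, j2, hz'⟩
    by_contra h5
    have h6 : ν p' < ν p := by omega
    exact lt_asymm hlt (dep_mono hN hpq h6 j2)

private theorem cross0 (Θ : Pose D W U u) {ν : D ⊕ W → ℕ} (hν : ∀ p q, Θ.th p < Θ.th q ↔ ν p < ν q)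
    {N : ℕ} (hN : ∀ p, ν p < N) {p q p' q' : D ⊕ W} (hpq : ν p < ν q) (hpq' : ν p' < ν q')
    (h1 : p ≠ p') (h2 : p ≠ q') (h3 : q ≠ p') (h4 : q ≠ q') (hne : ν p ≠ ν p') {z : ℝ × ℝ}
    (h : z ∈ ach Θ p q (dep ν N p q)) (h' : z ∈ ach Θ p' q' (dep ν N p' q')) :
    z ∈ crs Θ ν p q (dep ν N p q) p' q' (dep ν N p' q') ∨ ∃ v, z = (Θ.om v, 1 / 4) := by
  rcases ach_mem Θ ((hν p q).mpr hpq) h with h | h
  · rcases ach_mem Θ ((hν p' q').mpr hpq') h' with h' | h'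
    · exact absurd (h.1.symm.trans h'.1) (dep_ne hN hne)
    · left
      rcases row_leg Θ hν hN hpq' hpq h1.symm h3.symm h2.symm h4.symm h' h with h5 | h5
      · obtain ⟨k1, k2, k3, k4, k5⟩ := h5
        exact Or.inr (Or.inr (Or.inl ⟨k1, k2, k3, k4, k5⟩))
      · obtain ⟨k1, k2, k3, k4, k5⟩ := h5
        exact Or.inr (Or.inr (Or.inr ⟨k1, k2, k3, k4, k5⟩))
  · rcases ach_mem Θ ((hν p' q').mpr hpq') h' with h' | h'
    · left
      rcases row_leg Θ hν hN hpq hpq' h1 h2 h3 h4 h h' with h5 | h5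
      · exact Or.inl h5
      · exact Or.inr (Or.inl h5)
    · exact Or.inr (two_legs Θ h1 h2 h3 h4 (dep_lt _ _ _ _) (dep_lt _ _ _ _) h h')

end aux

theorem arch {D W U : Type} [Finite D] [Finite W] (u : W → U) (Θ : Pose D W U u) (ν : D ⊕ W → ℕ)
    (hν : ∀ p q, Θ.th p < Θ.th q ↔ ν p < ν q) :
    ∃ Ch : D ⊕ W → D ⊕ W → Set (ℝ × ℝ),
      (∀ p q, p ≠ q → (trm u p ≠ trm u q ∨ trm u p = none) → IsArc (Ch p q) (Θ.top p) (Θ.top q)) ∧
      (∀ p q, ∀ z ∈ Ch p q, z ∈ PD ∧ (z.2 ≤ 1 / 4 ∨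
        ∃ d, (p = Sum.inl d ∨ q = Sum.inl d) ∧ z.1 = Θ.th (Sum.inl d) ∧ z.2 ≤ Θ.rad d)) ∧
      (∀ p q v, (Θ.om v, 1 / 4) ∈ Ch p q → trm u p = some v ∨ trm u q = some v) ∧
      (∀ p q p' q', [p, q, p', q'].Nodup → ∃ X : Set (ℝ × ℝ), X.Subsingleton ∧
        (X.Nonempty → Il (ν p) (ν q) (ν p') (ν q')) ∧
        ∀ z ∈ Ch p q, z ∈ Ch p' q' → z ∈ X ∨ ∃ v, z = (Θ.om v, 1 / 4)) ∧
      (∀ p q p' q' p'' q'', [p, q, p', q', p'', q''].Nodup →
        ∀ z ∈ Ch p q, z ∈ Ch p' q' → z ∈ Ch p'' q'' → ∃ v, z = (Θ.om v, 1 / 4)) := by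
  classical
  obtain ⟨M, hM⟩ := (Set.finite_range ν).bddAbove
  have hN : ∀ p, ν p < M + 1 := fun p => Nat.lt_succ_of_le (hM ⟨p, rfl⟩)
  have hinj : ∀ a b, a ≠ b → ν a ≠ ν b := by
    intro a b hab h
    have h5 : ¬ Θ.th a < Θ.th b := fun h6 => by have := (hν a b).mp h6; omega
    have h5' : ¬ Θ.th b < Θ.th a := fun h6 => by have := (hν b a).mp h6; omega
    exact hab (Θ.th_inj (le_antisymm (not_lt.mp h5') (not_lt.mp h5)))
  let Ch : D ⊕ W → D ⊕ W → Set (ℝ × ℝ) := fun p q =>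
    if ν p < ν q then ach Θ p q (dep ν (M + 1) p q) else
      if ν q < ν p then ach Θ q p (dep ν (M + 1) q p) else ∅
  have hCh : ∀ p q, p ≠ q → ∃ a b, ((a = p ∧ b = q) ∨ (a = q ∧ b = p)) ∧ ν a < ν b ∧
      Ch p q = ach Θ a b (dep ν (M + 1) a b) := by
    intro p q hpq
    rcases lt_or_gt_of_ne (hinj p q hpq) with h | h
    · exact ⟨p, q, Or.inl ⟨rfl, rfl⟩, h, by simp only [Ch, if_pos h]⟩
    · exact ⟨q, p, Or.inr ⟨rfl, rfl⟩, h, by simp only [Ch, if_pos h, if_neg (lt_asymm h)]⟩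
  have hCh0 : ∀ p q, ∀ z ∈ Ch p q, p ≠ q := by
    rintro p q z hz rfl
    simp [Ch] at hz
  refine ⟨Ch, ?_, ?_, ?_, ?_, ?_⟩
  · intro p q hpq ht
    obtain ⟨a, b, hab, hlt, hE⟩ := hCh p q hpq
    rw [hE]
    rcases hab with ⟨rfl, rfl⟩ | ⟨rfl, rfl⟩
    · exact ach_arc Θ (dep_lt _ _ _ _) ((hν _ _).mpr hlt) ht
    · refine (ach_arc Θ (dep_lt _ _ _ _) ((hν _ _).mpr hlt) ?_).symm
      rcases ht with ht | ht
      · exact Or.inl ht.symm
      · by_cases h : trm u a = none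
        · exact Or.inr h
        · left
          rw [ht]
          exact h
  · intro p q z hz
    obtain ⟨a, b, hab, hlt, hE⟩ := hCh p q (hCh0 p q z hz)
    rw [hE] at hz
    have h0 := dep_pos ν (M + 1) a b
    have h1 := dep_lt ν (M + 1) a b
    rcases ach_mem Θ ((hν _ _).mpr hlt) hz with ⟨e1, e2, e3⟩ | ⟨x, hx, hz⟩
    · have h2 := Θ.th_gt a
      have h3 := Θ.th_le b
      exact ⟨⟨by linarith, by linarith, by linarith⟩, Or.inl (by linarith)⟩
    · obtain ⟨h2, h3⟩ := leg_dom Θ h0 h1 hz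
      refine ⟨h2, ?_⟩
      rcases h3 with h3 | ⟨d, h3, h4, h5⟩
      · exact Or.inl h3
      · refine Or.inr ⟨d, ?_, h4, h5⟩
        rcases hab with ⟨rfl, rfl⟩ | ⟨rfl, rfl⟩
        · rcases hx with rfl | rfl
          · exact Or.inl h3
          · exact Or.inr h3
        · rcases hx with rfl | rfl
          · exact Or.inr h3
          · exact Or.inl h3
  · intro p q v hz
    obtain ⟨a, b, hab, hlt, hE⟩ := hCh p q (hCh0 p q _ hz)
    rw [hE] at hz
    have h1 := dep_lt ν (M + 1) a b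
    rcases ach_mem Θ ((hν _ _).mpr hlt) hz with ⟨e1, e2, e3⟩ | ⟨x, hx, hz⟩
    · simp only at e1
      linarith
    · have h3 := leg_term Θ h1 hz
      rcases hab with ⟨rfl, rfl⟩ | ⟨rfl, rfl⟩
      · rcases hx with rfl | rfl
        · exact Or.inl h3
        · exact Or.inr h3
      · rcases hx with rfl | rfl
        · exact Or.inr h3
        · exact Or.inl h3
  · intro p q p' q' hnd
    simp only [List.nodup_cons, List.mem_cons, List.not_mem_nil, or_false, not_or] at hnd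
    obtain ⟨⟨n1, n2, n3⟩, ⟨n4, n5⟩, n6, -⟩ := hnd
    obtain ⟨a, b, hab, hlt, hE⟩ := hCh p q n1
    obtain ⟨a', b', hab', hlt', hE'⟩ := hCh p' q' n6
    have m1 : a ≠ a' := by
      rcases hab with ⟨rfl, rfl⟩ | ⟨rfl, rfl⟩ <;> rcases hab' with ⟨rfl, rfl⟩ | ⟨rfl, rfl⟩ <;> assumption
    have m2 : a ≠ b' := by
      rcases hab with ⟨rfl, rfl⟩ | ⟨rfl, rfl⟩ <;> rcases hab' with ⟨rfl, rfl⟩ | ⟨rfl, rfl⟩ <;> assumption
    have m3 : b ≠ a' := by
      rcases hab with ⟨rfl, rfl⟩ | ⟨rfl, rfl⟩ <;> rcases hab' with ⟨rfl, rfl⟩ | ⟨rfl, rfl⟩ <;> assumption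
    have m4 : b ≠ b' := by
      rcases hab with ⟨rfl, rfl⟩ | ⟨rfl, rfl⟩ <;> rcases hab' with ⟨rfl, rfl⟩ | ⟨rfl, rfl⟩ <;> assumption
    refine ⟨crs Θ ν a b (dep ν (M + 1) a b) a' b' (dep ν (M + 1) a' b'), crs_sub _ _ _ _ _ _ _ _, ?_, ?_⟩
    · intro h
      have h5 := crs_il _ _ _ _ _ _ _ _ h
      unfold Il
      rcases hab with ⟨rfl, rfl⟩ | ⟨rfl, rfl⟩ <;> rcases hab' with ⟨rfl, rfl⟩ | ⟨rfl, rfl⟩ <;> omega
    · intro z hz hz'
      rw [hE] at hz
      rw [hE'] at hz'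
      exact cross0 Θ hν hN hlt hlt' m1 m2 m3 m4 (hinj _ _ m1) hz hz'
  · intro p q p' q' p'' q'' hnd z hz hz' hz''
    simp only [List.nodup_cons, List.mem_cons, List.not_mem_nil, or_false, not_or] at hnd
    obtain ⟨⟨n1, n2, n3, n4, n5⟩, ⟨n6, n7, n8, n9⟩, ⟨n10, n11, n12⟩, ⟨n13, n14⟩, n15, -⟩ := hnd
    obtain ⟨a, b, hab, hlt, hE⟩ := hCh p q n1
    obtain ⟨a', b', hab', hlt', hE'⟩ := hCh p' q' n10
    obtain ⟨a'', b'', hab'', hlt'', hE''⟩ := hCh p'' q'' n15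
    rw [hE] at hz
    rw [hE'] at hz'
    rw [hE''] at hz''
    have m1 : a ≠ a' ∧ a ≠ b' ∧ b ≠ a' ∧ b ≠ b' := by
      rcases hab with ⟨rfl, rfl⟩ | ⟨rfl, rfl⟩ <;> rcases hab' with ⟨rfl, rfl⟩ | ⟨rfl, rfl⟩ <;>
        exact ⟨by assumption, by assumption, by assumption, by assumption⟩
    have m2 : a ≠ a'' ∧ a ≠ b'' ∧ b ≠ a'' ∧ b ≠ b'' := by
      rcases hab with ⟨rfl, rfl⟩ | ⟨rfl, rfl⟩ <;> rcases hab'' with ⟨rfl, rfl⟩ | ⟨rfl, rfl⟩ <;>
        exact ⟨by assumption, by assumption, by assumption, by assumption⟩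
    have m3 : a' ≠ a'' ∧ a' ≠ b'' ∧ b' ≠ a'' ∧ b' ≠ b'' := by
      rcases hab' with ⟨rfl, rfl⟩ | ⟨rfl, rfl⟩ <;> rcases hab'' with ⟨rfl, rfl⟩ | ⟨rfl, rfl⟩ <;>
        exact ⟨by assumption, by assumption, by assumption, by assumption⟩
    rcases ach_mem Θ ((hν _ _).mpr hlt) hz with k | k <;>
      rcases ach_mem Θ ((hν _ _).mpr hlt') hz' with k' | k' <;>
      rcases ach_mem Θ ((hν _ _).mpr hlt'') hz'' with k'' | k'' <;>
      first
      | exact two_legs Θ m1.1 m1.2.1 m1.2.2.1 m1.2.2.2 (dep_lt _ _ _ _) (dep_lt _ _ _ _) k k'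
      | exact two_legs Θ m2.1 m2.2.1 m2.2.2.1 m2.2.2.2 (dep_lt _ _ _ _) (dep_lt _ _ _ _) k k''
      | exact two_legs Θ m3.1 m3.2.1 m3.2.2.1 m3.2.2.2 (dep_lt _ _ _ _) (dep_lt _ _ _ _) k' k''
      | exact absurd (k.1.symm.trans k'.1) (dep_ne hN (hinj _ _ m1.1))
      | exact absurd (k.1.symm.trans k''.1) (dep_ne hN (hinj _ _ m2.1))
      | exact absurd (k'.1.symm.trans k''.1) (dep_ne hN (hinj _ _ m3.1))

end Pool.Agent.Helper83.LN
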