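import Pool.Agent.Helper83.LN.Pose
import Pool.Agent.Helper83.LN.Arch

/-!
# LN-5: the picture in a block

Proof. Take `Θ` from `exists_pose`, `ν p = {q | Θ.th q < Θ.th p}.ncard` (finite, `th` injective, so
`Θ.th p < Θ.th q ↔ ν p < ν q` and `ν` is injective), `Ch0` from `arch`, `o` = centre, `P v = pol o (om v, 1/4)`,
`Ch p q = pol o '' Ch0 p q`. `pol o` is injective on `PD`, which contains all `Ch0 p q`, the points `(om v, 1/4)` and
`Θ.top p`. `ppt A P u p = pol o (Θ.top p)`. `isArc`: `isArc_pol`. `sub`: radius `≤ 1/4`: `pol_orect`; on the leg of a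
door: `pol_segment` and `seg_orect`. `term`, `cross`, `triple`: pull back by injectivity (`X := pol o '' X0 ∩ ...`).
-/

namespace Pool.Agent.Helper83.LN

open Set Pool.Agent.Helper83.OP

theorem exists_pic {D W U : Type} [Finite D] [Finite W] [Finite U] {x0 x1 y0 y1 : ℤ} (hx : x0 < x1)
    (hy : y0 < y1) (A : D → ℝ × ℝ) (hA : Function.Injective A) (hc : ∀ d, A d ∈ crect x0 x1 y0 y1)
    (ho : ∀ d, A d ∉ orect x0 x1 y0 y1) (u : W → U) : Nonempty (Pic x0 x1 y0 y1 A u) := by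
  classical
  obtain ⟨Θ, hΘ⟩ := exists_pose hx hy A hA hc ho u
  obtain ⟨ν, hνdef⟩ : ∃ ν : D ⊕ W → ℕ, ∀ p, ν p = {q | Θ.th q < Θ.th p}.ncard := ⟨_, fun _ => rfl⟩
  have hν : ∀ p q, Θ.th p < Θ.th q ↔ ν p < ν q := by
    have key : ∀ p q, Θ.th p < Θ.th q → ν p < ν q := by
      intro p q h
      rw [hνdef, hνdef]
      refine Set.ncard_lt_ncard ⟨fun x hx => lt_trans hx h, fun hs => ?_⟩ (Set.toFinite _)
      have h1 : Θ.th p < Θ.th p := hs (show p ∈ {x | Θ.th x < Θ.th q} from h)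
      exact lt_irrefl _ h1
    intro p q
    refine ⟨key p q, fun h => ?_⟩
    rcases lt_trichotomy (Θ.th p) (Θ.th q) with h1 | h1 | h1
    · exact h1
    · rw [Θ.th_inj h1] at h
      exact absurd h (lt_irrefl _)
    · exact absurd h (key q p h1).le.not_gt
  have hinj : Function.Injective ν := by
    intro p q h
    by_contra hne
    rcases lt_or_gt_of_ne (fun h1 => hne (Θ.th_inj h1)) with h1 | h1
    · exact absurd h ((hν _ _).1 h1).ne
    · exact absurd h ((hν _ _).1 h1).ne'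
  obtain ⟨Ch0, h1, h2, h3, h4, h5⟩ := arch u Θ ν hν
  have hP : ∀ v, ((Θ.om v, 1 / 4) : ℝ × ℝ) ∈ PD := fun v => ⟨Θ.om_gt v, Θ.om_le v, by norm_num⟩
  have htop : ∀ p, ppt A (fun v => pol (ctr x0 x1 y0 y1) (Θ.om v, 1 / 4)) u p =
      pol (ctr x0 x1 y0 y1) (Θ.top p) := by
    rintro (d | w)
    · exact (hΘ d).symm
    · rfl
  refine ⟨{ ν := ν
            P := fun v => pol (ctr x0 x1 y0 y1) (Θ.om v, 1 / 4)
            Ch := fun p q => pol (ctr x0 x1 y0 y1) '' Ch0 p q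
            ν_inj := hinj
            P_inj := ?_
            P_mem := ?_
            isArc := ?_
            sub := ?_
            term := ?_
            cross := ?_
            triple := ?_ }⟩
  · intro v v' h
    exact Θ.om_inj (congrArg Prod.fst (pol_inj _ (hP v) (hP v') h))
  · intro v
    exact pol_orect hx hy _ (by norm_num) le_rfl
  · intro p q hpq ht
    rw [htop, htop]
    exact isArc_pol _ (h1 p q hpq ht) fun z hz => (h2 p q z hz).1
  · rintro p q _ ⟨⟨z1, z2⟩, hz, rfl⟩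
    obtain ⟨hPD, h | ⟨d, hd, e1, e2⟩⟩ := h2 p q _ hz
    · exact Or.inl (pol_orect hx hy _ hPD.2.2 h)
    · simp only at e1 e2
      subst e1
      have hs := pol_segment (ctr x0 x1 y0 y1) (Θ.th (Sum.inl d)) z2 (Θ.rad d) hPD.2.2 e2
      rw [hΘ d] at hs
      rcases seg_orect _ _ _ (ctr_mem hx hy) (hc d) hs with h | h
      · exact Or.inr ⟨d, hd, h⟩
      · exact Or.inl h
  · rintro p q v ⟨z, hz, hzv⟩
    have h := pol_inj _ (h2 p q z hz).1 (hP v) hzv
    exact h3 p q v (h ▸ hz)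
  · intro p q p' q' hn
    obtain ⟨X, hX1, hX2, hX3⟩ := h4 p q p' q' hn
    refine ⟨pol (ctr x0 x1 y0 y1) '' X, hX1.image _, fun hne => hX2 hne.of_image, ?_⟩
    rintro _ ⟨z, hz, rfl⟩ ⟨z', hz', e⟩
    have h := pol_inj _ (h2 _ _ _ hz').1 (h2 _ _ _ hz).1 e
    subst h
    rcases hX3 _ hz hz' with h | ⟨v, h⟩
    · exact Or.inl ⟨_, h, rfl⟩
    · exact Or.inr ⟨v, by rw [h]⟩
  · rintro p q p' q' p'' q'' hn _ ⟨z, hz, rfl⟩ ⟨z', hz', e⟩ ⟨z'', hz'', e'⟩
    have h := pol_inj _ (h2 _ _ _ hz').1 (h2 _ _ _ hz).1 e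
    have h' := pol_inj _ (h2 _ _ _ hz'').1 (h2 _ _ _ hz).1 e'
    subst h
    subst h'
    obtain ⟨v, h⟩ := h5 p q p' q' p'' q'' hn _ hz hz' hz''
    exact ⟨v, by rw [h]⟩

end Pool.Agent.Helper83.LN
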