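import Pool.Agent.Helper83.LN.Geo
import Pool.Agent.Helper83.LN.MinLanes
import Pool.Agent.Helper83.LN.Geodesics

/-!
# LN-11: curves along given consistent geodesics

Proof. `n = Nat.card T`, `ν` from `geo`; `R τ = ρ (pl (a τ)) (pl (b τ))` for `τ ∈ Q`, `R τ = R0 τ` otherwise; lanes
from `min_lanes`; then `geo` gives `P`, `E`. `{j | XJ ...}` is contained in `common (R τ) (R τ')`, which is finite,
and is a subsingleton if both are in `Q`; so its `encard` is at most `mult`.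
-/

namespace Pool.Agent.Helper83.LN

open Set Pool.Agent.Helper83.OP

theorem rt_finite {J I : Type} {src tgt : I → J} (R : Rt J I src tgt) (R' : Rt J I src tgt) :
    (common R R').Finite := by
  refine Set.Finite.subset ((Set.finite_Iic R.len).image R.nd) ?_
  rintro j ⟨⟨s, hs, h⟩, -⟩
  exact ⟨s, hs, h⟩

theorem draw {J I U T : Type} [Finite J] [Finite I] [Finite U] [Finite T]
    {src tgt : I → J} (hst : ∀ i, src i ≠ tgt i) (L : Layout J I src tgt) (pl : U → J)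
    (a b : T → U) (hab : ∀ τ, a τ ≠ b τ) (Q : Set T) (ρ : J → J → Rt J I src tgt)
    (hρ1 : ∀ j j', (∃ l, Wk src tgt j j' l) → (ρ j j').From j j')
    (hρ2 : ∀ j₁ j₂ j₃ j₄, (∃ l, Wk src tgt j₁ j₂ l) → (∃ l, Wk src tgt j₃ j₄ l) →
        Conn (ρ j₁ j₂) (ρ j₃ j₄)) (R0 : T → Rt J I src tgt)
    (h0 : ∀ τ, (R0 τ).From (pl (a τ)) (pl (b τ))) :
    ∃ R : T → Rt J I src tgt, (∀ τ, (R τ).From (pl (a τ)) (pl (b τ))) ∧
      (∀ τ, τ ∉ Q → R τ = R0 τ) ∧ (∀ τ ∈ Q, R τ = ρ (pl (a τ)) (pl (b τ))) ∧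
      ∃ (P : U → ℝ × ℝ) (E : T → Set (ℝ × ℝ)), Drw a b P E ∧
        ∀ τ τ', τ ≠ τ' → (Xs P E τ τ').encard ≤ (mult R Q τ τ' : ℕ∞) := by
  classical
  obtain ⟨ν, -, hgeo⟩ := geo hst L pl a b hab (Nat.card T)
  have hwk : ∀ τ, ∃ l, Wk src tgt (pl (a τ)) (pl (b τ)) l := by
    intro τ
    obtain ⟨l, hl, -⟩ := rt_wk (R0 τ) (fun _ => 0) (Nat.zero_le _) le_rfl
    rw [(h0 τ).1, (h0 τ).2] at hl
    exact ⟨l, hl⟩
  let R : T → Rt J I src tgt := fun τ => if τ ∈ Q then ρ (pl (a τ)) (pl (b τ)) else R0 τ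
  have hRQ : ∀ τ ∈ Q, R τ = ρ (pl (a τ)) (pl (b τ)) := fun τ h => by
    simp only [R]
    rw [if_pos h]
  have hRN : ∀ τ, τ ∉ Q → R τ = R0 τ := fun τ h => by
    simp only [R]
    rw [if_neg h]
  have hF : ∀ τ, (R τ).From (pl (a τ)) (pl (b τ)) := by
    intro τ
    by_cases h : τ ∈ Q
    · rw [hRQ τ h]
      exact hρ1 _ _ (hwk τ)
    · rw [hRN τ h]
      exact h0 τ
  obtain ⟨lam, hlam, hmin⟩ := min_lanes R (Nat.card T) le_rfl ν Q (by
    intro τ h τ' h' _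
    rw [hRQ τ h, hRQ τ' h']
    exact hρ2 _ _ _ _ (hwk τ) (hwk τ'))
  obtain ⟨P, E, hD, hX⟩ := hgeo R lam hF hlam
  refine ⟨R, hF, hRN, hRQ, P, E, hD, ?_⟩
  intro τ τ' hne
  refine (hX τ τ' hne).trans ?_
  have hsub : {j | XJ R ν lam τ τ' j} ⊆ common (R τ) (R τ') := by
    rintro j ⟨s, hs, t, ht, h1, h2, -⟩
    exact ⟨⟨s, hs, h1⟩, ⟨t, ht, h2⟩⟩
  have hfin := rt_finite (R τ) (R τ')
  have h1 : {j | XJ R ν lam τ τ' j}.encard ≤ ((common (R τ) (R τ')).ncard : ℕ∞) := by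
    rw [hfin.cast_ncard_eq]
    exact Set.encard_le_encard hsub
  unfold mult
  split_ifs with h
  · have h2 : {j | XJ R ν lam τ τ' j}.encard ≤ 1 :=
      Set.encard_le_one_iff_subsingleton.2 (hmin τ h.1 τ' h.2 hne)
    rcases min_choice 1 (common (R τ) (R τ')).ncard with h3 | h3
    · rw [h3]
      exact_mod_cast h2
    · rw [h3]
      exact h1
  · exact h1

end Pool.Agent.Helper83.LN
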