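import Pool.Agent.Helper83.LN.Strand
import Pool.Agent.Helper83.LN.Block

/-!
# LN-6: the drawing of the routes

For the node `j` let `D j = {q : I × Bool × ℕ // nend src tgt q.1 q.2.1 = j ∧ q.2.2 < n}` (finite),
`W j = {q : T × Bool // pl (tv q) = j}`, `U j = {v : U // pl v = j}`,
`tv (τ, false) = a τ`, `tv (τ, true) = b τ`, doors `S.dr i e l` (`S : Lns L`), `Pic` from `exists_pic` at every node.
`ν` of an ok port is its number in the `Pic` of its node (0 for other ports), `P v` from the `Pic` of `pl v`.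
The curve `E τ` is the union of the block curves `C t = Ch (ent t) (ext t)` in the block of `nd t` (`t ≤ len`) and
the strands `St (ar t) (lam τ (ar t))` (`t < len`); arc by induction on `t` with `IsArc.union`.
-/

namespace Pool.Agent.Helper83.LN

open Set Pool.Agent.Helper83.OP

section Loc

variable {J I : Type} {src tgt : I → J} {L : Layout J I src tgt}

/-- the open rectangle of a node -/
def Ore (L : Layout J I src tgt) (j : J) : Set (ℝ × ℝ) := orect (L.x0 j) (L.x1 j) (L.y0 j) (L.y1 j)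

/-- the closed rectangle of a node -/
def Cre (L : Layout J I src tgt) (j : J) : Set (ℝ × ℝ) := crect (L.x0 j) (L.x1 j) (L.y0 j) (L.y1 j)

theorem dr_mem (S : Lns L) (i : I) (e : Bool) (l : ℕ) : S.dr i e l ∈ S.St i l := by
  cases e
  · exact (S.isArc i l).left_mem
  · exact (S.isArc i l).right_mem

theorem dr_cre (S : Lns L) (i : I) (e : Bool) (l : ℕ) : S.dr i e l ∈ Cre L (nend src tgt i e) := by
  cases e
  · exact cell_crect _ (L.cs_mem i) (S.A_mem i l)
  · exact cell_crect _ (L.ce_mem i) (S.B_mem i l)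

theorem st_nore (S : Lns L) {i : I} {l : ℕ} {z : ℝ × ℝ} (hz : z ∈ S.St i l) (j : J) :
    z ∉ Ore L j := by
  intro h
  obtain ⟨c, hc, hzc⟩ := S.some i l z hz
  exact L.cells_free i c hc j (orect_cell z h c hzc)

theorem ore_sub_cre {j : J} {z : ℝ × ℝ} (h : z ∈ Ore L j) : z ∈ Cre L j :=
  ⟨⟨h.1.1.le, h.1.2.le⟩, ⟨h.2.1.le, h.2.2.le⟩⟩

theorem cre_ore {j j' : J} {z : ℝ × ℝ} (h : z ∈ Cre L j) (h' : z ∈ Ore L j') : j = j' := by
  obtain ⟨c, hc, hzc⟩ := crect_cell (L.hx j) (L.hy j) z h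
  exact L.blocks _ _ c hc (orect_cell z h' c hzc)

theorem cre_st (S : Lns L) {j : J} {i : I} {l : ℕ} {z : ℝ × ℝ} (h : z ∈ Cre L j)
    (h' : z ∈ S.St i l) : ∃ e, nend src tgt i e = j ∧ z = S.dr i e l := by
  obtain ⟨c, hc, hzc⟩ := crect_cell (L.hx j) (L.hy j) z h
  rcases S.only i l z h' c hzc with h1 | ⟨h1, h2⟩ | ⟨h1, h2⟩
  · exact absurd hc (L.cells_free i c h1 j)
  · subst h1
    exact ⟨false, L.blocks _ _ _ (L.cs_mem i) hc, h2⟩
  · subst h1
    exact ⟨true, L.blocks _ _ _ (L.ce_mem i) hc, h2⟩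

theorem st_disj (S : Lns L) {i i' : I} {l l' : ℕ} {z : ℝ × ℝ} (h : z ∈ S.St i l)
    (h' : z ∈ S.St i' l') : i = i' ∧ l = l' := by
  by_cases hi : i = i'
  · subst hi
    refine ⟨rfl, ?_⟩
    by_contra hl
    exact Set.disjoint_left.1 (S.disj i l l' hl) h h'
  · exfalso
    obtain ⟨c, hc, hzc⟩ := S.some i l z h
    rcases S.only i' l' z h' c hzc with h1 | ⟨h1, -⟩ | ⟨h1, -⟩
    · exact L.cells_disj i i' hi c hc h1
    · subst h1
      exact L.cells_free i _ hc _ (L.cs_mem i')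
    · subst h1
      exact L.cells_free i _ hc _ (L.ce_mem i')

theorem dr_inj (S : Lns L) {i i' : I} {e e' : Bool} {l l' : ℕ} (h : S.dr i e l = S.dr i' e' l') :
    i = i' ∧ e = e' ∧ l = l' := by
  have h1 := dr_mem S i e l
  have h2 := dr_mem S i' e' l'
  rw [h] at h1
  obtain ⟨h3, h4⟩ := st_disj S h1 h2
  subst h3
  subst h4
  refine ⟨rfl, ?_, rfl⟩
  have hne := (S.isArc i l).ne
  cases e <;> cases e'
  · rfl
  · exact absurd h hne
  · exact absurd h.symm hne
  · rfl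

end Loc

section Bl

variable {J I U T : Type} {src tgt : I → J} {L : Layout J I src tgt}

/-- the terminal of a curve end -/
def tv (a b : T → U) (q : T × Bool) : U := bif q.2 then b q.1 else a q.1

/-- the terminal of a port -/
def tmP (a b : T → U) : Port T I → Option U
  | Sum.inl q => some (tv a b q)
  | Sum.inr _ => none

/-- ports of the block of `j` -/
def Pj (src tgt : I → J) (pl : U → J) (a b : T → U) (n : ℕ) (j : J) (p : Port T I) : Prop :=
  okP n p ∧ pnode src tgt (fun τ => pl (a τ)) (fun τ => pl (b τ)) p = j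

/-- the point of a port -/
def ptP (S : Lns L) (a b : T → U) (P : U → ℝ × ℝ) : Port T I → ℝ × ℝ
  | Sum.inl q => P (tv a b q)
  | Sum.inr q => S.dr q.1 q.2.1 q.2.2

/-- the pictures in all blocks -/
structure BL (S : Lns L) (pl : U → J) (a b : T → U) (n : ℕ) where
  ν : Port T I → ℕ
  P : U → ℝ × ℝ
  C : J → Port T I → Port T I → Set (ℝ × ℝ)
  ν_inj : ∀ j p q, Pj src tgt pl a b n j p → Pj src tgt pl a b n j q → ν p = ν q → p = q
  P_mem : ∀ v, P v ∈ Ore L (pl v)
  P_inj : Function.Injective P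
  isArc : ∀ j p q, Pj src tgt pl a b n j p → Pj src tgt pl a b n j q → p ≠ q →
    (tmP a b p ≠ tmP a b q ∨ tmP a b p = none) → IsArc (C j p q) (ptP S a b P p) (ptP S a b P q)
  sub : ∀ j p q, Pj src tgt pl a b n j p → Pj src tgt pl a b n j q → ∀ z ∈ C j p q,
    z ∈ Ore L j ∨ ∃ i e l, (p = Sum.inr (i, e, l) ∨ q = Sum.inr (i, e, l)) ∧ z = S.dr i e l
  term : ∀ j p q, Pj src tgt pl a b n j p → Pj src tgt pl a b n j q → ∀ v, P v ∈ C j p q →
    tmP a b p = some v ∨ tmP a b q = some v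
  cross : ∀ j p q p' q', Pj src tgt pl a b n j p → Pj src tgt pl a b n j q →
    Pj src tgt pl a b n j p' → Pj src tgt pl a b n j q' → [p, q, p', q'].Nodup →
    ∃ X : Set (ℝ × ℝ), X.Subsingleton ∧ (X.Nonempty → Il (ν p) (ν q) (ν p') (ν q')) ∧
      ∀ z ∈ C j p q, z ∈ C j p' q' → z ∈ X ∨ ∃ v, z = P v
  triple : ∀ j p q p' q' p'' q'', Pj src tgt pl a b n j p → Pj src tgt pl a b n j q →
    Pj src tgt pl a b n j p' → Pj src tgt pl a b n j q' → Pj src tgt pl a b n j p'' →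
    Pj src tgt pl a b n j q'' → [p, q, p', q', p'', q''].Nodup →
    ∀ z ∈ C j p q, z ∈ C j p' q' → z ∈ C j p'' q'' → ∃ v, z = P v

theorem exists_BL [Finite I] [Finite U] [Finite T] (S : Lns L) (pl : U → J) (a b : T → U)
    (n : ℕ) : Nonempty (BL S pl a b n) := by
  classical
  have hpic : ∀ j : J, Nonempty (Pic (D := {q : I × Bool × ℕ // nend src tgt q.1 q.2.1 = j ∧ q.2.2 < n})
      (W := {q : T × Bool // pl (tv a b q) = j}) (U := {v : U // pl v = j})
      (L.x0 j) (L.x1 j) (L.y0 j) (L.y1 j)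
      (fun d => S.dr d.1.1 d.1.2.1 d.1.2.2) (fun w => ⟨tv a b w.1, w.2⟩)) := by
    intro j
    have hD : Finite {q : I × Bool × ℕ // nend src tgt q.1 q.2.1 = j ∧ q.2.2 < n} := by
      refine Finite.of_injective
        (fun q => ((q.1.1, q.1.2.1, (⟨q.1.2.2, q.2.2⟩ : Fin n)) : I × Bool × Fin n)) ?_
      rintro ⟨⟨i, e, l⟩, h⟩ ⟨⟨i', e', l'⟩, h'⟩ hh
      simp only [Prod.mk.injEq, Fin.mk.injEq] at hh
      obtain ⟨h1, h2, h3⟩ := hh
      subst h1; subst h2; subst h3
      rfl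
    refine exists_pic (L.hx j) (L.hy j) _ ?_ ?_ ?_ _
    · rintro ⟨⟨i, e, l⟩, h⟩ ⟨⟨i', e', l'⟩, h'⟩ hh
      obtain ⟨h1, h2, h3⟩ := dr_inj S hh
      subst h1; subst h2; subst h3
      rfl
    · rintro ⟨⟨i, e, l⟩, h, -⟩
      have := dr_cre S i e l
      rw [show nend src tgt i e = j from h] at this
      exact this
    · rintro ⟨⟨i, e, l⟩, h, -⟩
      exact st_nore S (dr_mem S i e l) j
  obtain ⟨pic⟩ := Classical.nonempty_pi.2 hpic
  -- conversion of ports
  let tp : (j : J) → (p : Port T I) → Pj src tgt pl a b n j p →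
      {q : I × Bool × ℕ // nend src tgt q.1 q.2.1 = j ∧ q.2.2 < n} ⊕
        {q : T × Bool // pl (tv a b q) = j} := fun j p =>
    match p with
    | Sum.inl q => fun h => Sum.inr ⟨q, by
        obtain ⟨τ, e⟩ := q
        cases e
        · exact h.2
        · exact h.2⟩
    | Sum.inr q => fun h => Sum.inl ⟨q, h.2, h.1⟩
  have tp_inj : ∀ j p q hp hq, tp j p hp = tp j q hq → p = q := by
    intro j p q hp hq h
    rcases p with p | p <;> rcases q with q | q
    · have h1 := Sum.inr.inj h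
      have h2 := congrArg Subtype.val h1
      exact congrArg Sum.inl h2
    · exact absurd h (by simp [tp])
    · exact absurd h (by simp [tp])
    · have h1 := Sum.inl.inj h
      have h2 := congrArg Subtype.val h1
      exact congrArg Sum.inr h2
  have tp_trm : ∀ j p hp, (trm (fun w : {q : T × Bool // pl (tv a b q) = j} =>
      (⟨tv a b w.1, w.2⟩ : {v : U // pl v = j})) (tp j p hp)).map Subtype.val = tmP a b p := by
    intro j p hp
    rcases p with p | p
    · rfl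
    · rfl
  let ν : Port T I → ℕ := fun p =>
    if h : okP n p then
      (pic (pnode src tgt (fun τ => pl (a τ)) (fun τ => pl (b τ)) p)).ν (tp _ p ⟨h, rfl⟩)
    else 0
  have hν : ∀ j p (h : Pj src tgt pl a b n j p), ν p = (pic j).ν (tp j p h) := by
    intro j p h
    obtain ⟨h1, h2⟩ := h
    subst h2
    simp only [ν]
    rw [dif_pos h1]
  let P : U → ℝ × ℝ := fun v => (pic (pl v)).P ⟨v, rfl⟩
  have hP : ∀ j v (h : pl v = j), P v = (pic j).P ⟨v, h⟩ := by
    intro j v h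
    subst h
    rfl
  have hPmem : ∀ v, P v ∈ Ore L (pl v) := fun v => (pic (pl v)).P_mem _
  let C : J → Port T I → Port T I → Set (ℝ × ℝ) := fun j p q =>
    {z | ∃ (hp : Pj src tgt pl a b n j p) (hq : Pj src tgt pl a b n j q),
      z ∈ (pic j).Ch (tp j p hp) (tp j q hq)}
  have hC : ∀ j p q (hp : Pj src tgt pl a b n j p) (hq : Pj src tgt pl a b n j q),
      C j p q = (pic j).Ch (tp j p hp) (tp j q hq) := by
    intro j p q hp hq
    ext z
    exact ⟨fun ⟨_, _, h⟩ => h, fun h => ⟨hp, hq, h⟩⟩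
  have hpt : ∀ j p (hp : Pj src tgt pl a b n j p), ppt
      (fun d : {q : I × Bool × ℕ // nend src tgt q.1 q.2.1 = j ∧ q.2.2 < n} =>
        S.dr d.1.1 d.1.2.1 d.1.2.2) (pic j).P
      (fun w : {q : T × Bool // pl (tv a b q) = j} =>
        (⟨tv a b w.1, w.2⟩ : {v : U // pl v = j})) (tp j p hp) = ptP S a b P p := by
    intro j p hp
    rcases p with p | p
    · have h1 : pl (tv a b p) = j := by
        obtain ⟨τ, e⟩ := p
        cases e
        · exact hp.2
        · exact hp.2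
      exact (hP j _ h1).symm
    · rfl
  have hnd4 : ∀ j p q p' q' hp hq hp' hq', [p, q, p', q'].Nodup →
      [tp j p hp, tp j q hq, tp j p' hp', tp j q' hq'].Nodup := by
    intro j p q p' q' hp hq hp' hq' h
    simp only [List.nodup_cons, List.mem_cons, List.not_mem_nil, or_false, not_or, not_false_eq_true,
      List.nodup_nil, and_true] at h ⊢
    obtain ⟨⟨h1, h2, h3⟩, ⟨h4, h5⟩, h6⟩ := h
    exact ⟨⟨fun h => h1 (tp_inj _ _ _ _ _ h), fun h => h2 (tp_inj _ _ _ _ _ h),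
      fun h => h3 (tp_inj _ _ _ _ _ h)⟩, ⟨fun h => h4 (tp_inj _ _ _ _ _ h),
      fun h => h5 (tp_inj _ _ _ _ _ h)⟩, fun h => h6 (tp_inj _ _ _ _ _ h)⟩
  refine ⟨⟨ν, P, C, ?_, hPmem, ?_, ?_, ?_, ?_, ?_, ?_⟩⟩
  · intro j p q hp hq h
    rw [hν j p hp, hν j q hq] at h
    exact tp_inj _ _ _ _ _ ((pic j).ν_inj h)
  · intro v w h
    have h1 : pl v = pl w := by
      have h2 := hPmem w
      rw [← h] at h2
      exact cre_ore (ore_sub_cre (hPmem v)) h2
    rw [hP _ v h1, hP _ w rfl] at h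
    exact congrArg Subtype.val ((pic (pl w)).P_inj h)
  · intro j p q hp hq hne ht
    rw [hC j p q hp hq, ← hpt j p hp, ← hpt j q hq]
    refine (pic j).isArc _ _ (fun h => hne (tp_inj _ _ _ _ _ h)) ?_
    rw [← tp_trm j p hp, ← tp_trm j q hq] at ht
    rcases ht with ht | ht
    · exact Or.inl fun h => ht (by rw [h])
    · exact Or.inr (Option.map_eq_none_iff.1 ht)
  · intro j p q hp hq z hz
    rw [hC j p q hp hq] at hz
    rcases (pic j).sub _ _ z hz with h | ⟨d, h, h'⟩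
    · exact Or.inl h
    · right
      obtain ⟨⟨i, e, l⟩, h1, h2⟩ := d
      refine ⟨i, e, l, ?_, h'⟩
      have key : ∀ p hp, tp j p hp = Sum.inl ⟨(i, e, l), h1, h2⟩ → p = Sum.inr (i, e, l) := by
        intro p hp h
        rcases p with p | p
        · exact absurd h (by simp [tp])
        · have h3 := congrArg Subtype.val (Sum.inl.inj h)
          exact congrArg Sum.inr h3
      rcases h with h | h
      · exact Or.inl (key _ _ h)
      · exact Or.inr (key _ _ h)
  · intro j p q hp hq v hz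
    rw [hC j p q hp hq] at hz
    have h1 : pl v = j := by
      have h2 := hPmem v
      rcases (pic j).sub _ _ _ hz with h | ⟨d, h, h'⟩
      · exact cre_ore (ore_sub_cre (hPmem v)) h
      · exfalso
        rw [h'] at h2
        exact st_nore S (dr_mem S _ _ _) _ h2
    rw [hP j v h1] at hz
    rw [← tp_trm j p hp, ← tp_trm j q hq]
    rcases (pic j).term _ _ _ hz with h | h
    · left; rw [h]; rfl
    · right; rw [h]; rfl
  · intro j p q p' q' hp hq hp' hq' hnd
    obtain ⟨X, h1, h2, h3⟩ := (pic j).cross _ _ _ _ (hnd4 j p q p' q' hp hq hp' hq' hnd)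
    refine ⟨X, h1, ?_, ?_⟩
    · rw [hν j p hp, hν j q hq, hν j p' hp', hν j q' hq']
      exact h2
    · intro z hz hz'
      rw [hC j p q hp hq] at hz
      rw [hC j p' q' hp' hq'] at hz'
      rcases h3 z hz hz' with h | ⟨v, h⟩
      · exact Or.inl h
      · refine Or.inr ⟨v.1, ?_⟩
        rw [hP j v.1 v.2]
        exact h
  · intro j p q p' q' p'' q'' hp hq hp' hq' hp'' hq'' hnd z hz hz' hz''
    rw [hC j p q hp hq] at hz
    rw [hC j p' q' hp' hq'] at hz'
    rw [hC j p'' q'' hp'' hq''] at hz''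
    have hnd' : [tp j p hp, tp j q hq, tp j p' hp', tp j q' hq', tp j p'' hp'',
        tp j q'' hq''].Nodup := by
      simp only [List.nodup_cons, List.mem_cons, List.not_mem_nil, or_false, not_or,
        not_false_eq_true, List.nodup_nil, and_true] at hnd ⊢
      obtain ⟨⟨h1, h2, h3, h4, h5⟩, ⟨h6, h7, h8, h9⟩, ⟨h10, h11, h12⟩, ⟨h13, h14⟩, h15⟩ := hnd
      exact ⟨⟨fun h => h1 (tp_inj _ _ _ _ _ h), fun h => h2 (tp_inj _ _ _ _ _ h),
        fun h => h3 (tp_inj _ _ _ _ _ h), fun h => h4 (tp_inj _ _ _ _ _ h),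
        fun h => h5 (tp_inj _ _ _ _ _ h)⟩, ⟨fun h => h6 (tp_inj _ _ _ _ _ h),
        fun h => h7 (tp_inj _ _ _ _ _ h), fun h => h8 (tp_inj _ _ _ _ _ h),
        fun h => h9 (tp_inj _ _ _ _ _ h)⟩, ⟨fun h => h10 (tp_inj _ _ _ _ _ h),
        fun h => h11 (tp_inj _ _ _ _ _ h), fun h => h12 (tp_inj _ _ _ _ _ h)⟩,
        ⟨fun h => h13 (tp_inj _ _ _ _ _ h), fun h => h14 (tp_inj _ _ _ _ _ h)⟩,
        fun h => h15 (tp_inj _ _ _ _ _ h)⟩
    obtain ⟨v, h⟩ := (pic j).triple _ _ _ _ _ _ hnd' z hz hz' hz''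
    refine ⟨v.1, ?_⟩
    rw [hP j v.1 v.2]
    exact h

end Bl

/-! ## Routes -/

section Routes

variable {J I U T : Type} {src tgt : I → J}

theorem Rt.ar_inj (R : Rt J I src tgt) {s t : ℕ} (hs : s < R.len) (ht : t < R.len)
    (h : R.ar s = R.ar t) : s = t := by
  have f1 := R.fst s hs
  have f2 := R.snd s hs
  have g1 := R.fst t ht
  have g2 := R.snd t ht
  rw [h] at f1 f2
  by_cases hd : R.dir s = R.dir t
  · rw [hd] at f1
    exact R.inj _ _ hs.le ht.le (f1.symm.trans g1)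
  · have hd' : R.dir s = !R.dir t := by
      cases h1 : R.dir s <;> cases h2 : R.dir t <;> simp_all
    rw [hd'] at f1 f2
    rw [Bool.not_not] at f2
    have e1 := R.inj _ _ hs.le (Nat.succ_le_of_lt ht) (f1.symm.trans g2)
    have e2 := R.inj _ _ (Nat.succ_le_of_lt hs) ht.le (f2.symm.trans g1)
    omega

variable {pl : U → J} {a b : T → U} {n : ℕ} {R : T → Rt J I src tgt} {lam : T → I → ℕ}

theorem ent_pj (hF : ∀ τ, (R τ).From (pl (a τ)) (pl (b τ))) (hL : Lanes R n lam) (τ : T) {t : ℕ}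
    (ht : t ≤ (R τ).len) : Pj src tgt pl a b n ((R τ).nd t) ((R τ).ent τ (lam τ) t) := by
  cases t with
  | zero => exact ⟨trivial, (hF τ).1.symm⟩
  | succ t => exact ⟨hL.lt τ t ht, (R τ).snd t ht⟩

theorem ext_pj (hF : ∀ τ, (R τ).From (pl (a τ)) (pl (b τ))) (hL : Lanes R n lam) (τ : T) {t : ℕ}
    (ht : t ≤ (R τ).len) : Pj src tgt pl a b n ((R τ).nd t) ((R τ).ext τ (lam τ) t) := by
  unfold Rt.ext
  split_ifs with h
  · subst h
    exact ⟨trivial, (hF τ).2.symm⟩
  · have ht' : t < (R τ).len := lt_of_le_of_ne ht h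
    exact ⟨hL.lt τ t ht', (R τ).fst t ht'⟩

theorem ent_inr {τ : T} {l : I → ℕ} {R : Rt J I src tgt} {t : ℕ} {i : I} {e : Bool} {k : ℕ}
    (h : R.ent τ l t = Sum.inr (i, e, k)) :
    ∃ s, t = s + 1 ∧ R.ar s = i ∧ e = !R.dir s ∧ k = l i := by
  cases t with
  | zero => exact absurd h (by simp [Rt.ent])
  | succ s =>
    have h1 := Sum.inr.inj h
    simp only [Prod.mk.injEq] at h1
    obtain ⟨h2, h3, h4⟩ := h1
    exact ⟨s, rfl, h2, h3.symm, by rw [← h4, h2]⟩

theorem ext_inr {τ : T} {l : I → ℕ} {R : Rt J I src tgt} {t : ℕ} {i : I} {e : Bool} {k : ℕ}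
    (h : R.ext τ l t = Sum.inr (i, e, k)) :
    t ≠ R.len ∧ R.ar t = i ∧ e = R.dir t ∧ k = l i := by
  unfold Rt.ext at h
  split_ifs at h with h0
  have h1 := Sum.inr.inj h
  simp only [Prod.mk.injEq] at h1
  obtain ⟨h2, h3, h4⟩ := h1
  exact ⟨h0, h2, h3.symm, by rw [← h4, h2]⟩

theorem ent_inl {τ : T} {l : I → ℕ} {R : Rt J I src tgt} {t : ℕ} {q : T × Bool}
    (h : R.ent τ l t = Sum.inl q) : t = 0 ∧ q = (τ, false) := by
  cases t with
  | zero => exact ⟨rfl, (Sum.inl.inj h).symm⟩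
  | succ s => exact absurd h (by simp [Rt.ent])

theorem ext_inl {τ : T} {l : I → ℕ} {R : Rt J I src tgt} {t : ℕ} {q : T × Bool}
    (h : R.ext τ l t = Sum.inl q) : t = R.len ∧ q = (τ, true) := by
  unfold Rt.ext at h
  split_ifs at h with h0
  · exact ⟨h0, (Sum.inl.inj h).symm⟩

theorem ent_ne_ext (R : Rt J I src tgt) (τ : T) (l : I → ℕ) {t : ℕ} (ht : t ≤ R.len) :
    R.ent τ l t ≠ R.ext τ l t := by
  intro h
  rcases h1 : R.ext τ l t with q | ⟨i, e, k⟩
  · rw [h1] at h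
    have h2 := (ent_inl h).2
    have h3 := (ext_inl h1).2
    rw [h2] at h3
    simp at h3
  · rw [h1] at h
    obtain ⟨s, h2, h3, h4, -⟩ := ent_inr h
    obtain ⟨h5, h6, h7, -⟩ := ext_inr h1
    subst h2
    have := R.ar_inj (show s < R.len by omega) (lt_of_le_of_ne ht h5) (h3.trans h6.symm)
    omega

/-- ports of different curves are different -/
theorem port_ne (hL : Lanes R n lam) {τ τ' : T} (hne : τ ≠ τ') {s t : ℕ} (hs : s ≤ (R τ).len)
    (ht : t ≤ (R τ').len) {p q : Port T I}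
    (hp : p = (R τ).ent τ (lam τ) s ∨ p = (R τ).ext τ (lam τ) s)
    (hq : q = (R τ').ent τ' (lam τ') t ∨ q = (R τ').ext τ' (lam τ') t) : p ≠ q := by
  rintro rfl
  rcases p with ⟨τ₀, e₀⟩ | ⟨i, e, k⟩
  · have h1 : τ₀ = τ := by
      rcases hp with h | h
      · exact congrArg Prod.fst (ent_inl h.symm).2
      · exact congrArg Prod.fst (ext_inl h.symm).2
    have h2 : τ₀ = τ' := by
      rcases hq with h | h
      · exact congrArg Prod.fst (ent_inl h.symm).2
      · exact congrArg Prod.fst (ext_inl h.symm).2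
    exact hne (h1.symm.trans h2)
  · have h1 : ∃ u < (R τ).len, (R τ).ar u = i ∧ k = lam τ i := by
      rcases hp with h | h
      · obtain ⟨u, h2, h3, -, h5⟩ := ent_inr h.symm
        exact ⟨u, by omega, h3, h5⟩
      · obtain ⟨h2, h3, -, h5⟩ := ext_inr h.symm
        exact ⟨s, by omega, h3, h5⟩
    have h1' : ∃ u < (R τ').len, (R τ').ar u = i ∧ k = lam τ' i := by
      rcases hq with h | h
      · obtain ⟨u, h2, h3, -, h5⟩ := ent_inr h.symm
        exact ⟨u, by omega, h3, h5⟩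
      · obtain ⟨h2, h3, -, h5⟩ := ext_inr h.symm
        exact ⟨t, by omega, h3, h5⟩
    obtain ⟨u, hu, h2, h3⟩ := h1
    obtain ⟨u', hu', h2', h3'⟩ := h1'
    have := hL.ne τ τ' hne u hu u' hu' (h2.trans h2'.symm)
    rw [h2, h2'] at this
    exact this (h3.symm.trans h3')

theorem nodup4 (hL : Lanes R n lam) {τ τ' : T} (hne : τ ≠ τ') {s t : ℕ} (hs : s ≤ (R τ).len)
    (ht : t ≤ (R τ').len) :
    [(R τ).ent τ (lam τ) s, (R τ).ext τ (lam τ) s, (R τ').ent τ' (lam τ') t,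
      (R τ').ext τ' (lam τ') t].Nodup := by
  simp only [List.nodup_cons, List.mem_cons, List.not_mem_nil, or_false, not_or, not_false_eq_true,
    List.nodup_nil, and_true]
  exact ⟨⟨ent_ne_ext _ _ _ hs, port_ne hL hne hs ht (Or.inl rfl) (Or.inl rfl),
    port_ne hL hne hs ht (Or.inl rfl) (Or.inr rfl)⟩,
    ⟨port_ne hL hne hs ht (Or.inr rfl) (Or.inl rfl),
    port_ne hL hne hs ht (Or.inr rfl) (Or.inr rfl)⟩, ent_ne_ext _ _ _ ht⟩

theorem nodup6 (hL : Lanes R n lam) {τ τ' τ'' : T} (h1 : τ ≠ τ') (h2 : τ ≠ τ'') (h3 : τ' ≠ τ'')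
    {s t u : ℕ} (hs : s ≤ (R τ).len) (ht : t ≤ (R τ').len) (hu : u ≤ (R τ'').len) :
    [(R τ).ent τ (lam τ) s, (R τ).ext τ (lam τ) s, (R τ').ent τ' (lam τ') t,
      (R τ').ext τ' (lam τ') t, (R τ'').ent τ'' (lam τ'') u, (R τ'').ext τ'' (lam τ'') u].Nodup := by
  simp only [List.nodup_cons, List.mem_cons, List.not_mem_nil, or_false, not_or, not_false_eq_true,
    List.nodup_nil, and_true]
  exact ⟨⟨ent_ne_ext _ _ _ hs, port_ne hL h1 hs ht (Or.inl rfl) (Or.inl rfl),
    port_ne hL h1 hs ht (Or.inl rfl) (Or.inr rfl), port_ne hL h2 hs hu (Or.inl rfl) (Or.inl rfl),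
    port_ne hL h2 hs hu (Or.inl rfl) (Or.inr rfl)⟩,
    ⟨port_ne hL h1 hs ht (Or.inr rfl) (Or.inl rfl), port_ne hL h1 hs ht (Or.inr rfl) (Or.inr rfl),
    port_ne hL h2 hs hu (Or.inr rfl) (Or.inl rfl), port_ne hL h2 hs hu (Or.inr rfl) (Or.inr rfl)⟩,
    ⟨ent_ne_ext _ _ _ ht, port_ne hL h3 ht hu (Or.inl rfl) (Or.inl rfl),
    port_ne hL h3 ht hu (Or.inl rfl) (Or.inr rfl)⟩,
    ⟨port_ne hL h3 ht hu (Or.inr rfl) (Or.inl rfl),
    port_ne hL h3 ht hu (Or.inr rfl) (Or.inr rfl)⟩, ent_ne_ext _ _ _ hu⟩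

end Routes

/-! ## The curves -/

section Curve

variable {J I U T : Type} {src tgt : I → J} {L : Layout J I src tgt} {S : Lns L} {pl : U → J}
  {a b : T → U} {n : ℕ}

theorem blk_cre (K : BL S pl a b n) {j : J} {p q : Port T I} (hp : Pj src tgt pl a b n j p)
    (hq : Pj src tgt pl a b n j q) {z : ℝ × ℝ} (hz : z ∈ K.C j p q) : z ∈ Cre L j := by
  rcases K.sub j p q hp hq z hz with h | ⟨i, e, l, h, h'⟩
  · exact ore_sub_cre h
  · rw [h']
    have h1 : nend src tgt i e = j := by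
      rcases h with h | h
      · subst h; exact hp.2
      · subst h; exact hq.2
    rw [← h1]
    exact dr_cre S i e l

theorem blk_blk (K : BL S pl a b n) {j j' : J} {p q p' q' : Port T I}
    (hp : Pj src tgt pl a b n j p) (hq : Pj src tgt pl a b n j q)
    (hp' : Pj src tgt pl a b n j' p') (hq' : Pj src tgt pl a b n j' q') {z : ℝ × ℝ}
    (hz : z ∈ K.C j p q) (hz' : z ∈ K.C j' p' q') : j = j' := by
  have h2 := blk_cre K hp' hq' hz'
  rcases K.sub j p q hp hq z hz with h | ⟨i, e, l, h, h'⟩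
  · exact (cre_ore h2 h).symm
  · have h1 : nend src tgt i e = j := by
      rcases h with h | h
      · subst h; exact hp.2
      · subst h; exact hq.2
    have h3 : z ∈ S.St i l := by rw [h']; exact dr_mem S i e l
    obtain ⟨e', h4, h5⟩ := cre_st S h2 h3
    rw [h'] at h5
    obtain ⟨-, h6, -⟩ := dr_inj S h5
    rw [← h1, ← h4, h6]

theorem blk_st (K : BL S pl a b n) {j : J} {p q : Port T I} (hp : Pj src tgt pl a b n j p)
    (hq : Pj src tgt pl a b n j q) {z : ℝ × ℝ} (hz : z ∈ K.C j p q) {i : I} {l : ℕ}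
    (hz' : z ∈ S.St i l) :
    ∃ e, (p = Sum.inr (i, e, l) ∨ q = Sum.inr (i, e, l)) ∧ z = S.dr i e l := by
  rcases K.sub j p q hp hq z hz with h | ⟨i', e, l', h, h'⟩
  · exact absurd h (st_nore S hz' j)
  · have h3 : z ∈ S.St i' l' := by rw [h']; exact dr_mem S i' e l'
    obtain ⟨h4, h5⟩ := st_disj S hz' h3
    subst h4; subst h5
    exact ⟨e, h, h'⟩

variable (K : BL S pl a b n) (R : Rt J I src tgt) (τ : T) (l : I → ℕ)

/-- the curve up to the block of `R.nd m` -/
def cur (m : ℕ) : Set (ℝ × ℝ) :=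
  {z | (∃ t ≤ m, z ∈ K.C (R.nd t) (R.ent τ l t) (R.ext τ l t)) ∨
    ∃ t < m, z ∈ S.St (R.ar t) (l (R.ar t))}

theorem cur_arc (h1 : ∀ t ≤ R.len, Pj src tgt pl a b n (R.nd t) (R.ent τ l t))
    (h2 : ∀ t ≤ R.len, Pj src tgt pl a b n (R.nd t) (R.ext τ l t)) (hab : a τ ≠ b τ) :
    ∀ m ≤ R.len, IsArc (cur K R τ l m) (K.P (a τ)) (ptP S a b K.P (R.ext τ l m)) := by
  have htm : ∀ t ≤ R.len, tmP a b (R.ent τ l t) ≠ tmP a b (R.ext τ l t) ∨
      tmP a b (R.ent τ l t) = none := by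
    intro t ht
    rcases h3 : R.ent τ l t with q | q
    · left
      obtain ⟨h4, h5⟩ := ent_inl h3
      rcases h6 : R.ext τ l t with q' | q'
      · obtain ⟨h7, h8⟩ := ext_inl h6
        rw [h5, h8]
        simp only [tmP, tv]
        intro h
        exact hab (Option.some.inj h)
      · simp [tmP]
    · right
      rfl
  have hC : ∀ t ≤ R.len, IsArc (K.C (R.nd t) (R.ent τ l t) (R.ext τ l t))
      (ptP S a b K.P (R.ent τ l t)) (ptP S a b K.P (R.ext τ l t)) := fun t ht =>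
    K.isArc _ _ _ (h1 t ht) (h2 t ht) (ent_ne_ext R τ l ht) (htm t ht)
  intro m
  induction m with
  | zero =>
    intro h0
    have h3 : cur K R τ l 0 = K.C (R.nd 0) (R.ent τ l 0) (R.ext τ l 0) := by
      ext z
      constructor
      · rintro (⟨t, ht, hz⟩ | ⟨t, ht, -⟩)
        · obtain rfl : t = 0 := by omega
          exact hz
        · omega
      · intro hz
        exact Or.inl ⟨0, le_rfl, hz⟩
    rw [h3]
    exact hC 0 h0
  | succ m ih =>
    intro hm
    have hm' : m < R.len := hm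
    have ih' := ih hm'.le
    have hext : R.ext τ l m = Sum.inr (R.ar m, R.dir m, l (R.ar m)) := by
      unfold Rt.ext
      rw [if_neg (by omega)]
    rw [hext] at ih'
    have hst : IsArc (S.St (R.ar m) (l (R.ar m))) (S.dr (R.ar m) (R.dir m) (l (R.ar m)))
        (S.dr (R.ar m) (!R.dir m) (l (R.ar m))) := by
      cases R.dir m
      · exact S.isArc _ _
      · exact (S.isArc _ _).symm
    have hdec : cur K R τ l (m + 1) = (cur K R τ l m ∪ S.St (R.ar m) (l (R.ar m))) ∪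
        K.C (R.nd (m + 1)) (R.ent τ l (m + 1)) (R.ext τ l (m + 1)) := by
      ext z
      constructor
      · rintro (⟨t, ht, hz⟩ | ⟨t, ht, hz⟩)
        · rcases Nat.lt_or_ge m t with h | h
          · obtain rfl : t = m + 1 := by omega
            exact Or.inr hz
          · exact Or.inl (Or.inl (Or.inl ⟨t, h, hz⟩))
        · rcases Nat.lt_or_ge t m with h | h
          · exact Or.inl (Or.inl (Or.inr ⟨t, h, hz⟩))
          · obtain rfl : t = m := by omega
            exact Or.inl (Or.inr hz)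
      · rintro (((⟨t, ht, hz⟩ | ⟨t, ht, hz⟩) | hz) | hz)
        · exact Or.inl ⟨t, by omega, hz⟩
        · exact Or.inr ⟨t, by omega, hz⟩
        · exact Or.inr ⟨m, by omega, hz⟩
        · exact Or.inl ⟨m + 1, le_rfl, hz⟩
    rw [hdec]
    refine (IsArc.union (IsArc.union ih' hst ?_) (hC (m + 1) hm) ?_)
    · rintro z (⟨t, ht, hz⟩ | ⟨t, ht, hz⟩) hz'
      · obtain ⟨e, h3, h4⟩ := blk_st K (h1 t (by omega)) (h2 t (by omega)) hz hz'
        rcases h3 with h3 | h3
        · obtain ⟨s, h5, h6, -, -⟩ := ent_inr h3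
          have := R.ar_inj (by omega) hm' h6
          omega
        · obtain ⟨h5, h6, h7, -⟩ := ext_inr h3
          have h8 := R.ar_inj (by omega) hm' h6
          subst h8
          rw [h4, h7]
          rfl
      · obtain ⟨h3, -⟩ := st_disj S hz hz'
        have := R.ar_inj (by omega) hm' h3
        omega
    · rintro z ((⟨t, ht, hz⟩ | ⟨t, ht, hz⟩) | hz) hz'
      · have h3 := blk_blk K (h1 t (by omega)) (h2 t (by omega)) (h1 _ hm) (h2 _ hm) hz hz'
        have := R.inj _ _ (by omega) hm h3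
        omega
      · exfalso
        obtain ⟨e, h3, h4⟩ := blk_st K (h1 _ hm) (h2 _ hm) hz' hz
        rcases h3 with h3 | h3
        · obtain ⟨s, h5, h6, -, -⟩ := ent_inr h3
          have := R.ar_inj (by omega) (by omega) h6
          omega
        · obtain ⟨h5, h6, -, -⟩ := ext_inr h3
          have := R.ar_inj (by omega) (by omega) h6
          omega
      · obtain ⟨e, h3, h4⟩ := blk_st K (h1 _ hm) (h2 _ hm) hz' hz
        rcases h3 with h3 | h3
        · obtain ⟨s, h5, h6, h7, -⟩ := ent_inr h3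
          have h8 := R.ar_inj (by omega) (by omega) h6
          subst h8
          rw [h4, h7]
        · obtain ⟨h5, h6, -, -⟩ := ext_inr h3
          have := R.ar_inj (by omega) (by omega) h6
          omega

end Curve

theorem geo {J I U T : Type} [Finite J] [Finite I] [Finite U] [Finite T] {src tgt : I → J}
    (hst : ∀ i, src i ≠ tgt i) (L : Layout J I src tgt) (pl : U → J) (a b : T → U)
    (hab : ∀ τ, a τ ≠ b τ) (n : ℕ) :
    ∃ ν : Port T I → ℕ, GoodNu src tgt (fun τ => pl (a τ)) (fun τ => pl (b τ)) n ν ∧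
      ∀ (R : T → Rt J I src tgt) (lam : T → I → ℕ), (∀ τ, (R τ).From (pl (a τ)) (pl (b τ))) →
        Lanes R n lam → ∃ (P : U → ℝ × ℝ) (E : T → Set (ℝ × ℝ)), Drw a b P E ∧
          ∀ τ τ', τ ≠ τ' → (Xs P E τ τ').encard ≤ {j | XJ R ν lam τ τ' j}.encard := by
  classical
  obtain ⟨S⟩ := exists_lns hst L
  obtain ⟨K⟩ := exists_BL S pl a b n
  refine ⟨K.ν, fun p p' h1 h2 h3 h4 => K.ν_inj _ p p' ⟨h1, h3⟩ ⟨h2, rfl⟩ h4, ?_⟩
  intro R lam hF hL
  have hent := fun τ {t : ℕ} (ht : t ≤ (R τ).len) => ent_pj hF hL τ ht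
  have hext := fun τ {t : ℕ} (ht : t ≤ (R τ).len) => ext_pj hF hL τ ht
  -- common points of two curves
  have key : ∀ τ τ', τ ≠ τ' → ∀ z ∈ cur K (R τ) τ (lam τ) (R τ).len,
      z ∈ cur K (R τ') τ' (lam τ') (R τ').len →
      ∃ s ≤ (R τ).len, ∃ t ≤ (R τ').len, (R τ).nd s = (R τ').nd t ∧
        z ∈ K.C ((R τ).nd s) ((R τ).ent τ (lam τ) s) ((R τ).ext τ (lam τ) s) ∧
        z ∈ K.C ((R τ').nd t) ((R τ').ent τ' (lam τ') t) ((R τ').ext τ' (lam τ') t) := by
    intro τ τ' hne z hz hz'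
    rcases hz with ⟨s, hs, hz⟩ | ⟨s, hs, hz⟩ <;> rcases hz' with ⟨t, ht, hz'⟩ | ⟨t, ht, hz'⟩
    · exact ⟨s, hs, t, ht, blk_blk K (hent τ hs) (hext τ hs) (hent τ' ht) (hext τ' ht) hz hz',
        hz, hz'⟩
    · exfalso
      obtain ⟨e, h3, -⟩ := blk_st K (hent τ hs) (hext τ hs) hz hz'
      rcases h3 with h3 | h3
      · obtain ⟨u, h5, h6, -, h8⟩ := ent_inr h3
        exact hL.ne τ τ' hne u (by omega) t ht h6 (by rw [h6]; exact h8.symm)
      · obtain ⟨h5, h6, -, h8⟩ := ext_inr h3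
        exact hL.ne τ τ' hne s (by omega) t ht h6 (by rw [h6]; exact h8.symm)
    · exfalso
      obtain ⟨e, h3, -⟩ := blk_st K (hent τ' ht) (hext τ' ht) hz' hz
      rcases h3 with h3 | h3
      · obtain ⟨u, h5, h6, -, h8⟩ := ent_inr h3
        exact hL.ne τ' τ hne.symm u (by omega) s hs h6 (by rw [h6]; exact h8.symm)
      · obtain ⟨h5, h6, -, h8⟩ := ext_inr h3
        exact hL.ne τ' τ hne.symm t (by omega) s hs h6 (by rw [h6]; exact h8.symm)
    · exfalso
      obtain ⟨h3, h4⟩ := st_disj S hz hz'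
      exact hL.ne τ τ' hne s hs t ht h3 h4
  refine ⟨K.P, fun τ => cur K (R τ) τ (lam τ) (R τ).len, ⟨K.P_inj, ?_, ?_, ?_⟩, ?_⟩
  · intro τ
    have h1 := cur_arc K (R τ) τ (lam τ) (fun t ht => hent τ ht) (fun t ht => hext τ ht) (hab τ)
      (R τ).len le_rfl
    have h2 : (R τ).ext τ (lam τ) (R τ).len = Sum.inl (τ, true) := by
      unfold Rt.ext
      rw [if_pos rfl]
    rw [h2] at h1
    exact h1
  · rintro τ u (⟨t, ht, hz⟩ | ⟨t, ht, hz⟩)
    · rcases K.term _ _ _ (hent τ ht) (hext τ ht) u hz with h | h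
      · rcases h1 : (R τ).ent τ (lam τ) t with q | q
        · rw [h1] at h
          have h2 := Option.some.inj h
          rw [(ent_inl h1).2] at h2
          exact Or.inl h2.symm
        · rw [h1] at h
          exact absurd h (by simp [tmP])
      · rcases h1 : (R τ).ext τ (lam τ) t with q | q
        · rw [h1] at h
          have h2 := Option.some.inj h
          rw [(ext_inl h1).2] at h2
          exact Or.inr h2.symm
        · rw [h1] at h
          exact absurd h (by simp [tmP])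
    · exact absurd (K.P_mem u) (st_nore S hz _)
  · intro τ τ' τ'' h1 h2 h3 z hz hz' hz''
    obtain ⟨s, hs, t, ht, hj, g1, g2⟩ := key τ τ' h1 z hz hz'
    obtain ⟨s', hs', u, hu, hj', g3, g4⟩ := key τ τ'' h2 z hz hz''
    have h4 : s = s' := (R τ).inj _ _ hs hs'
      (blk_blk K (hent τ hs) (hext τ hs) (hent τ hs') (hext τ hs') g1 g3)
    subst h4
    have e1 := hent τ' ht
    have e2 := hext τ' ht
    have e3 := hent τ'' hu
    have e4 := hext τ'' hu
    rw [← hj] at g2 e1 e2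
    rw [← hj'] at g4 e3 e4
    exact K.triple _ _ _ _ _ _ _ (hent τ hs) (hext τ hs) e1 e2 e3 e4
      (nodup6 hL h1 h2 h3 hs ht hu) z g1 g2 g4
  · intro τ τ' hne
    -- the node of a crossing
    have hX : ∀ z ∈ Xs K.P (fun τ => cur K (R τ) τ (lam τ) (R τ).len) τ τ', ∃ j,
        ∃ s ≤ (R τ).len, ∃ t ≤ (R τ').len, (R τ).nd s = j ∧ (R τ').nd t = j ∧
          z ∈ K.C j ((R τ).ent τ (lam τ) s) ((R τ).ext τ (lam τ) s) ∧
          z ∈ K.C j ((R τ').ent τ' (lam τ') t) ((R τ').ext τ' (lam τ') t) := by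
      rintro z ⟨hz, hz', -⟩
      obtain ⟨s, hs, t, ht, hj, g1, g2⟩ := key τ τ' hne z hz hz'
      exact ⟨(R τ).nd s, s, hs, t, ht, rfl, hj.symm, g1, hj ▸ g2⟩
    have hpos : ∀ z, z ∈ Xs K.P (fun τ => cur K (R τ) τ (lam τ) (R τ).len) τ τ' → J :=
      fun z hz => (hX z hz).choose
    let f : ℝ × ℝ → J := fun z =>
      if hz : z ∈ Xs K.P (fun τ => cur K (R τ) τ (lam τ) (R τ).len) τ τ' then (hX z hz).choose
      else (R τ).nd 0
    have hf : ∀ z (hz : z ∈ Xs K.P (fun τ => cur K (R τ) τ (lam τ) (R τ).len) τ τ'),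
        ∃ s ≤ (R τ).len, ∃ t ≤ (R τ').len, (R τ).nd s = f z ∧ (R τ').nd t = f z ∧
          z ∈ K.C (f z) ((R τ).ent τ (lam τ) s) ((R τ).ext τ (lam τ) s) ∧
          z ∈ K.C (f z) ((R τ').ent τ' (lam τ') t) ((R τ').ext τ' (lam τ') t) := by
      intro z hz
      have h1 : f z = (hX z hz).choose := by
        simp only [f]
        rw [dif_pos hz]
      rw [h1]
      exact (hX z hz).choose_spec
    -- crossings in one block
    have hone : ∀ j, ∀ s ≤ (R τ).len, ∀ t ≤ (R τ').len, (R τ).nd s = j → (R τ').nd t = j →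
        ∃ X : Set (ℝ × ℝ), X.Subsingleton ∧ (X.Nonempty → XJ R K.ν lam τ τ' j) ∧
          ∀ z, (∀ v, z ≠ K.P v) → z ∈ K.C j ((R τ).ent τ (lam τ) s) ((R τ).ext τ (lam τ) s) →
            z ∈ K.C j ((R τ').ent τ' (lam τ') t) ((R τ').ext τ' (lam τ') t) → z ∈ X := by
      intro j s hs t ht h1 h2
      have e1 := hent τ hs
      have e2 := hext τ hs
      have e3 := hent τ' ht
      have e4 := hext τ' ht
      rw [h1] at e1 e2
      rw [h2] at e3 e4
      obtain ⟨X, x1, x2, x3⟩ := K.cross j _ _ _ _ e1 e2 e3 e4 (nodup4 hL hne hs ht)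
      refine ⟨X, x1, fun hX => ⟨s, hs, t, ht, h1, h2, x2 hX⟩, ?_⟩
      intro z hz hz1 hz2
      rcases x3 z hz1 hz2 with h | ⟨v, h⟩
      · exact h
      · exact absurd h (hz v)
    refine Set.encard_le_encard_of_injOn (f := f) ?_ ?_
    · intro z hz
      obtain ⟨s, hs, t, ht, h1, h2, h3, h4⟩ := hf z hz
      obtain ⟨X, x1, x2, x3⟩ := hone (f z) s hs t ht h1 h2
      exact x2 ⟨z, x3 z hz.2.2 h3 h4⟩
    · intro z hz w hw hzw
      obtain ⟨s, hs, t, ht, h1, h2, h3, h4⟩ := hf z hz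
      obtain ⟨s', hs', t', ht', h1', h2', h3', h4'⟩ := hf w hw
      rw [← hzw] at h1' h2' h3' h4'
      obtain rfl : s = s' := (R τ).inj _ _ hs hs' (h1.trans h1'.symm)
      obtain rfl : t = t' := (R τ').inj _ _ ht ht' (h2.trans h2'.symm)
      obtain ⟨X, x1, x2, x3⟩ := hone (f z) s hs t ht h1 h2
      exact x1 (x3 z hz.2.2 h3 h4) (x3 w hw.2.2 h3' h4')

end Pool.Agent.Helper83.LN
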