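import Pool.Agent.Helper83.OP.Final
import Pool.Agent.Helper83.OP.Mono

/-!
# Cycles with at most one branch vertex

If all `G - e` are 1-planar and `G` has a cycle with at most one vertex of degree at least three, then `G` is
16-planar: delete all edges of the cycle except one edge `v c` at the branch vertex `v`, draw an arc from `c` to `v` along
this edge (`aug` with `ℓ = 1`, `D = 0`), and insert the deleted path (`insert_thread`).
-/

namespace Pool.Agent.Helper83.LN

open Set Pool.Agent.Helper83.OP

theorem two_le_deg {V : Type} [Finite V] {G : SimpleGraph V} {x : V} {C : G.Walk x x}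
    (hC : C.IsCycle) {v : V} (hv : v ∈ C.support) : 2 ≤ deg G v := by
  classical
  have h1 := hC.rotate hv
  generalize C.rotate v hv = C' at h1
  cases C' with
  | nil => exact absurd h1 (by simp)
  | cons h p =>
    rename_i c
    rw [SimpleGraph.Walk.cons_isCycle_iff] at h1
    obtain ⟨hp, he⟩ := h1
    have hne : ¬ p.Nil := by
      intro hn
      exact h.ne hn.eq.symm
    have h2 : G.Adj v p.penultimate := (p.adj_penultimate hne).symm
    have h3 : p.penultimate ≠ c := by
      intro h4
      have h5 := p.mk_penultimate_end_mem_edges hne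
      rw [h4, Sym2.eq_swap] at h5
      exact he h5
    unfold deg
    have h4 : ({c, p.penultimate} : Set V) ⊆ G.neighborSet v := by
      rintro y (rfl | rfl)
      · exact h
      · exact h2
    have h5 := Set.ncard_le_ncard h4 (Set.toFinite _)
    rwa [Set.ncard_pair h3.symm] at h5

theorem loop {V : Type} [Finite V] (G : SimpleGraph V)
    (h1 : ∀ e ∈ G.edgeSet, KPl 1 (G.deleteEdges {e})) (x : V) (C : G.Walk x x) (hC : C.IsCycle)
    (hdeg : ∀ u ∈ C.support, ∀ v ∈ C.support, 3 ≤ deg G u → 3 ≤ deg G v → u = v) :
    KPl 16 G := by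
  classical
  -- the base point
  obtain ⟨v, hv, hv2⟩ : ∃ v ∈ C.support, ∀ u ∈ C.support, 3 ≤ deg G u → u = v := by
    by_cases h : ∃ v ∈ C.support, 3 ≤ deg G v
    · obtain ⟨v, hv, h3⟩ := h
      exact ⟨v, hv, fun u hu h4 => hdeg u hu v hv h4 h3⟩
    · push Not at h
      exact ⟨x, C.start_mem_support, fun u hu h4 => absurd (h u hu) (by omega)⟩
  have hR := hC.rotate hv
  have hsup : ∀ u ∈ (C.rotate v hv).support, u ∈ C.support := by
    intro u hu
    exact (C.mem_support_rotate_iff v hv).1 hu
  have h2 : ∀ u ∈ (C.rotate v hv).support, 2 ≤ deg G u := fun u hu => two_le_deg hR hu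
  generalize C.rotate v hv = C' at hR hsup h2
  cases C' with
  | nil => exact absurd hR (by simp)
  | cons h p =>
    rename_i c
    rw [SimpleGraph.Walk.cons_isCycle_iff] at hR
    obtain ⟨hp, he⟩ := hR
    have hne : ¬ p.Nil := by
      intro hn
      exact h.ne hn.eq.symm
    have hH : (G.deleteEdges {f | f ∈ p.edges}).Adj c v := by
      rw [SimpleGraph.deleteEdges_adj]
      refine ⟨h.symm, fun h3 => he ?_⟩
      rw [Sym2.eq_swap]
      exact h3
    have hK : KPl 1 (G.deleteEdges {f | f ∈ p.edges}) := by
      obtain ⟨f, hf⟩ : ∃ f, f ∈ p.edges := ⟨_, p.mk_penultimate_end_mem_edges hne⟩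
      have h3 := h1 f (p.edges_subset_edgeSet hf)
      refine h3.mono ?_
      intro a b hab
      rw [SimpleGraph.deleteEdges_adj] at hab ⊢
      refine ⟨hab.1, fun h4 => hab.2 ?_⟩
      rw [Set.mem_singleton_iff] at h4
      rw [h4]
      exact hf
    have hA := aug (G.deleteEdges {f | f ∈ p.edges}) hK c v hH.ne
      (SimpleGraph.Walk.cons hH SimpleGraph.Walk.nil) 1 0 (by simp) (by
        intro y hy h3 h4
        simp at hy
        rcases hy with hy | hy
        · exact absurd hy h3
        · exact absurd hy h4)
    have := insert_thread G c v hH.ne p hp (by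
      intro y hy h3 h4
      have h5 : y ∈ (SimpleGraph.Walk.cons h p).support := by
        rw [SimpleGraph.Walk.support_cons]
        exact List.mem_cons_of_mem _ hy
      have h6 := h2 y h5
      by_contra h7
      exact h4 (hv2 y (hsup y h5) (by omega))) _ hA
    simpa using this

end Pool.Agent.Helper83.LN
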