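import Pool.Agent.Helper83.LN.Polar

/-!
# LN-3: positions of the ports in the polar plane

Proof. For a door `d` take polar coordinates `(θ_d, rad d)` of `A d` about the centre (`exists_pol`; `A d` is not
the centre as the centre is in the open rectangle). They are pairwise different by `pol_angle`, `rad d > 1/4` by
`rad_ge`. Let `m ∈ (-π, π]` be the least `θ_d` (or `m = π` if there is no door).
Terminal part: let `iW : W → ℕ`, `iU : U → ℕ` be injective with values `< N` (finite types), and put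
`k w = iU (u w) * (N + 2) + iW w + 2`, `k' v = iU v * (N + 2) + 1`, natural numbers in `[1, (N + 2) ^ 2)`;
`th (inr w) = -π + (m + π) * k w / (N + 2) ^ 2`, `om v = -π + (m + π) * k' v / (N + 2) ^ 2`. These are in
`(-π, m)`, ordered as the natural numbers `k w`, `k' v`. All conditions of `Pose` are then statements about
`k`, `k'`: `k' (u w) < k w`; if `v ≠ u w` then `k' v < k' (u w)` or `k w < k' v` (compare `iU`; `iW w + 2 < N + 2`...);
if `u w ≠ u w'` then `k w < k' (u w')` or `k w' < k' (u w)`; `k` and `k'` injective.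
-/

namespace Pool.Agent.Helper83.LN

open Set Pool.Agent.Helper83.OP

private theorem nat_lt {a b c N : ℕ} (hab : a < b) (hc : c < N) :
    a * (N + 2) + c + 2 < b * (N + 2) + 1 := by
  have h1 : (a + 1) * (N + 2) ≤ b * (N + 2) := Nat.mul_le_mul_right _ hab
  have h2 : (a + 1) * (N + 2) = a * (N + 2) + (N + 2) := by ring
  omega

private theorem exists_low {D : Type} [Finite D] (θ : D → ℝ) (h0 : ∀ d, -Real.pi < θ d)
    (h1 : ∀ d, θ d ≤ Real.pi) : ∃ m : ℝ, -Real.pi < m ∧ m ≤ Real.pi ∧ ∀ d, m ≤ θ d := by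
  rcases isEmpty_or_nonempty D with hD | hD
  · exact ⟨Real.pi, by linarith [Real.pi_pos], le_rfl, fun d => (hD.false d).elim⟩
  · obtain ⟨d, hd⟩ := Finite.exists_min θ
    exact ⟨θ d, h0 d, h1 d, hd⟩

/-- positions in the sector `(-π, m)` ordered as the natural numbers -/
private noncomputable def ff (m : ℝ) (M k : ℕ) : ℝ := -Real.pi + (m + Real.pi) * ((k : ℝ) / M)

private theorem ff_lt {m : ℝ} (hm : -Real.pi < m) {M k l : ℕ} (hM : 0 < M) (h : k < l) :
    ff m M k < ff m M l := by
  unfold ff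
  have h1 : (0 : ℝ) < m + Real.pi := by linarith
  have h2 : (0 : ℝ) < M := by exact_mod_cast hM
  have h3 : (k : ℝ) < l := by exact_mod_cast h
  have h4 : (k : ℝ) / M < l / M := div_lt_div_of_pos_right h3 h2
  have h5 := mul_lt_mul_of_pos_left h4 h1
  linarith

private theorem ff_gt {m : ℝ} (hm : -Real.pi < m) {M k : ℕ} (hM : 0 < M) (h : 0 < k) :
    -Real.pi < ff m M k := by
  have h1 := ff_lt hm hM h
  have h2 : ff m M 0 = -Real.pi := by
    unfold ff
    simp
  rwa [h2] at h1

private theorem ff_top {m : ℝ} (hm : -Real.pi < m) {M k : ℕ} (hM : 0 < M) (h : k < M) :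
    ff m M k < m := by
  have h1 := ff_lt hm hM h
  have h2 : ff m M M = m := by
    unfold ff
    have h3 : (M : ℝ) ≠ 0 := by exact_mod_cast hM.ne'
    rw [div_self h3]
    ring
  rwa [h2] at h1

private theorem ff_inj {m : ℝ} (hm : -Real.pi < m) {M k l : ℕ} (hM : 0 < M)
    (h : ff m M k = ff m M l) : k = l := by
  rcases lt_trichotomy k l with h1 | h1 | h1
  · exact absurd h (ff_lt hm hM h1).ne
  · exact h1
  · exact absurd h (ff_lt hm hM h1).ne'

theorem exists_pose {D W U : Type} [Finite D] [Finite W] [Finite U] {x0 x1 y0 y1 : ℤ} (hx : x0 < x1)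
    (hy : y0 < y1) (A : D → ℝ × ℝ) (hA : Function.Injective A) (hc : ∀ d, A d ∈ crect x0 x1 y0 y1)
    (ho : ∀ d, A d ∉ orect x0 x1 y0 y1) (u : W → U) :
    ∃ Θ : Pose D W U u, ∀ d, pol (ctr x0 x1 y0 y1) (Θ.th (Sum.inl d), Θ.rad d) = A d := by
  classical
  have := Fintype.ofFinite U
  have := Fintype.ofFinite W
  have hex : ∀ d, ∃ z ∈ PD, pol (ctr x0 x1 y0 y1) z = A d := by
    intro d
    apply exists_pol
    intro h
    exact ho d (h ▸ ctr_mem hx hy)
  choose z hz hzA using hex
  obtain ⟨m, hm0, hm1, hmd⟩ := exists_low (fun d => (z d).1) (fun d => (hz d).1) (fun d => (hz d).2.1)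
  -- numberings
  obtain ⟨iU, hiU, NU, hNU⟩ : ∃ iU : U → ℕ, Function.Injective iU ∧ ∃ N, ∀ v, iU v < N :=
    ⟨fun v => (Fintype.equivFin U v : ℕ), fun a b h => (Fintype.equivFin U).injective (Fin.ext h),
      Fintype.card U, fun v => (Fintype.equivFin U v).2⟩
  obtain ⟨iW, hiW, NW, hNW⟩ : ∃ iW : W → ℕ, Function.Injective iW ∧ ∃ N, ∀ v, iW v < N :=
    ⟨fun v => (Fintype.equivFin W v : ℕ), fun a b h => (Fintype.equivFin W).injective (Fin.ext h),
      Fintype.card W, fun v => (Fintype.equivFin W v).2⟩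
  obtain ⟨N, hN⟩ : ∃ N, N = NU + NW := ⟨_, rfl⟩
  have hU : ∀ v, iU v < N := fun v => by
    have := hNU v
    omega
  have hW : ∀ w, iW w < N := fun w => by
    have := hNW w
    omega
  obtain ⟨k, hk⟩ : ∃ k : W → ℕ, ∀ w, k w = iU (u w) * (N + 2) + iW w + 2 := ⟨_, fun _ => rfl⟩
  obtain ⟨k', hk'⟩ : ∃ k' : U → ℕ, ∀ v, k' v = iU v * (N + 2) + 1 := ⟨_, fun _ => rfl⟩
  obtain ⟨M, hM⟩ : ∃ M, M = N * (N + 2) + 1 := ⟨_, rfl⟩
  have hM0 : 0 < M := by omega
  have hkM : ∀ w, k w < M := by
    intro w
    rw [hk, hM]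
    exact nat_lt (hU _) (hW _)
  have hkM' : ∀ v, k' v < M := by
    intro v
    rw [hk', hM]
    have h1 : (iU v + 1) * (N + 2) ≤ N * (N + 2) := Nat.mul_le_mul_right _ (hU v)
    have h2 : (iU v + 1) * (N + 2) = iU v * (N + 2) + (N + 2) := by ring
    omega
  have c1 : ∀ w w', iU (u w) < iU (u w') → k w < k' (u w') := by
    intro w w' h
    rw [hk, hk']
    exact nat_lt h (hW _)
  have c2 : ∀ w v, iU (u w) < iU v → k w < k' v := by
    intro w v h
    rw [hk, hk']
    exact nat_lt h (hW _)
  have c3 : ∀ w, k' (u w) < k w := by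
    intro w
    rw [hk, hk']
    omega
  have c4 : ∀ v v', iU v < iU v' → k' v < k' v' := by
    intro v v' h
    rw [hk', hk']
    have h1 : (iU v + 1) * (N + 2) ≤ iU v' * (N + 2) := Nat.mul_le_mul_right _ h
    have h2 : (iU v + 1) * (N + 2) = iU v * (N + 2) + (N + 2) := by ring
    omega
  have kinj : ∀ w w', k w = k w' → w = w' := by
    intro w w' h
    rcases lt_trichotomy (iU (u w)) (iU (u w')) with h1 | h1 | h1
    · have := c1 w w' h1
      have := c3 w'
      omega
    · rw [hk, hk, h1] at h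
      exact hiW (by omega)
    · have := c1 w' w h1
      have := c3 w
      omega
  have kinj' : ∀ v v', k' v = k' v' → v = v' := by
    intro v v' h
    rcases lt_trichotomy (iU v) (iU v') with h1 | h1 | h1
    · have := c4 v v' h1
      omega
    · exact hiU h1
    · have := c4 v' v h1
      omega
  have kpos : ∀ w, 0 < k w := fun w => by
    rw [hk]
    omega
  have kpos' : ∀ v, 0 < k' v := fun v => by
    rw [hk']
    omega
  have hlow : ∀ d w, ff m M (k w) < (z d).1 := fun d w =>
    (ff_top hm0 hM0 (hkM w)).trans_le (hmd d)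
  have hzinj : ∀ d d', (z d).1 = (z d').1 → d = d' := by
    intro d d' h
    apply hA
    rw [← hzA d, ← hzA d']
    congr 1
    refine pol_angle hx hy (z d) (z d') (hz d) (hz d') ?_ ?_ ?_ ?_ h
    · rw [hzA]
      exact hc d
    · rw [hzA]
      exact hc d'
    · rw [hzA]
      exact ho d
    · rw [hzA]
      exact ho d'
  refine ⟨{ th := Sum.elim (fun d => (z d).1) fun w => ff m M (k w)
            rad := fun d => (z d).2
            om := fun v => ff m M (k' v)
            th_inj := ?_
            om_inj := ?_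
            th_gt := ?_
            th_le := ?_
            om_gt := ?_
            om_le := ?_
            rad_gt := ?_
            om_lt := ?_
            win := ?_
            wd := ?_
            door := ?_
            door' := ?_ }, ?_⟩
  · rintro (d | w) (d' | w') h
    · exact congrArg Sum.inl (hzinj d d' h)
    · exact absurd h (hlow d w').ne'
    · exact absurd h (hlow d' w).ne
    · exact congrArg Sum.inr (kinj w w' (ff_inj hm0 hM0 h))
  · intro v v' h
    exact kinj' v v' (ff_inj hm0 hM0 h)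
  · rintro (d | w)
    · exact (hz d).1
    · exact ff_gt hm0 hM0 (kpos w)
  · rintro (d | w)
    · exact (hz d).2.1
    · exact (ff_top hm0 hM0 (hkM w)).le.trans hm1
  · intro v
    exact ff_gt hm0 hM0 (kpos' v)
  · intro v
    exact (ff_top hm0 hM0 (hkM' v)).le.trans hm1
  · intro d
    refine rad_ge hx hy (z d) (hz d) ?_
    rw [hzA]
    exact ho d
  · intro w
    exact ff_lt hm0 hM0 (c3 w)
  · intro w v hv
    have h1 : iU v ≠ iU (u w) := fun h => hv (hiU h)
    rcases lt_or_gt_of_ne h1 with h2 | h2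
    · exact Or.inl (ff_lt hm0 hM0 (c4 _ _ h2))
    · exact Or.inr (ff_lt hm0 hM0 (c2 _ _ h2))
  · intro w w' hv
    have h1 : iU (u w) ≠ iU (u w') := fun h => hv (hiU h)
    rcases lt_or_gt_of_ne h1 with h2 | h2
    · exact Or.inl (ff_lt hm0 hM0 (c1 _ _ h2))
    · exact Or.inr (ff_lt hm0 hM0 (c1 _ _ h2))
  · intro d v
    exact (ff_top hm0 hM0 (hkM' v)).trans_le (hmd d)
  · intro d w
    exact hlow d w
  · intro d
    exact hzA d

end Pool.Agent.Helper83.LN
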