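import Pool.Agent.Helper83.LN.Defs
import Pool.Agent.Helper83.OP.Corridor

/-!
# LN-1: lanes in the corridors

Copy of `OP/Corridor.lean` with the offset `kap b` (`b : Bool`, values `-1/6`, `1/6`) replaced by
`kap l = 1 / (l + 3)` for `l : ℕ`. Facts used instead of `kap_cases`: `0 < kap l`, `kap l ≤ 1 / 3`, and
`kap` is injective. All lemmas of the old file carry over:
* `door l c c'` (same formula) lies in the closed cells `c` and `c'` and in no other closed cell;
* inner points of the segment between two doors of a cell `x` (with `c0 ≠ y`) lie in the open cell `x`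
  (`seg_open`: nlinarith with the products of `t`, `1 - t` with `kap l`, `1/2 - kap l`);
* `seg_level`: segments of two different lanes `l ≠ l'` in the cell `x` are disjoint. Straight passage: the
  transversal coordinate is `1/2 ± kap l`. Turn: both doors have the same distance from the corner of the two
  sides, so `p.1 + p.2` (or `p.1 - p.2`) is constant on the segment and depends injectively on `kap l`; the
  products `t * kap l` cancel in `e1 + e2` (or `e1 - e2`), hence `linarith` gives `kap l = kap l'`;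
* `strand`, `main` and the final theorem as before (`Disjoint (St l) (St l')` for `l ≠ l'` instead of
  `false`, `true`; no statement about rational coordinates).
-/

namespace Pool.Agent.Helper83.LN

open Set Pool.Agent.Helper83.OP

/-- the position of the door on the side -/
private noncomputable def kap (l : ℕ) : ℝ := 1 / ((l : ℝ) + 3)

/-- the door between two adjacent cells -/
private noncomputable def door (b : ℕ) (c c' : ℤ × ℤ) : ℝ × ℝ :=
  (((c.1 : ℝ) + c'.1 + 1) / 2 - kap b * (c'.2 - c.2),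
    ((c.2 : ℝ) + c'.2 + 1) / 2 + kap b * (c'.1 - c.1))

private theorem kap_pos (l : ℕ) : 0 < kap l := by
  rw [kap]
  positivity

private theorem kap_le (l : ℕ) : kap l ≤ 1 / 3 := by
  rw [kap]
  have h : (0 : ℝ) ≤ l := Nat.cast_nonneg l
  exact one_div_le_one_div_of_le (by norm_num) (by linarith)

private theorem kap_inj {l l' : ℕ} (h : kap l = kap l') : l = l' := by
  rw [kap, kap] at h
  have h0 : (0 : ℝ) ≤ l := Nat.cast_nonneg l
  have h0' : (0 : ℝ) ≤ l' := Nat.cast_nonneg l'
  have h1 : ((l : ℝ) + 3) ≠ 0 := by positivity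
  have h2 : ((l' : ℝ) + 3) ≠ 0 := by positivity
  rw [div_eq_div_iff h1 h2] at h
  have h3 : (l : ℝ) = l' := by linarith
  exact_mod_cast h3

private theorem mem_cell (c : ℤ × ℤ) (p : ℝ × ℝ) : p ∈ cell c ↔
    ((c.1 : ℝ) ≤ p.1 ∧ p.1 ≤ c.1 + 1) ∧ ((c.2 : ℝ) ≤ p.2 ∧ p.2 ≤ c.2 + 1) := Iff.rfl

private theorem door_cell_left (b : ℕ) {c c' : ℤ × ℤ} (h : CAdj c c') : door b c c' ∈ cell c := by
  obtain ⟨c1, c2⟩ := c
  obtain ⟨d1, d2⟩ := c'
  have k1 := kap_pos b
  have k2 := kap_le b
  rw [mem_cell]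
  simp only [door, CAdj] at h ⊢
  rcases h with ⟨h, h' | h'⟩ | ⟨h, h' | h'⟩ <;> subst h <;> subst h' <;> push_cast <;>
    refine ⟨⟨?_, ?_⟩, ?_, ?_⟩ <;> linarith

private theorem door_cell_right (b : ℕ) {c c' : ℤ × ℤ} (h : CAdj c c') :
    door b c c' ∈ cell c' := by
  obtain ⟨c1, c2⟩ := c
  obtain ⟨d1, d2⟩ := c'
  have k1 := kap_pos b
  have k2 := kap_le b
  rw [mem_cell]
  simp only [door, CAdj] at h ⊢
  rcases h with ⟨h, h' | h'⟩ | ⟨h, h' | h'⟩ <;> subst h <;> subst h' <;> push_cast <;>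
    refine ⟨⟨?_, ?_⟩, ?_, ?_⟩ <;> linarith

/-- the door lies in two cells only -/
private theorem door_cell (b : ℕ) {c c' : ℤ × ℤ} (h : CAdj c c') {e : ℤ × ℤ}
    (he : door b c c' ∈ cell e) : e = c ∨ e = c' := by
  obtain ⟨c1, c2⟩ := c
  obtain ⟨d1, d2⟩ := c'
  obtain ⟨e1, e2⟩ := e
  have k1 := kap_pos b
  have k2 := kap_le b
  rw [mem_cell] at he
  simp only [door, CAdj] at h he
  obtain ⟨⟨a1, a2⟩, a3, a4⟩ := he
  simp only [Prod.mk.injEq]
  rcases h with ⟨h, h' | h'⟩ | ⟨h, h' | h'⟩ <;> subst h <;> subst h' <;>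
    push_cast at a1 a2 a3 a4
  · have f1 := Corr.int_open (m := c1) a1 a2 (by linarith) (by linarith)
    have f2 := Corr.int_on (m := d2) a3 a4 (by ring)
    omega
  · have f1 := Corr.int_open (m := c1) a1 a2 (by linarith) (by linarith)
    have f2 := Corr.int_on (m := c2) a3 a4 (by ring)
    omega
  · have f1 := Corr.int_open (m := c2) a3 a4 (by linarith) (by linarith)
    have f2 := Corr.int_on (m := d1) a1 a2 (by ring)
    omega
  · have f1 := Corr.int_open (m := c2) a3 a4 (by linarith) (by linarith)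
    have f2 := Corr.int_on (m := c1) a1 a2 (by ring)
    omega

/-- inner points of the segment between two doors lie in the open cell -/
private theorem seg_open (b : ℕ) {c0 x y : ℤ × ℤ} (h : CAdj c0 x) (h' : CAdj x y) (hne : c0 ≠ y)
    {t : ℝ} (h0 : 0 < t) (h1 : t < 1) {p : ℝ × ℝ}
    (hp : p = door b c0 x + t • (door b x y - door b c0 x)) :
    (((x.1 : ℝ) < p.1 ∧ p.1 < x.1 + 1) ∧ (x.2 : ℝ) < p.2 ∧ p.2 < x.2 + 1) := by
  obtain ⟨c1, c2⟩ := c0
  obtain ⟨m, n⟩ := x
  obtain ⟨d1, d2⟩ := y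
  have k1 := kap_pos b
  have k2 := kap_le b
  have k3 : 0 < 1 / 2 - kap b := by linarith
  have k4 : 0 < 1 - t := by linarith
  have q1 := mul_pos h0 k1
  have q2 := mul_pos h0 k3
  have q3 := mul_pos k4 k1
  have q4 := mul_pos k4 k3
  rw [Ne, Prod.mk.injEq] at hne
  subst hp
  simp only [door, CAdj, Prod.fst_add, Prod.snd_add, Prod.smul_fst, Prod.smul_snd, Prod.fst_sub,
    Prod.snd_sub, smul_eq_mul] at h h' ⊢
  rcases h with ⟨h, h2 | h2⟩ | ⟨h, h2 | h2⟩ <;>
    rcases h' with ⟨h', h2' | h2'⟩ | ⟨h', h2' | h2'⟩ <;>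
    first
    | (exfalso; omega)
    | (subst h; subst h'; subst h2; subst h2'
       push_cast
       refine ⟨⟨?_, ?_⟩, ?_, ?_⟩ <;> nlinarith)

/-- the strands of two lanes are disjoint in a cell -/
private theorem seg_level {b b' : ℕ} (hb : b ≠ b') {c0 x y : ℤ × ℤ} (h : CAdj c0 x)
    (h' : CAdj x y) (hne : c0 ≠ y) {t s : ℝ}
    (he : door b c0 x + t • (door b x y - door b c0 x) =
      door b' c0 x + s • (door b' x y - door b' c0 x)) : False := by
  obtain ⟨c1, c2⟩ := c0
  obtain ⟨m, n⟩ := x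
  obtain ⟨d1, d2⟩ := y
  rw [Ne, Prod.mk.injEq] at hne
  rw [Prod.ext_iff] at he
  simp only [door, CAdj, Prod.fst_add, Prod.snd_add, Prod.smul_fst, Prod.smul_snd, Prod.fst_sub,
    Prod.snd_sub, smul_eq_mul] at h h' he
  obtain ⟨e1, e2⟩ := he
  apply hb
  apply kap_inj
  rcases h with ⟨h, h2 | h2⟩ | ⟨h, h2 | h2⟩ <;>
    rcases h' with ⟨h', h2' | h2'⟩ | ⟨h', h2' | h2'⟩ <;>
    first
    | (exfalso; omega)
    | (subst h; subst h'; subst h2; subst h2'
       push_cast at e1 e2
       linarith)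

private theorem door_ne (b : ℕ) {c0 x y : ℤ × ℤ} (h : CAdj c0 x) (h' : CAdj x y) (hne : c0 ≠ y) :
    door b c0 x ≠ door b x y := by
  intro he
  have h1 := door_cell b h (e := y) (he ▸ door_cell_right b h')
  rcases h1 with h1 | h1
  · exact hne h1.symm
  · subst h1
    rcases h' with ⟨_, h2 | h2⟩ | ⟨_, h2 | h2⟩ <;> omega

/-- the cells met by the segment between two doors -/
private theorem seg_cells (b : ℕ) {c0 x y : ℤ × ℤ} (h : CAdj c0 x) (h' : CAdj x y) (hne : c0 ≠ y)
    {p : ℝ × ℝ} (hp : p ∈ segment ℝ (door b c0 x) (door b x y)) :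
    p ∈ cell x ∧ ∀ c, p ∈ cell c → c = x ∨ (c = c0 ∧ p = door b c0 x) ∨
      (c = y ∧ p = door b x y) := by
  rw [segment_eq_image'] at hp
  obtain ⟨t, ht, rfl⟩ := hp
  simp only
  rcases ht.1.eq_or_lt with h0 | h0
  · subst h0
    simp only [zero_smul, add_zero]
    refine ⟨door_cell_right b h, fun c hc => ?_⟩
    rcases door_cell b h hc with h1 | h1
    · exact Or.inr (Or.inl ⟨h1, trivial⟩)
    · exact Or.inl h1
  rcases ht.2.eq_or_lt with h1 | h1
  · subst h1
    simp only [one_smul, add_sub_cancel]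
    refine ⟨door_cell_left b h', fun c hc => ?_⟩
    rcases door_cell b h' hc with h1 | h1
    · exact Or.inl h1
    · exact Or.inr (Or.inr ⟨h1, trivial⟩)
  · obtain ⟨⟨a1, a2⟩, a3, a4⟩ := seg_open b h h' hne h0 h1 rfl
    refine ⟨(mem_cell _ _).2 ⟨⟨a1.le, a2.le⟩, a3.le, a4.le⟩, fun c hc => Or.inl ?_⟩
    exact Corr.open_cell a1 a2 a3 a4 hc

private theorem seg_disj {b b' : ℕ} (hb : b ≠ b') {c0 x y : ℤ × ℤ} (h : CAdj c0 x)
    (h' : CAdj x y) (hne : c0 ≠ y) {p : ℝ × ℝ}
    (hp : p ∈ segment ℝ (door b c0 x) (door b x y))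
    (hp' : p ∈ segment ℝ (door b' c0 x) (door b' x y)) : False := by
  rw [segment_eq_image'] at hp hp'
  obtain ⟨t, -, rfl⟩ := hp
  obtain ⟨s, -, hs⟩ := hp'
  exact seg_level hb h h' hne (t := t) (s := s) hs.symm

/-- the strand through the cells `l` -/
private noncomputable def strand (b : ℕ) : ℤ × ℤ → List (ℤ × ℤ) → ℤ × ℤ → Set (ℝ × ℝ)
  | _, [], _ => ∅
  | c0, x :: l, c1 => segment ℝ (door b c0 x) (door b x (l.headD c1)) ∪ strand b x l c1

private theorem strand_main (l : List (ℤ × ℤ)) : ∀ (c0 x c1 : ℤ × ℤ),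
    List.IsChain CAdj (c0 :: x :: (l ++ [c1])) → (c0 :: x :: (l ++ [c1])).Nodup →
    (∀ b, IsArc (strand b c0 (x :: l) c1) (door b c0 x) (door b (l.getLastD x) c1)) ∧
    (∀ b, ∀ p ∈ strand b c0 (x :: l) c1, ∀ c, p ∈ cell c →
      c ∈ x :: l ∨ (c = c0 ∧ p = door b c0 x) ∨ (c = c1 ∧ p = door b (l.getLastD x) c1)) ∧
    (∀ b, ∀ p ∈ strand b c0 (x :: l) c1, ∃ c ∈ x :: l, p ∈ cell c) ∧
    (∀ b b', b ≠ b' → ∀ p, p ∈ strand b c0 (x :: l) c1 → p ∈ strand b' c0 (x :: l) c1 → False) ∧
    CAdj (l.getLastD x) c1 := by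
  induction l with
  | nil =>
    intro c0 x c1 hch hnd
    rw [List.nil_append, List.isChain_cons_cons, List.isChain_cons_cons] at hch
    obtain ⟨h, h', -⟩ := hch
    have hne : c0 ≠ c1 := by
      simp only [List.nil_append, List.nodup_cons, List.mem_cons, not_or] at hnd
      exact hnd.1.2.1
    have hs : ∀ b, strand b c0 [x] c1 = segment ℝ (door b c0 x) (door b x c1) := by
      intro b
      simp [strand]
    simp only [hs, List.getLastD_nil]
    refine ⟨fun b => isArc_segment (door_ne b h h' hne), fun b p hp c hc => ?_,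
      fun b p hp => ⟨x, by simp, (seg_cells b h h' hne hp).1⟩,
      fun b b' hb p hp hp' => seg_disj hb h h' hne hp hp', h'⟩
    rcases (seg_cells b h h' hne hp).2 c hc with h1 | h1 | h1
    · exact Or.inl (by simp [h1])
    · exact Or.inr (Or.inl h1)
    · exact Or.inr (Or.inr h1)
  | cons y l ih =>
    intro c0 x c1 hch hnd
    have hch' := hch
    rw [List.cons_append, List.isChain_cons_cons, List.isChain_cons_cons] at hch
    obtain ⟨h, h', h''⟩ := hch
    have hch2 : List.IsChain CAdj (x :: y :: (l ++ [c1])) := by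
      rw [List.isChain_cons_cons]; exact ⟨h', h''⟩
    have hnd2 : (x :: y :: (l ++ [c1])).Nodup := (List.nodup_cons.1 hnd).2
    have hne : c0 ≠ y := by
      intro he
      exact (List.nodup_cons.1 hnd).1 (by simp [he])
    have hxl : x ∉ y :: l := by
      intro he
      exact (List.nodup_cons.1 hnd2).1 (by
        have : x ∈ y :: l ++ [c1] := List.mem_append_left _ he
        simpa using this)
    have hxc : x ≠ c1 := by
      intro he
      exact (List.nodup_cons.1 hnd2).1 (by simp [he])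
    obtain ⟨i1, i2, i3, i4, i5⟩ := ih x y c1 hch2 hnd2
    have hs : ∀ b, strand b c0 (x :: y :: l) c1 =
        segment ℝ (door b c0 x) (door b x y) ∪ strand b x (y :: l) c1 := by
      intro b
      rfl
    have hl : (y :: l).getLastD x = l.getLastD y := List.getLastD_cons ..
    simp only [hs, hl]
    -- a point of the cell `x` on the rest is the door
    have key : ∀ b, ∀ p ∈ strand b x (y :: l) c1, p ∈ cell x → p = door b x y := by
      intro b p hp hc
      rcases i2 b p hp x hc with h1 | h1 | h1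
      · exact absurd h1 hxl
      · exact h1.2
      · exact absurd h1.1 hxc
    refine ⟨fun b => ?_, fun b p hp c hc => ?_, fun b p hp => ?_, fun b b' hb p hp hp' => ?_, i5⟩
    · exact (isArc_segment (door_ne b h h' hne)).union (i1 b) fun p hp hp' =>
        key b p hp' (seg_cells b h h' hne hp).1
    · rcases hp with hp | hp
      · rcases (seg_cells b h h' hne hp).2 c hc with h1 | h1 | h1
        · exact Or.inl (by simp [h1])
        · exact Or.inr (Or.inl h1)
        · exact Or.inl (by simp [h1.1])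
      · rcases i2 b p hp c hc with h1 | h1 | h1
        · exact Or.inl (List.mem_cons_of_mem _ h1)
        · exact Or.inl (by simp [h1.1])
        · exact Or.inr (Or.inr h1)
    · rcases hp with hp | hp
      · exact ⟨x, by simp, (seg_cells b h h' hne hp).1⟩
      · obtain ⟨c, hc, hpc⟩ := i3 b p hp
        exact ⟨c, List.mem_cons_of_mem _ hc, hpc⟩
    · rcases hp with hp | hp <;> rcases hp' with hp' | hp'
      · exact seg_disj hb h h' hne hp hp'
      · have h1 := key b' p hp' (seg_cells b h h' hne hp).1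
        exact seg_disj hb h h' hne hp (h1 ▸ right_mem_segment ℝ _ _)
      · have h1 := key b p hp (seg_cells b' h h' hne hp').1
        exact seg_disj hb h h' hne (h1 ▸ right_mem_segment ℝ _ _) hp'
      · exact i4 b b' hb p hp hp'

private theorem strand_corridor (c0 c1 : ℤ × ℤ) (l : List (ℤ × ℤ)) (hne : l ≠ [])
    (hch : List.IsChain CAdj (c0 :: (l ++ [c1]))) (hnd : (c0 :: (l ++ [c1])).Nodup) :
    ∃ (St : ℕ → Set (ℝ × ℝ)) (A B : ℕ → ℝ × ℝ),
      (∀ b, IsArc (St b) (A b) (B b)) ∧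
      (∀ b, ∀ p ∈ St b, ∀ c, p ∈ cell c →
        c ∈ l ∨ (c = c0 ∧ p = A b) ∨ (c = c1 ∧ p = B b)) ∧
      (∀ b, ∀ p ∈ St b, ∃ c ∈ l, p ∈ cell c) ∧
      (∀ b b', b ≠ b' → Disjoint (St b) (St b')) ∧
      (∀ b, A b ∈ cell c0) ∧ (∀ b, B b ∈ cell c1) := by
  obtain ⟨x, l, rfl⟩ := List.exists_cons_of_ne_nil hne
  obtain ⟨i1, i2, i3, i4, i5⟩ := strand_main l c0 x c1 hch hnd
  have h : CAdj c0 x := by
    rw [List.cons_append, List.isChain_cons_cons] at hch
    exact hch.1
  exact ⟨fun b => strand b c0 (x :: l) c1, fun b => door b c0 x,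
    fun b => door b (l.getLastD x) c1, i1, i2, i3,
    fun b b' hb => Set.disjoint_left.2 fun p hp hp' => i4 b b' hb p hp hp',
    fun b => door_cell_left b h, fun b => door_cell_right b i5⟩

theorem exists_lns {J I : Type} {src tgt : I → J} (hst : ∀ i, src i ≠ tgt i)
    (L : Layout J I src tgt) : Nonempty (Lns L) := by
  have key : ∀ i, ∃ (St : ℕ → Set (ℝ × ℝ)) (A B : ℕ → ℝ × ℝ),
      (∀ b, IsArc (St b) (A b) (B b)) ∧
      (∀ b, ∀ p ∈ St b, ∀ c, p ∈ cell c →
        c ∈ L.cells i ∨ (c = L.cs i ∧ p = A b) ∨ (c = L.ce i ∧ p = B b)) ∧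
      (∀ b, ∀ p ∈ St b, ∃ c ∈ L.cells i, p ∈ cell c) ∧
      (∀ b b', b ≠ b' → Disjoint (St b) (St b')) ∧
      (∀ b, A b ∈ cell (L.cs i)) ∧ (∀ b, B b ∈ cell (L.ce i)) := by
    intro i
    refine strand_corridor (L.cs i) (L.ce i) (L.cells i) (L.ne i) (L.chain i) ?_
    have h1 : L.cs i ∉ L.cells i := fun h => L.cells_free i _ h _ (L.cs_mem i)
    have h2 : L.ce i ∉ L.cells i := fun h => L.cells_free i _ h _ (L.ce_mem i)
    have h3 : L.cs i ≠ L.ce i := by
      intro h
      have h4 := L.ce_mem i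
      rw [← h] at h4
      exact hst i (L.blocks _ _ _ (L.cs_mem i) h4)
    rw [List.nodup_cons]
    refine ⟨?_, ?_⟩
    · rw [List.mem_append, List.mem_singleton, not_or]
      exact ⟨h1, h3⟩
    · rw [List.nodup_append]
      refine ⟨L.nodup i, List.nodup_singleton _, ?_⟩
      intro a ha b hb
      rw [List.mem_singleton] at hb
      subst hb
      exact fun h => h2 (h ▸ ha)
  choose St A B h1 h2 h3 h4 h5 h6 using key
  exact ⟨⟨St, A, B, h1, h2, h3, h4, h5, h6⟩⟩

end Pool.Agent.Helper83.LN
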