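import Pool.Agent.Helper83.LN.Defs

/-!
# LN-7: exchanging ends of two interleaving pairs

`f τ` is the pair of port numbers of the curve `τ` in one block (`none` if `τ` does not visit the block);
`cr f` is the number of ordered pairs of curves which interleave.
-/

namespace Pool.Agent.Helper83.LN

open Set

theorem Il.symm {a b c d : ℕ} (h : Il a b c d) : Il c d a b := by
  unfold Il at *
  omega

theorem il_comm (a b c d : ℕ) : Il a b c d ↔ Il c d a b := ⟨Il.symm, Il.symm⟩

theorem il_left (a b c d : ℕ) : Il a b c d ↔ Il b a c d := by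
  unfold Il
  omega

theorem il_right (a b c d : ℕ) : Il a b c d ↔ Il a b d c := by
  unfold Il
  omega

/-- the number of interleaving (ordered) pairs -/
noncomputable def cr {T : Type} (f : T → Option (ℕ × ℕ)) : ℕ :=
  {p : T × T | p.1 ≠ p.2 ∧ ∃ x y, f p.1 = some x ∧ f p.2 = some y ∧ Il x.1 x.2 y.1 y.2}.ncard

/-- `f τ` is the pair `{a, x}` -/
def Is {T : Type} (f : T → Option (ℕ × ℕ)) (τ : T) (a x : ℕ) : Prop :=
  f τ = some (a, x) ∨ f τ = some (x, a)

open Classical in
/-- indicator of interleaving of two natural pairs -/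
private noncomputable def ii (a b c d : ℕ) : ℕ := if Il a b c d then 1 else 0

private theorem ii_congr {a b c d a' b' c' d' : ℕ} (h : Il a b c d ↔ Il a' b' c' d') :
    ii a b c d = ii a' b' c' d' := by
  unfold ii
  by_cases h1 : Il a b c d
  · rw [if_pos h1, if_pos (h.1 h1)]
  · rw [if_neg h1, if_neg (fun h2 => h1 (h.2 h2))]

private theorem ii_comm (a b c d : ℕ) : ii a b c d = ii c d a b := ii_congr (il_comm a b c d)

private theorem ii_left (a b c d : ℕ) : ii a b c d = ii b a c d := ii_congr (il_left a b c d)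

private theorem ii_right (a b c d : ℕ) : ii a b c d = ii a b d c := ii_congr (il_right a b c d)

/-- the position of `z` relative to the chord `p q`: `0` on it, `1` inside, `2` outside -/
private def sd (p q z : ℕ) : ℕ :=
  if z < min p q then 2 else if z = min p q then 0 else if z < max p q then 1
  else if z = max p q then 0 else 2

private theorem sd_key (p q z : ℕ) : (sd p q z = 1 ↔ (min p q < z ∧ z < max p q)) ∧
    (sd p q z = 2 ↔ (z < min p q ∨ max p q < z)) := by
  have hmm : min p q ≤ max p q := min_le_max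
  unfold sd
  generalize min p q = m at *
  generalize max p q = M at *
  constructor <;> constructor <;> intro h <;> split_ifs at * <;> omega

private theorem Il_iff_sd (p q x y : ℕ) :
    Il p q x y ↔ (sd p q x = 1 ∧ sd p q y = 2) ∨ (sd p q x = 2 ∧ sd p q y = 1) := by
  unfold Il
  rw [(sd_key p q x).1, (sd_key p q x).2, (sd_key p q y).1, (sd_key p q y).2]
  tauto

private theorem sd_one {x y x' y' : ℕ} (h : Il x y x' y') (p q : ℕ) (h1 : sd p q x = 1)
    (h2 : sd p q y ≠ 2) : sd p q x' = 1 ∨ sd p q y' = 1 := by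
  rw [(sd_key p q x').1, (sd_key p q y').1]
  rw [(sd_key p q x).1] at h1
  rw [Ne, (sd_key p q y).2, not_or, not_lt, not_lt] at h2
  unfold Il at h
  generalize min p q = m at *
  generalize max p q = M at *
  rcases le_total x y with h3 | h3 <;>
  simp only [min_eq_left h3, max_eq_right h3, min_eq_right h3, max_eq_left h3] at h <;>
  rcases h with (⟨a1, a2, -⟩ | ⟨a1, a2, -⟩) <;> omega

private theorem sd_two {x y x' y' : ℕ} (h : Il x y x' y') (p q : ℕ) (h1 : sd p q x = 2)
    (h2 : sd p q y ≠ 1) : sd p q x' = 2 ∨ sd p q y' = 2 := by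
  rw [(sd_key p q x').2, (sd_key p q y').2]
  rw [(sd_key p q x).2] at h1
  rw [Ne, (sd_key p q y).1] at h2
  have hmm : min p q ≤ max p q := min_le_max
  unfold Il at h
  generalize min p q = m at *
  generalize max p q = M at *
  rcases le_total x y with h3 | h3 <;>
  simp only [min_eq_left h3, max_eq_right h3, min_eq_right h3, max_eq_left h3] at h <;>
  rcases h1 with h1 | h1 <;>
  rcases h with (⟨a1, a2, a3 | a3⟩ | ⟨a1, a2, a3 | a3⟩) <;> omega

private theorem ii_smooth (a x a' x' c d : ℕ) (h : Il a x a' x') :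
    ii a x' c d + ii a' x c d ≤ ii a x c d + ii a' x' c d := by
  rw [ii_comm a x', ii_comm a' x, ii_comm a x, ii_comm a' x']
  have h' : Il a' x' a x := h.symm
  have hs : Il x a a' x' := (il_left _ _ _ _).1 h
  have hs' : Il x' a' a x := (il_left _ _ _ _).1 h'
  have e1 := sd_one h c d
  have e2 := sd_two h c d
  have e3 := sd_one hs c d
  have e4 := sd_two hs c d
  have e5 := sd_one h' c d
  have e6 := sd_two h' c d
  have e7 := sd_one hs' c d
  have e8 := sd_two hs' c d
  unfold ii
  simp only [Il_iff_sd]
  generalize sd c d a = u at *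
  generalize sd c d x = v at *
  generalize sd c d a' = w at *
  generalize sd c d x' = z at *
  clear h h' hs hs'
  split_ifs <;> omega

private theorem ii_cross (a x a' x' : ℕ) (h : Il a x a' x') : ii a x' a' x = 0 := by
  unfold ii
  rw [if_neg]
  unfold Il at *
  omega

private theorem ii_self (a x : ℕ) : ii a x a x = 0 := by
  unfold ii
  rw [if_neg]
  unfold Il
  omega

/-- the indicator for optional pairs -/
private noncomputable def ee (u v : Option (ℕ × ℕ)) : ℕ :=
  match u, v with
  | some x, some y => ii x.1 x.2 y.1 y.2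
  | _, _ => 0

private theorem ee_comm (u v : Option (ℕ × ℕ)) : ee u v = ee v u := by
  rcases u with - | u <;> rcases v with - | v <;> simp only [ee]
  exact ii_comm _ _ _ _

private theorem ee_self (u : Option (ℕ × ℕ)) : ee u u = 0 := by
  rcases u with - | u <;> simp only [ee]
  exact ii_self _ _

private theorem ee_swap_left (u v : Option (ℕ × ℕ)) : ee (u.map Prod.swap) v = ee u v := by
  rcases u with - | u <;> rcases v with - | v <;> simp only [ee, Option.map_none, Option.map_some]
  exact ii_left _ _ _ _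

private theorem ee_swap_right (u v : Option (ℕ × ℕ)) : ee u (v.map Prod.swap) = ee u v := by
  rw [ee_comm, ee_swap_left, ee_comm]

private theorem cr_eq {T : Type} [Fintype T] (f : T → Option (ℕ × ℕ)) :
    cr f = ∑ τ, ∑ τ', ee (f τ) (f τ') := by
  classical
  rw [← Finset.sum_product', Finset.univ_product_univ]
  unfold cr
  have h1 : {p : T × T | p.1 ≠ p.2 ∧ ∃ x y, f p.1 = some x ∧ f p.2 = some y ∧ Il x.1 x.2 y.1 y.2} =
      ((Finset.univ.filter fun p : T × T => ee (f p.1) (f p.2) = 1 : Finset (T × T)) : Set (T × T)) := by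
    ext ⟨τ, τ'⟩
    simp only [Set.mem_ofPred_eq, Finset.coe_filter, Finset.mem_univ, true_and]
    constructor
    · rintro ⟨-, x, y, h1, h2, h3⟩
      rw [h1, h2]
      simp only [ee, ii]
      rw [if_pos h3]
    · intro h
      have hne : τ ≠ τ' := by
        rintro rfl
        rw [ee_self] at h
        omega
      refine ⟨hne, ?_⟩
      rcases hu : f τ with - | x <;> rcases hv : f τ' with - | y <;> rw [hu, hv] at h <;>
        simp only [ee] at h
      · omega
      · omega
      · omega
      · refine ⟨x, y, rfl, rfl, ?_⟩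
        unfold ii at h
        by_contra hc
        rw [if_neg hc] at h
        omega
  rw [h1, Set.ncard_coe_finset, Finset.card_filter]
  apply Finset.sum_congr rfl
  rintro ⟨τ, τ'⟩ -
  have hle : ee (f τ) (f τ') ≤ 1 := by
    rcases f τ with - | x <;> rcases f τ' with - | y <;> simp only [ee] <;> try omega
    unfold ii
    split_ifs <;> omega
  show (if ee (f τ) (f τ') = 1 then 1 else 0) = ee (f τ) (f τ')
  split_ifs <;> omega

/-- permuting the curves and reversing pairs does not change the number: the map `(σ, σ)` is a bijection of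
the two sets of pairs (`Set.ncard_congr`, `il_left`, `il_right`) -/
theorem cr_perm {T : Type} [Finite T] (f f' : T → Option (ℕ × ℕ)) (σ : Equiv.Perm T)
    (h : ∀ τ, f' τ = f (σ τ) ∨ f' τ = (f (σ τ)).map Prod.swap) : cr f' = cr f := by
  have := Fintype.ofFinite T
  rw [cr_eq, cr_eq]
  have key : ∀ τ τ', ee (f' τ) (f' τ') = ee (f (σ τ)) (f (σ τ')) := by
    intro τ τ'
    rcases h τ with h1 | h1 <;> rcases h τ' with h2 | h2 <;> rw [h1, h2] <;>
      simp only [ee_swap_left, ee_swap_right]
  simp only [key]
  rw [Equiv.sum_comp σ (fun t => ∑ τ', ee (f t) (f (σ τ')))]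
  apply Finset.sum_congr rfl
  intro t _
  exact Equiv.sum_comp σ (fun t' => ee (f t) (f t'))

private theorem ee_is {T : Type} (f : T → Option (ℕ × ℕ)) (τ : T) (a x : ℕ) (h : Is f τ a x)
    (c d : ℕ) : ee (f τ) (some (c, d)) = ii a x c d := by
  rcases h with h | h <;> rw [h] <;> simp only [ee]
  exact ii_left _ _ _ _

private theorem ee_is2 {T : Type} (f : T → Option (ℕ × ℕ)) (τ τ' : T) (a x a' x' : ℕ)
    (h : Is f τ a x) (h' : Is f τ' a' x') : ee (f τ) (f τ') = ii a x a' x' := by
  rcases h' with h' | h' <;> rw [h', ee_is f τ a x h]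
  exact ii_right _ _ _ _

/-- Proof. For a third curve `τ` with the pair `{c, d}`: `[cd | a x'] + [cd | a' x] ≤ [cd | a x] + [cd | a' x']`
(Iverson brackets of `Il`; true for all natural numbers with `Il a x a' x'`, coincidences included; split on the
four propositions and `omega`, or `decide`-free case distinction). The pair `q, q'` itself: interleaves before, not
after. Write `cr f` as the sum over `T × T` of the indicator, and split off the rows and columns of `q`, `q'`. -/
theorem cr_exchange {T : Type} [Finite T] (f f' : T → Option (ℕ × ℕ)) (q q' : T) (hq : q ≠ q')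
    (a x a' x' : ℕ) (h1 : Is f q a x) (h2 : Is f q' a' x') (hil : Il a x a' x') (h1' : Is f' q a x')
    (h2' : Is f' q' a' x) (h : ∀ τ, τ ≠ q → τ ≠ q' → f' τ = f τ) : cr f' < cr f := by
  classical
  have := Fintype.ofFinite T
  rw [cr_eq, cr_eq]
  have split : ∀ F : T → ℕ, ∑ τ, F τ = F q + F q' + ∑ τ ∈ (Finset.univ.erase q).erase q', F τ := by
    intro F
    rw [← Finset.add_sum_erase Finset.univ F (Finset.mem_univ q),
      ← Finset.add_sum_erase (Finset.univ.erase q) F
        (Finset.mem_erase.2 ⟨hq.symm, Finset.mem_univ q'⟩), add_assoc]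
  have hS : ∀ τ ∈ (Finset.univ.erase q).erase q', f' τ = f τ := by
    intro τ hτ
    rw [Finset.mem_erase, Finset.mem_erase] at hτ
    exact h τ hτ.2.1 hτ.1
  have expand : ∀ g : T → Option (ℕ × ℕ), ∑ τ, ∑ τ', ee (g τ) (g τ') =
      2 * ee (g q) (g q') + 2 * (∑ τ ∈ (Finset.univ.erase q).erase q', (ee (g q) (g τ) + ee (g q') (g τ)))
      + ∑ τ ∈ (Finset.univ.erase q).erase q', ∑ τ' ∈ (Finset.univ.erase q).erase q',
        ee (g τ) (g τ') := by
    intro g
    rw [split, split, split]
    have e1 : ∑ τ ∈ (Finset.univ.erase q).erase q', ∑ τ', ee (g τ) (g τ') =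
        ∑ τ ∈ (Finset.univ.erase q).erase q', (ee (g q) (g τ) + ee (g q') (g τ)) +
        ∑ τ ∈ (Finset.univ.erase q).erase q', ∑ τ' ∈ (Finset.univ.erase q).erase q',
          ee (g τ) (g τ') := by
      rw [← Finset.sum_add_distrib]
      apply Finset.sum_congr rfl
      intro τ _
      rw [split, ee_comm (g τ) (g q), ee_comm (g τ) (g q')]
    rw [e1, Finset.sum_add_distrib, ee_self, ee_self, ee_comm (g q') (g q)]
    ring
  rw [expand f, expand f']
  have hB : ∑ τ ∈ (Finset.univ.erase q).erase q', ∑ τ' ∈ (Finset.univ.erase q).erase q',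
      ee (f' τ) (f' τ') = ∑ τ ∈ (Finset.univ.erase q).erase q',
        ∑ τ' ∈ (Finset.univ.erase q).erase q', ee (f τ) (f τ') := by
    apply Finset.sum_congr rfl
    intro τ hτ
    apply Finset.sum_congr rfl
    intro τ' hτ'
    rw [hS τ hτ, hS τ' hτ']
  have hA : ∑ τ ∈ (Finset.univ.erase q).erase q', (ee (f' q) (f' τ) + ee (f' q') (f' τ)) ≤
      ∑ τ ∈ (Finset.univ.erase q).erase q', (ee (f q) (f τ) + ee (f q') (f τ)) := by
    apply Finset.sum_le_sum
    intro τ hτ
    rw [hS τ hτ]
    rcases f τ with - | ⟨c, d⟩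
    · have : ∀ u, ee u none = 0 := by
        intro u
        rcases u with - | u <;> simp only [ee]
      simp only [this]
      exact le_rfl
    · rw [ee_is f' q a x' h1', ee_is f' q' a' x h2', ee_is f q a x h1, ee_is f q' a' x' h2]
      exact ii_smooth a x a' x' c d hil
  have hC : ee (f' q) (f' q') = 0 := by
    rw [ee_is2 f' q q' a x' a' x h1' h2']
    exact ii_cross a x a' x' hil
  have hD : ee (f q) (f q') = 1 := by
    rw [ee_is2 f q q' a x a' x' h1 h2]
    unfold ii
    rw [if_pos hil]
  rw [hB, hC, hD]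
  omega

end Pool.Agent.Helper83.LN
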