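import Pool.Agent.Helper83.LN.Defs

/-!
# LN-9: walks, routes, distance
-/

namespace Pool.Agent.Helper83.LN

open Set

variable {J I : Type} {src tgt : I → J}

theorem wk_append {j j' j'' : J} {l l' : List (I × Bool)} (h : Wk src tgt j j' l)
    (h' : Wk src tgt j' j'' l') : Wk src tgt j j'' (l ++ l') := by
  induction l generalizing j with
  | nil =>
    have hj : j = j' := h
    rw [hj]
    exact h'
  | cons d l ih => exact ⟨h.1, ih h.2⟩

theorem wcost_append (c : I → ℕ) (l l' : List (I × Bool)) :
    wcost c (l ++ l') = wcost c l + wcost c l' := by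
  simp [wcost]

theorem wk_reverse {j j' : J} {l : List (I × Bool)} (h : Wk src tgt j j' l) :
    Wk src tgt j' j (l.map fun d => (d.1, !d.2)).reverse := by
  induction l generalizing j with
  | nil => exact Eq.symm (h : j = j')
  | cons d l ih =>
    rw [List.map_cons, List.reverse_cons]
    refine wk_append (ih h.2) ⟨rfl, ?_⟩
    change nend src tgt d.1 (!(!d.2)) = j
    rw [Bool.not_not]
    exact h.1

theorem wcost_reverse (c : I → ℕ) (l : List (I × Bool)) :
    wcost c (l.map fun d => (d.1, !d.2)).reverse = wcost c l := by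
  simp [wcost, Function.comp_def]

/-- the trivial route -/
private noncomputable def triv [Nonempty I] (src tgt : I → J) (j : J) : Rt J I src tgt where
  len := 0
  nd := fun _ => j
  ar := fun _ => Classical.arbitrary I
  dir := fun _ => false
  fst := fun t ht => absurd ht (Nat.not_lt_zero t)
  snd := fun t ht => absurd ht (Nat.not_lt_zero t)
  inj := fun s t hs ht _ => by omega

/-- the part of a route from the time `s` on -/
private def tailR (R : Rt J I src tgt) (s : ℕ) (hs : s ≤ R.len) : Rt J I src tgt where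
  len := R.len - s
  nd := fun t => R.nd (s + t)
  ar := fun t => R.ar (s + t)
  dir := fun t => R.dir (s + t)
  fst := fun t ht => R.fst (s + t) (by omega)
  snd := fun t ht => R.snd (s + t) (by omega)
  inj := fun a b ha hb h => by
    have := R.inj (s + a) (s + b) (by omega) (by omega) h
    omega

/-- a dart in front of a route -/
private def consR (R : Rt J I src tgt) (d : I × Bool) (hd : nend src tgt d.1 (!d.2) = R.nd 0)
    (hn : ∀ s ≤ R.len, R.nd s ≠ nend src tgt d.1 d.2) : Rt J I src tgt where
  len := R.len + 1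
  nd := fun t => Nat.casesOn t (nend src tgt d.1 d.2) fun t => R.nd t
  ar := fun t => Nat.casesOn t d.1 fun t => R.ar t
  dir := fun t => Nat.casesOn t d.2 fun t => R.dir t
  fst := fun t ht => by
    cases t with
    | zero => rfl
    | succ t => exact R.fst t (by omega)
  snd := fun t ht => by
    cases t with
    | zero => exact hd
    | succ t => exact R.snd t (by omega)
  inj := fun a b ha hb h => by
    cases a with
    | zero =>
      cases b with
      | zero => rfl
      | succ b => exact absurd h.symm (hn b (by omega))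
    | succ a =>
      cases b with
      | zero => exact absurd h (hn a (by omega))
      | succ b =>
        have := R.inj a b (by omega) (by omega) h
        omega

/-- A walk contains a route. Proof: induction on the length of `l` (strong). If the nodes of the walk are
different, read off the route (`nd t` = node after `t` darts, e.g. by `List.getD`); otherwise cut out a closed part.
(Or: induction on `l`: for `d :: l` take the route `R` of `l`; if the start `j` is a node `R.nd s`, take the part of
`R` from `s` on (`nd (s + ·)`), otherwise put `d` in front.) -/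
theorem exists_rt [Nonempty I] (c : I → ℕ) {j j' : J} {l : List (I × Bool)}
    (h : Wk src tgt j j' l) :
    ∃ R : Rt J I src tgt, R.From j j' ∧ (∀ t < R.len, (R.ar t, R.dir t) ∈ l) ∧
      R.cost c ≤ wcost c l := by
  induction l generalizing j with
  | nil =>
    have hj : j = j' := h
    refine ⟨triv src tgt j, ⟨rfl, hj⟩, fun t ht => absurd ht (Nat.not_lt_zero t), ?_⟩
    exact Nat.zero_le _
  | cons d l ih =>
    obtain ⟨R, hR, hm, hc⟩ := ih h.2
    have hcc : wcost c (d :: l) = c d.1 + wcost c l := by simp [wcost]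
    by_cases hs : ∃ s ≤ R.len, R.nd s = nend src tgt d.1 d.2
    · obtain ⟨s, hs, he⟩ := hs
      refine ⟨tailR R s hs, ⟨?_, ?_⟩, ?_, ?_⟩
      · exact he.trans h.1
      · change R.nd (s + (R.len - s)) = j'
        rw [Nat.add_sub_cancel' hs]
        exact hR.2
      · intro t ht
        have ht' : t < R.len - s := ht
        exact List.mem_cons_of_mem _ (hm (s + t) (by omega))
      · rw [hcc]
        have h1 : (tailR R s hs).cost c = ∑ t ∈ Finset.range (R.len - s), c (R.ar (s + t)) := rfl
        have h2 : ∑ t ∈ Finset.range (R.len - s), c (R.ar (s + t)) =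
            ∑ k ∈ Finset.Ico s R.len, c (R.ar k) := by
          rw [Finset.sum_Ico_eq_sum_range]
        have h3 : ∑ k ∈ Finset.Ico s R.len, c (R.ar k) ≤ R.cost c := by
          apply Finset.sum_le_sum_of_subset
          intro k hk
          rw [Finset.mem_Ico] at hk
          exact Finset.mem_range.2 hk.2
        omega
    · push Not at hs
      refine ⟨consR R d hR.1.symm hs, ⟨h.1, hR.2⟩, ?_, ?_⟩
      · intro t ht
        cases t with
        | zero => exact List.mem_cons_self
        | succ t =>
          have ht' : t + 1 < R.len + 1 := ht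
          exact List.mem_cons_of_mem _ (hm t (by omega))
      · rw [hcc]
        have h1 : (consR R d hR.1.symm hs).cost c = R.cost c + c d.1 := by
          unfold Rt.cost
          change ∑ t ∈ Finset.range (R.len + 1), _ = _
          rw [Finset.sum_range_succ']
          rfl
        omega

theorem rt_wk (R : Rt J I src tgt) (c : I → ℕ) {s t : ℕ} (hst : s ≤ t) (ht : t ≤ R.len) :
    ∃ l, Wk src tgt (R.nd s) (R.nd t) l ∧ wcost c l = ∑ k ∈ Finset.Ico s t, c (R.ar k) ∧
      ∀ d ∈ l, ∃ k, s ≤ k ∧ k < t ∧ d = (R.ar k, R.dir k) := by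
  induction t, hst using Nat.le_induction with
  | base => exact ⟨[], rfl, by simp [wcost], by simp⟩
  | succ t hst ih =>
    obtain ⟨l, h1, h2, h3⟩ := ih (by omega)
    refine ⟨l ++ [(R.ar t, R.dir t)], wk_append h1 ⟨R.fst t (by omega), R.snd t (by omega)⟩, ?_, ?_⟩
    · rw [wcost_append, h2, Finset.sum_Ico_succ_top hst]
      simp [wcost]
    · intro d hd
      rw [List.mem_append, List.mem_singleton] at hd
      rcases hd with hd | hd
      · obtain ⟨k, hk1, hk2, hk3⟩ := h3 d hd
        exact ⟨k, hk1, by omega, hk3⟩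
      · exact ⟨t, hst, by omega, hd⟩

/-- the parts of a geodesic are geodesics: put the walk `l` between the first and the last part of `R` -/
theorem geo_sub {c : I → ℕ} {R : Rt J I src tgt} (h : IsGeo c R) {s t : ℕ} (hst : s ≤ t)
    (ht : t ≤ R.len) (l : List (I × Bool)) (hl : Wk src tgt (R.nd s) (R.nd t) l) :
    ∑ k ∈ Finset.Ico s t, c (R.ar k) ≤ wcost c l := by
  obtain ⟨l1, a1, a2, -⟩ := rt_wk R c (Nat.zero_le s) (hst.trans ht)
  obtain ⟨l2, b1, b2, -⟩ := rt_wk R c ht le_rfl
  have h1 := h (l1 ++ l ++ l2) (wk_append (wk_append a1 hl) b1)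
  rw [wcost_append, wcost_append, a2, b2] at h1
  have h2 : R.cost c = ∑ k ∈ Finset.Ico 0 R.len, c (R.ar k) := by
    unfold Rt.cost
    rw [Finset.range_eq_Ico]
  have h3 := Finset.sum_Ico_consecutive (fun k => c (R.ar k)) (Nat.zero_le s) hst
  have h4 := Finset.sum_Ico_consecutive (fun k => c (R.ar k)) (Nat.zero_le t) ht
  omega

theorem nD_le (c : I → ℕ) {j j' : J} {l : List (I × Bool)} (h : Wk src tgt j j' l) :
    nD src tgt c j j' ≤ wcost c l :=
  Nat.sInf_le ⟨l, h, rfl⟩

theorem nD_attain (c : I → ℕ) {j j' : J} (h : ∃ l, Wk src tgt j j' l) :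
    ∃ l, Wk src tgt j j' l ∧ wcost c l = nD src tgt c j j' := by
  obtain ⟨l, hl⟩ := h
  exact Nat.sInf_mem (s := {x | ∃ l, Wk src tgt j j' l ∧ wcost c l = x}) ⟨wcost c l, l, hl, rfl⟩

theorem nD_symm (c : I → ℕ) (j j' : J) : nD src tgt c j j' = nD src tgt c j' j := by
  unfold nD
  congr 1
  ext x
  constructor
  · rintro ⟨l, h1, h2⟩
    exact ⟨_, wk_reverse h1, (wcost_reverse c l).trans h2⟩
  · rintro ⟨l, h1, h2⟩
    exact ⟨_, wk_reverse h1, (wcost_reverse c l).trans h2⟩

theorem nD_self (c : I → ℕ) (j : J) : nD src tgt c j j = 0 := by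
  have h := nD_le (src := src) (tgt := tgt) c (j := j) (j' := j) (l := []) rfl
  have h0 : wcost c ([] : List (I × Bool)) = 0 := rfl
  omega

theorem nD_tri (c : I → ℕ) {j j' j'' : J} (h : ∃ l, Wk src tgt j j' l)
    (h' : ∃ l, Wk src tgt j' j'' l) :
    nD src tgt c j j'' ≤ nD src tgt c j j' + nD src tgt c j' j'' := by
  obtain ⟨l, h1, h2⟩ := nD_attain c h
  obtain ⟨l', h1', h2'⟩ := nD_attain c h'
  rw [← h2, ← h2', ← wcost_append]
  exact nD_le c (wk_append h1 h1')

theorem nD_geo {c : I → ℕ} {R : Rt J I src tgt} (h : IsGeo c R) {s t : ℕ} (hst : s ≤ t)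
    (ht : t ≤ R.len) : nD src tgt c (R.nd s) (R.nd t) = ∑ k ∈ Finset.Ico s t, c (R.ar k) := by
  obtain ⟨l, a1, a2, -⟩ := rt_wk R c hst ht
  apply le_antisymm
  · rw [← a2]
    exact nD_le c a1
  · obtain ⟨l', b1, b2⟩ := nD_attain c ⟨l, a1⟩
    rw [← b2]
    exact geo_sub h hst ht l' b1

end Pool.Agent.Helper83.LN
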